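import Pool.Agent.Lib.BR18.Blue2

/-! Row AREA: the link triangle of a positive tetrahedron has positive signed area. -/

namespace Pool.Agent.Lib.BR18

open scoped ComplexConjugate

namespace AREA

lemma ar_eq (a b c : ℂ) : ar a b c = ((b - a) * conj (c - a)).im := by
  simp only [ar, Complex.mul_im, Complex.sub_re, Complex.sub_im, Complex.conj_re,
    Complex.conj_im]
  ring

lemma diff (o p q m : V) (hp : dt o p ≠ 0) (hq : dt o q ≠ 0) :
    dt q m / dt o q - dt p m / dt o p = -(dt o m / dt o p) * (dt p q / dt o q) := by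
  have h : dt q m * dt o p - dt o q * dt p m = -(dt o m * dt p q) := by unfold dt; ring
  rw [div_sub_div _ _ hq hp, h]
  field_simp

lemma key (r a b c d : ℂ) (hb : b ≠ 0) (hd : d ≠ 0) :
    (-r * (a / b)) * conj (-r * (c / d)) =
      ((Complex.normSq r / (Complex.normSq b * Complex.normSq d) : ℝ) : ℂ) *
        (d * a * conj (b * c)) := by
  have hb' : conj b ≠ 0 := (map_ne_zero _).2 hb
  have hd' : conj d ≠ 0 := (map_ne_zero _).2 hd
  rw [Complex.ofReal_div, Complex.ofReal_mul, ← Complex.mul_conj, ← Complex.mul_conj,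
    ← Complex.mul_conj, map_mul, map_mul, map_neg, map_div₀]
  field_simp

end AREA

open AREA in
theorem bAREA (hO : St_ORN) : St_AREA := by
  intro m t ht hm
  have hne := hO.2.2.1 t ht.ne'
  have h1 : dt (t 0) (t 1) ≠ 0 := hne 0 1 (by decide)
  have h2 : dt (t 0) (t 2) ≠ 0 := hne 0 2 (by decide)
  have h3 : dt (t 0) (t 3) ≠ 0 := hne 0 3 (by decide)
  rw [ar_eq, diff _ _ _ _ h1 h2, diff _ _ _ _ h1 h3, key _ _ _ _ _ h2 h3, Complex.im_ofReal_mul]
  refine mul_pos (div_pos (Complex.normSq_pos.2 (div_ne_zero hm h1)) ?_) ht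
  exact mul_pos (Complex.normSq_pos.2 h2) (Complex.normSq_pos.2 h3)

end Pool.Agent.Lib.BR18
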