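import Pool.Agent.Lib.BR18.Blue

namespace Pool.Agent.Lib.BR18

open MeasureTheory NumberField Matrix
open scoped MatrixGroups ComplexConjugate

namespace BAL

theorem del_of_range {L : Type} {p : L → V} {η : L → ℝ} {W : Set L} {t t' : Fin 4 → L}
    (h : ∀ j, ∃ i, t' j = t i) (hd : Del p η W t) : Del p η W t' := by
  obtain ⟨h1, l, h2, h3⟩ := hd
  refine ⟨fun j => ?_, l, h2, fun j => ?_⟩
  · obtain ⟨i, hi⟩ := h j
    rw [hi]; exact h1 i
  · obtain ⟨i, hi⟩ := h j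
    rw [hi]; exact h3 i

theorem del_sw {L : Type} {p : L → V} {η : L → ℝ} {W : Set L} {m : L} {f : Fin 3 → L}
    (hd : Del p η W (cn m f)) : Del p η W (cn m (f ∘ sw)) := by
  refine del_of_range (fun j => ?_) hd
  refine Fin.cases ⟨0, rfl⟩ (fun k => ⟨(sw k).succ, rfl⟩) j

variable {K : Type} [Field K] [NumberField K]

theorem dO_mulVec (γ : SL(2, 𝓞 K)) (a b : Lat K) : dO (γ.1 *ᵥ a) (γ.1 *ᵥ b) = dO a b := by
  have h := γ.2
  rw [Matrix.det_fin_two] at h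
  simp only [dO, Matrix.mulVec, dotProduct, Fin.sum_univ_two]
  linear_combination (a 0 * b 1 - a 1 * b 0) * h

theorem orn_mulVec (σ : K →+* ℂ) (γ : SL(2, 𝓞 K)) (t : Fin 4 → Lat K) :
    orn (pe σ ∘ fun j => γ.1 *ᵥ t j) = orn (pe σ ∘ t) := by
  simp only [orn, Function.comp, dt_pe, dO_mulVec]

theorem fin_of_labels {F : Set (𝓞 K)} (hF : F.Finite) {u v : Lat K} (h : dO u v ≠ 0) :
    {m : Lat K | dO m u ∈ F ∧ dO m v ∈ F}.Finite := by
  have hinj : Function.Injective fun m : Lat K => (dO m u, dO m v) := by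
    intro m m' hm
    have h1 : dO m u = dO m' u := congrArg Prod.fst hm
    have h2 : dO m v = dO m' v := congrArg Prod.snd hm
    simp only [dO] at h1 h2
    have e0 : m 0 = m' 0 := by
      apply mul_right_cancel₀ h
      simp only [dO]
      linear_combination u 0 * h2 - v 0 * h1
    have e1 : m 1 = m' 1 := by
      apply mul_right_cancel₀ h
      simp only [dO]
      linear_combination u 1 * h2 - v 1 * h1
    funext i
    fin_cases i
    · exact e0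
    · exact e1
  exact (hF.prod hF).preimage hinj.injOn

end BAL

open BAL

theorem bBAL (hO : St_ORN) (hP : St_POS) (hV : St_PIV) (hM : St_MEAS) : St_BAL := by
  intro K _ _ σ S ρ C η0 η1 N η hC hη0 hη hN hMk hG
  obtain ⟨o1, o2, o3, -⟩ := hO
  letI := S.mX
  have hM' := hM K σ S ρ N η hN
  have hpiv := fun x => hV (Lat K) (pe σ) η (S.win ρ x) C η0 η1 hC hη0 hη (hMk x)
    (fun B => (S.lf x (max ρ B)).subset fun a ha =>
      ⟨ha.1.2.trans (le_max_left _ _), ha.2.trans (le_max_right _ _)⟩) (hG x)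
  obtain ⟨G, hGdef⟩ : ∃ G : (Fin 4 → Lat K) → Set S.X,
      ∀ t, G t = {x | 0 < orn (pe σ ∘ t) ∧ Del (pe σ) η (S.win ρ x) t} := ⟨_, fun _ => rfl⟩
  have Gpos : ∀ t, 0 < orn (pe σ ∘ t) → G t = {x | Del (pe σ) η (S.win ρ x) t} := fun t h => by
    rw [hGdef]; ext x; simp [h]
  have Gneg : ∀ t, ¬ 0 < orn (pe σ ∘ t) → G t = ∅ := fun t h => by
    rw [hGdef]; ext x; simp [h]
  have Gm : ∀ t, MeasurableSet (G t) := fun t => by
    by_cases h : 0 < orn (pe σ ∘ t)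
    · rw [Gpos t h]; exact (hM' t h.ne').1
    · rw [Gneg t h]; exact MeasurableSet.empty
  have Gf : ∀ t, S.μ (G t) ≠ ⊤ := fun t => by
    by_cases h : 0 < orn (pe σ ∘ t)
    · rw [Gpos t h]; exact (hM' t h.ne').2.1
    · rw [Gneg t h]; simp
  obtain ⟨B, hB1, hB2⟩ : ∃ B : ℝ, ρ ≤ B ∧ 4 * C ^ 2 * η1 / η0 ≤ B :=
    ⟨max ρ _, le_max_left _ _, le_max_right _ _⟩
  obtain ⟨F, hF, hlab⟩ : ∃ F : Set (𝓞 K), F.Finite ∧
      ∀ x t, Del (pe σ) η (S.win ρ x) t → ∀ i j, dO (t i) (t j) ∈ F := by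
    refine ⟨_, S.lab B, fun x t hd i j => ?_⟩
    obtain ⟨h1, l, h2, h3⟩ := hd
    refine ⟨?_, x, t i, t j, (h1 i).2.trans hB1, (h1 j).2.trans hB1, rfl⟩
    rw [← dt_pe]
    exact ((hP (Lat K) (pe σ) η (S.win ρ x) C η0 η1 hC hη0 hη (hMk x) l h2).2 _ _ (h3 i)
      (h3 j)).trans hB2
  have wne : ∀ t, (S.μ (G t)).toReal ≠ 0 → ∃ x, 0 < orn (pe σ ∘ t) ∧
      Del (pe σ) η (S.win ρ x) t := fun t h => by
    have h0 : S.μ (G t) ≠ 0 := fun h0 => h (by rw [h0]; rfl)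
    obtain ⟨x, hx⟩ := nonempty_of_measure_ne_zero h0
    rw [hGdef] at hx
    exact ⟨x, hx⟩
  have osw : ∀ (m : Lat K) (g : Fin 3 → Lat K),
      orn (pe σ ∘ cn m (g ∘ sw)) = -orn (pe σ ∘ cn m g) := fun m g => by
    rw [comp_cn, comp_cn]
    exact o2 _ (pe σ ∘ g)
  have hfin : ∀ g : Fin 3 → Lat K, {m | ∃ x, x ∈ G (cn m g)}.Finite := fun g => by
    by_cases h : dO (g 0) (g 1) = 0
    · refine Set.finite_empty.subset ?_
      rintro m ⟨x, hx⟩
      rw [hGdef] at hx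
      have := o3 _ hx.1.ne' 1 2 (by decide)
      exact this (by
        have e : dt ((pe σ ∘ cn m g) 1) ((pe σ ∘ cn m g) 2) = σ (dO (g 0) (g 1) : K) :=
          dt_pe σ (g 0) (g 1)
        rw [e, h]; simp)
    · refine (fin_of_labels hF h).subset ?_
      rintro m ⟨x, hx⟩
      rw [hGdef] at hx
      exact ⟨hlab x _ hx.2 0 1, hlab x _ hx.2 0 2⟩
  have hsum : ∀ g : Fin 3 → Lat K, ∑ᶠ m, (S.μ (G (cn m g))).toReal =
      (S.μ {x | ∃ m, x ∈ G (cn m g)}).toReal := fun g => by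
    have hs : Function.support (fun m => (S.μ (G (cn m g))).toReal) ⊆ (hfin g).toFinset := by
      intro m hm
      obtain ⟨x, hx⟩ := wne _ hm
      rw [Set.Finite.coe_toFinset]
      exact ⟨x, by rw [hGdef]; exact hx⟩
    rw [finsum_eq_sum_of_support_subset _ hs, ← ENNReal.toReal_sum fun m _ => Gf _,
      ← measure_biUnion_finset ?_ fun m _ => Gm _]
    · congr 2
      ext x
      simp only [Set.mem_iUnion, Set.Finite.mem_toFinset, Set.mem_ofPred_eq]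
      exact ⟨fun ⟨m, _, h⟩ => ⟨m, h⟩, fun ⟨m, h⟩ => ⟨m, ⟨x, h⟩, h⟩⟩
    · intro m _ m' _ hne
      refine Set.disjoint_left.2 fun x hx hx' => hne ?_
      have hx1 : x ∈ G (cn m g) := hx
      have hx2 : x ∈ G (cn m' g) := hx'
      rw [hGdef] at hx1 hx2
      exact (hpiv x).2 m m' g hx1.2 hx2.2 (mul_pos hx2.1 hx1.1)
  have hsub : ∀ g : Fin 3 → Lat K,
      {x | ∃ m, x ∈ G (cn m g)} ⊆ {x | ∃ m, x ∈ G (cn m (g ∘ sw))} := by
    rintro g x ⟨m, hx⟩
    rw [hGdef] at hx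
    obtain ⟨m', h1, h2⟩ := (hpiv x).1 m g hx.2 hx.1.ne'
    refine ⟨m', ?_⟩
    rw [hGdef]
    refine ⟨?_, del_sw h1⟩
    rw [osw]
    have := neg_of_mul_neg_left h2 hx.1.le
    linarith
  refine ⟨fun t => (S.μ (G t)).toReal, F, hF, fun t => ENNReal.toReal_nonneg, fun t => ?_,
    fun t ht => ?_, fun γ hγ t => ?_, fun t j => ?_, fun f => ⟨?_, ?_⟩⟩
  · constructor
    · intro h
      obtain ⟨x, hx, -⟩ := wne t h.ne'
      refine ⟨hx, fun h0 => ?_⟩
      rw [← Gpos t hx] at h0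
      simp [h0] at h
    · rintro ⟨h1, h2⟩
      rw [← Gpos t h1] at h2
      exact ENNReal.toReal_pos h2 (Gf t)
  · obtain ⟨x, -, hx⟩ := wne t ht.ne'
    exact hlab x t hx
  · have e := orn_mulVec σ γ t
    by_cases h : 0 < orn (pe σ ∘ t)
    · simp only
      rw [Gpos t h, Gpos _ (e ▸ h), ((hM' t h.ne').2.2 γ hγ).2]
    · simp only
      rw [Gneg t h, Gneg _ (e ▸ h)]
  · have e : G (t ∘ kl j) = G t := by
      rw [hGdef, hGdef]
      ext x
      have e1 : orn (pe σ ∘ (t ∘ kl j)) = orn (pe σ ∘ t) := o1 (pe σ ∘ t) j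
      simp only [Set.mem_ofPred_eq, e1]
      refine and_congr_right fun _ => ⟨del_of_range fun i => ⟨kl j i, ?_⟩,
        del_of_range fun i => ⟨kl j i, rfl⟩⟩
      simp [kl_kl]
    simp only [e]
  · refine (hfin f).subset fun m hm => ?_
    obtain ⟨x, hx⟩ := wne _ (ne_of_gt hm)
    exact ⟨x, by rw [hGdef]; exact hx⟩
  · rw [hsum, hsum]
    congr 2
    refine Set.Subset.antisymm (hsub f) ?_
    have e : (f ∘ sw) ∘ sw = f := funext fun i => congrArg f (sw_sw i)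
    have := hsub (f ∘ sw)
    rwa [e] at this

end Pool.Agent.Lib.BR18
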