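import Pool.Agent.Lib.BR18.Blue

/-! Integers bounded at all places form a finite set. -/

namespace Pool.Agent.Lib.BR18

open NumberField

open Classical in
theorem bBND : St_BND := by
  intro K _ _ σ B
  refine Set.Finite.subset
    ((Embeddings.finite_of_norm_le K ℂ B).preimage
      (RingOfIntegers.coe_injective (K := K)).injOn) ?_
  rintro d ⟨h1, h2⟩
  refine ⟨d.2, fun φ => ?_⟩
  have h3 : ‖φ (d : K)‖ = InfinitePlace.mk φ (d : K) := rfl
  change ‖φ (d : K)‖ ≤ B
  rw [h3]
  by_cases hw : InfinitePlace.mk φ = InfinitePlace.mk σ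
  · rw [hw]; exact h1
  · by_cases hr : (InfinitePlace.mk φ).IsReal
    · rw [← InfinitePlace.norm_embedding_of_isReal hr]
      exact ((norm_le_pi_norm (io σ (d : K)).1 ⟨_, hr⟩).trans (norm_fst_le _)).trans h2
    · rw [← InfinitePlace.norm_embedding_eq]
      exact ((norm_le_pi_norm (io σ (d : K)).2
        ⟨_, InfinitePlace.not_isReal_iff_isComplex.1 hr, hw⟩).trans (norm_snd_le _)).trans h2

end Pool.Agent.Lib.BR18
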