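import Pool.Agent.Lib.BR18.Blue

/-! Row CPT: compactness in the internal group. -/

namespace Pool.Agent.Lib.BR18

open MeasureTheory NumberField Matrix
open scoped MatrixGroups ComplexConjugate

namespace CPT

section
variable {A : Type} [NormedCommRing A]

lemma emb : Topology.IsClosedEmbedding
    (fun x : SL(2, A) => (x.1 : Matrix (Fin 2) (Fin 2) A)) := by
  have h : IsClosed {M : Matrix (Fin 2) (Fin 2) A | M.det = 1} :=
    isClosed_eq (Continuous.matrix_det continuous_id) continuous_const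
  exact h.isClosedEmbedding_subtypeVal

lemma lc [ProperSpace A] : LocallyCompactSpace SL(2, A) := by
  haveI : LocallyCompactSpace (Matrix (Fin 2) (Fin 2) A) :=
    inferInstanceAs (LocallyCompactSpace (Fin 2 → Fin 2 → A))
  exact emb.locallyCompactSpace

lemma cont_mat (u : Fin 2 → A) : Continuous fun M : Matrix (Fin 2) (Fin 2) A => ‖M *ᵥ u‖ :=
  (Continuous.matrix_mulVec continuous_id continuous_const).norm

lemma cont (u : Fin 2 → A) : Continuous fun x : SL(2, A) => ‖(x⁻¹).1 *ᵥ u‖ :=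
  (cont_mat u).comp (emb.continuous.comp continuous_inv)

lemma cpt_mat [ProperSpace A] (ρ : ℝ) (u v : Fin 2 → A) (e : A)
    (he : e * (u 0 * v 1 - u 1 * v 0) = 1) :
    IsCompact {M : Matrix (Fin 2) (Fin 2) A | ‖M *ᵥ u‖ ≤ ρ ∧ ‖M *ᵥ v‖ ≤ ρ} := by
  let F : (Fin 2 → A) × (Fin 2 → A) → Matrix (Fin 2) (Fin 2) A := fun z i j =>
    z.1 i * (![e * v 1, -(e * v 0)] j) + z.2 i * (![-(e * u 1), e * u 0] j)
  have hF : Continuous F := by
    refine continuous_pi fun i => continuous_pi fun j => ?_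
    exact (((continuous_apply i).comp continuous_fst).mul continuous_const).add
      (((continuous_apply i).comp continuous_snd).mul continuous_const)
  have hK : IsCompact (F '' (Metric.closedBall 0 ρ ×ˢ Metric.closedBall 0 ρ)) :=
    ((isCompact_closedBall _ _).prod (isCompact_closedBall _ _)).image hF
  refine hK.of_isClosed_subset ?_ ?_
  · exact (isClosed_le (cont_mat u) continuous_const).inter
      (isClosed_le (cont_mat v) continuous_const)
  · rintro M ⟨h1, h2⟩
    refine ⟨(M *ᵥ u, M *ᵥ v), ⟨by simpa using h1, by simpa using h2⟩, ?_⟩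
    ext i j
    have hu : (M *ᵥ u) i = M i 0 * u 0 + M i 1 * u 1 := by
      simp [Matrix.mulVec, dotProduct, Fin.sum_univ_two]
    have hv : (M *ᵥ v) i = M i 0 * v 0 + M i 1 * v 1 := by
      simp [Matrix.mulVec, dotProduct, Fin.sum_univ_two]
    have hj : j = 0 ∨ j = 1 := by revert j; decide
    rcases hj with rfl | rfl
    · show (M *ᵥ u) i * (e * v 1) + (M *ᵥ v) i * (-(e * u 1)) = M i 0
      rw [hu, hv]
      linear_combination (M i 0) * he
    · show (M *ᵥ u) i * (-(e * v 0)) + (M *ᵥ v) i * (e * u 0) = M i 1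
      rw [hu, hv]
      linear_combination (M i 1) * he

lemma cpt [ProperSpace A] (ρ : ℝ) (u v : Fin 2 → A) (e : A)
    (he : e * (u 0 * v 1 - u 1 * v 0) = 1) :
    IsCompact {x : SL(2, A) | ‖(x⁻¹).1 *ᵥ u‖ ≤ ρ ∧ ‖(x⁻¹).1 *ᵥ v‖ ≤ ρ} := by
  have h1 : IsCompact {x : SL(2, A) | ‖x.1 *ᵥ u‖ ≤ ρ ∧ ‖x.1 *ᵥ v‖ ≤ ρ} :=
    emb.isCompact_preimage (cpt_mat ρ u v e he)
  exact (Homeomorph.inv SL(2, A)).isCompact_preimage.2 h1

end

end CPT

open Classical in
theorem bCPT : St_CPT := by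
  intro K _ _ σ
  refine ⟨CPT.lc, fun a => CPT.cont _, fun ρ a b hab => ?_⟩
  have hd : ((dO a b : 𝓞 K) : K) ≠ 0 := by
    intro h
    exact hab (Subtype.ext h)
  refine CPT.cpt ρ (fun i => io σ (a i : K)) (fun i => io σ (b i : K))
    (io σ ((dO a b : 𝓞 K) : K)⁻¹) ?_
  have h2 : ((dO a b : 𝓞 K) : K) = (a 0 : K) * (b 1 : K) - (a 1 : K) * (b 0 : K) := by
    simp [dO]
  have h3 : io σ (a 0 : K) * io σ (b 1 : K) - io σ (a 1 : K) * io σ (b 0 : K) =
      io σ ((dO a b : 𝓞 K) : K) := by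
    rw [h2, map_sub (io σ), map_mul (io σ), map_mul (io σ)]
  rw [h3, ← map_mul (io σ), inv_mul_cancel₀ hd, map_one]

end Pool.Agent.Lib.BR18
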