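import Pool.Agent.Lib.BR18.Blue2

/-! Row CUSP: every vertex vector is fixed by a nontrivial element of the holonomy group. -/

namespace Pool.Agent.Lib.BR18

open Matrix
open scoped MatrixGroups ComplexConjugate

namespace CUSP

lemma mul_act (x y : SL(2, ℂ)) (u : V) : (x * y).1 *ᵥ u = x.1 *ᵥ (y.1 *ᵥ u) := by
  rw [Matrix.mulVec_mulVec]; rfl

lemma one_act (u : V) : (1 : SL(2, ℂ)).1 *ᵥ u = u := Matrix.one_mulVec u

lemma inv_act (x : SL(2, ℂ)) (u : V) : (x⁻¹).1 *ᵥ (x.1 *ᵥ u) = u := by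
  rw [← mul_act, inv_mul_cancel, one_act]

end CUSP

theorem bCUSP (hORN : St_ORN) (hWALK : St_WALK) (hSUM : St_SUM) (hAREA : St_AREA) : St_CUSP := by
  intro I _ v nb π g hG i0 j0
  obtain ⟨hkl, -, hne, -, hdt, -, -⟩ := hORN
  obtain ⟨hcat, -, hinv, -⟩ := hWALK I v nb π g hG
  obtain ⟨hP, hg, hpos⟩ := hG
  by_contra hno
  have H : ∀ u, Walk nb g i0 u i0 → u.1 *ᵥ v i0 j0 = v i0 j0 → u = 1 := by
    intro u h1 h2
    by_contra h3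
    exact hno ⟨u, h1, h3, h2⟩
  obtain ⟨p0, hp0⟩ := exists_ne j0
  have hm : dt (v i0 j0) (v i0 p0) ≠ 0 := hne (v i0) (hpos i0).ne' j0 p0 hp0.symm
  have huniq : ∀ i j γ δ, Walk nb g i0 γ i → γ.1 *ᵥ v i0 j0 = v i j →
      Walk nb g i0 δ i → δ.1 *ᵥ v i0 j0 = v i j → δ = γ := by
    intro i j γ δ a1 a2 b1 b2
    have h1 : δ⁻¹ * γ = 1 := by
      refine H _ (hcat _ _ _ _ _ a1 (hinv _ _ _ b1)) ?_
      rw [CUSP.mul_act, a2, ← b2, CUSP.inv_act]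
    exact inv_mul_eq_one.1 h1
  have hex : ∀ (i : I) (j : Fin 4), ∃ γ : SL(2, ℂ),
      (∃ δ, Walk nb g i0 δ i ∧ δ.1 *ᵥ v i0 j0 = v i j) →
        Walk nb g i0 γ i ∧ γ.1 *ᵥ v i0 j0 = v i j := by
    intro i j
    by_cases h : ∃ δ, Walk nb g i0 δ i ∧ δ.1 *ᵥ v i0 j0 = v i j
    · obtain ⟨δ, hδ⟩ := h
      exact ⟨δ, fun _ => hδ⟩
    · exact ⟨1, fun h' => absurd h' h⟩
  choose G hGG using hex
  have key := hSUM I nb π {a | ∃ δ, Walk nb g i0 δ a.1 ∧ δ.1 *ᵥ v i0 j0 = v a.1 a.2}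
    (fun i j p => dt (v i p) ((G i j).1 *ᵥ v i0 p0) / dt (v i j) (v i p)) hP ?_ ?_
  · have h0 : (i0, j0) ∈ {a : I × Fin 4 |
        ∃ δ, Walk nb g i0 δ a.1 ∧ δ.1 *ᵥ v i0 j0 = v a.1 a.2} :=
      ⟨1, Walk.nil i0, CUSP.one_act _⟩
    rw [key] at h0
    exact h0
  · intro i j l hij hl
    obtain ⟨a1, a2⟩ := hGG i j hij
    have hj : (g (i, l)).1 *ᵥ v i j = v (nb (i, l)).1 (π (i, l) j) := hg (i, l) j hl.symm
    have b1 : Walk nb g i0 (g (i, l) * G i j) (nb (i, l)).1 := Walk.step l a1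
    have b2 : (g (i, l) * G i j).1 *ᵥ v i0 j0 = v (nb (i, l)).1 (π (i, l) j) := by
      rw [CUSP.mul_act, a2, hj]
    refine ⟨⟨_, b1, b2⟩, fun p hpl _ => ?_⟩
    obtain ⟨c1, c2⟩ := hGG (nb (i, l)).1 (π (i, l) j) ⟨_, b1, b2⟩
    have hp : (g (i, l)).1 *ᵥ v i p = v (nb (i, l)).1 (π (i, l) p) := hg (i, l) p hpl
    show dt (v (nb (i, l)).1 (π (i, l) p)) ((G (nb (i, l)).1 (π (i, l) j)).1 *ᵥ v i0 p0) /
      dt (v (nb (i, l)).1 (π (i, l) j)) (v (nb (i, l)).1 (π (i, l) p)) =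
      dt (v i p) ((G i j).1 *ᵥ v i0 p0) / dt (v i j) (v i p)
    rw [huniq _ _ _ _ b1 b2 c1 c2, CUSP.mul_act, ← hp, ← hj, hdt, hdt]
  · intro i j hij
    obtain ⟨-, a2⟩ := hGG i j hij
    have h1 : 0 < orn (v i ∘ kl j) := by rw [hkl]; exact hpos i
    have h2 : dt ((v i ∘ kl j) 0) ((G i j).1 *ᵥ v i0 p0) ≠ 0 := by
      show dt (v i (kl j 0)) ((G i j).1 *ᵥ v i0 p0) ≠ 0
      rw [kl_zero, ← a2, hdt]
      exact hm
    have h3 := hAREA _ _ h1 h2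
    simp only [Function.comp_apply, kl_zero] at h3
    exact h3

end Pool.Agent.Lib.BR18
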