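import Pool.Agent.Lib.BR18.Blue

/-! From balanced weights to a finite face pairing. -/

namespace Pool.Agent.Lib.BR18

namespace CYC

open MulAction

variable {Γ L : Type} [Group Γ] [MulAction Γ L]

/-- the class of a tuple -/
def cl (Γ : Type) {L : Type} [Group Γ] [MulAction Γ L] {n : ℕ} (t : Fin n → L) :
    orbitRel.Quotient Γ (Fin n → L) := Quotient.mk _ t

lemma cl_eq {n : ℕ} {t s : Fin n → L} : cl Γ t = cl Γ s ↔ ∃ γ : Γ, γ • s = t :=
  Quotient.eq.trans Iff.rfl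

lemma cl_out {n : ℕ} (o : orbitRel.Quotient Γ (Fin n → L)) : cl Γ o.out = o := o.out_eq

lemma out_cl {n : ℕ} (t : Fin n → L) : ∃ γ : Γ, γ • t = (cl Γ t).out := cl_eq.1 (cl_out _)

lemma cl_smul {n : ℕ} (γ : Γ) (t : Fin n → L) : cl Γ (γ • t) = cl Γ t := cl_eq.2 ⟨γ, rfl⟩

/-- reflection of a class of faces -/
noncomputable def io3 (φ : orbitRel.Quotient Γ (Fin 3 → L)) : orbitRel.Quotient Γ (Fin 3 → L) :=
  cl Γ (φ.out ∘ sw)

lemma io3_cl (f : Fin 3 → L) : io3 (cl Γ f) = cl Γ (f ∘ sw) := by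
  obtain ⟨γ, h⟩ := out_cl (Γ := Γ) f
  rw [io3, ← h]
  exact cl_smul γ (f ∘ sw)

lemma io3_io3 (φ : orbitRel.Quotient Γ (Fin 3 → L)) : io3 (io3 φ) = φ := by
  rw [← cl_out φ, io3_cl, io3_cl]
  congr 1
  funext i
  simp only [Function.comp_apply, sw_sw]

lemma kk (t : Fin 4 → L) (j : Fin 4) : (t ∘ kl j) ∘ kl j = t := by
  funext i
  simp only [Function.comp_apply, kl_kl]

/-- the positive classes -/
abbrev Q (Γ : Type) {L : Type} [Group Γ] [MulAction Γ L] (w : (Fin 4 → L) → ℝ) : Type :=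
  {o : orbitRel.Quotient Γ (Fin 4 → L) // 0 < w o.out}

/-- the class of a face -/
noncomputable def fc {w : (Fin 4 → L) → ℝ} (o : Q Γ w) (j : Fin 4) :
    orbitRel.Quotient Γ (Fin 3 → L) := cl Γ (tl (o.1.out ∘ kl j))

open Classical in
lemma key {w : (Fin 4 → L) → ℝ} [Fintype (Q Γ w)] (h0 : ∀ t, 0 ≤ w t)
    (hγ : ∀ (γ : Γ) t, w (γ • t) = w t) (hk : ∀ t j, w (t ∘ kl j) = w t)
    (hf : ∀ (γ : Γ) t, 0 < w t → γ • tl t = tl t → γ = 1) (f : Fin 3 → L)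
    (fin : {m | 0 < w (cn m f)}.Finite) (j : Fin 4) :
    ∑ᶠ m, w (cn m f) = ∑ o : Q Γ w, if fc o j = cl Γ f then w o.1.out else 0 := by
  have wo : ∀ t, w (cl Γ t).out = w t := fun t => by
    obtain ⟨γ, h⟩ := out_cl (Γ := Γ) t
    rw [← h, hγ]
  rw [finsum_eq_sum_of_support_subset (s := fin.toFinset) _ (fun m hm => by
    simpa using lt_of_le_of_ne (h0 _) (Ne.symm hm)), ← Finset.sum_filter]
  refine Finset.sum_bij (fun m hm => ⟨cl Γ (cn m f ∘ kl j), by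
    rw [wo, hk]; simpa using hm⟩) ?_ ?_ ?_ ?_
  · intro m hm
    obtain ⟨γ, h⟩ := out_cl (Γ := Γ) (cn m f ∘ kl j)
    refine Finset.mem_filter.2 ⟨Finset.mem_univ _, ?_⟩
    change cl Γ (tl ((cl Γ (cn m f ∘ kl j)).out ∘ kl j)) = _
    rw [← h, cl_eq]
    refine ⟨γ, ?_⟩
    change _ = γ • tl ((cn m f ∘ kl j) ∘ kl j)
    rw [kk, tl_cn]
  · intro m hm m' hm' h
    obtain ⟨γ, h⟩ := cl_eq.1 (congrArg Subtype.val h)
    have h1 : γ • cn m' f = cn m f := by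
      have : γ • ((cn m' f ∘ kl j) ∘ kl j) = (cn m f ∘ kl j) ∘ kl j := congrArg (· ∘ kl j) h
      rwa [kk, kk] at this
    have h2 : γ = 1 := hf γ (cn m' f) (by simpa using hm') (congrArg tl h1)
    rw [h2, one_smul] at h1
    exact (congrFun h1 0).symm
  · intro o ho
    obtain ⟨γ, h⟩ := cl_eq.1 (Finset.mem_filter.1 ho).2.symm
    have h1 : cn ((γ • (o.1.out ∘ kl j)) 0) f = γ • (o.1.out ∘ kl j) := by
      rw [← h]; exact cn_tl _
    refine ⟨(γ • (o.1.out ∘ kl j)) 0, ?_, Subtype.ext ?_⟩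
    · simp only [Set.Finite.mem_toFinset, Set.mem_ofPred_eq]
      rw [h1, hγ, hk]; exact o.2
    · change cl Γ (cn _ f ∘ kl j) = o.1
      rw [h1]
      change cl Γ (γ • ((o.1.out ∘ kl j) ∘ kl j)) = _
      rw [kk, cl_smul, cl_out]
  · intro m hm
    simp only
    rw [wo, hk]

end CYC

open CYC MulAction in
theorem bCYC (hR : St_RAT) (hI : St_INV) : St_CYC := by
  classical
  intro Γ L _ _ w h0 hγ hk hf ⟨S, hS, hS'⟩ hb t0 ht0
  have wo : ∀ t, w (cl Γ t).out = w t := fun t => by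
    obtain ⟨γ, h⟩ := out_cl (Γ := Γ) t
    rw [← h, hγ]
  have hQ : Finite (Q Γ w) := by
    refine ((hS.image (cl Γ)).subset (t := {o | 0 < w o.out}) fun o ho => ?_).to_subtype
    obtain ⟨s, hs, γ, h⟩ := hS' _ ho
    exact ⟨s, hs, by rw [← cl_out o, h, cl_smul]⟩
  let := Fintype.ofFinite (Q Γ w)
  let cnt : orbitRel.Quotient Γ (Fin 3 → L) → Q Γ w → ℕ :=
    fun φ o => ∑ j, if fc o j = φ then 1 else 0
  have hc : ∀ f, ∑ o, (cnt (cl Γ f) o : ℝ) * w o.1.out = ∑ _j : Fin 4, ∑ᶠ m, w (cn m f) := by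
    intro f
    rw [Finset.sum_congr rfl fun j _ => key h0 hγ hk hf f (hb f).1 j, Finset.sum_comm]
    refine Finset.sum_congr rfl fun o _ => ?_
    simp only [cnt, Nat.cast_sum, Finset.sum_mul, Nat.cast_ite, Nat.cast_one, Nat.cast_zero,
      ite_mul, one_mul, zero_mul]
  obtain ⟨n, n0, hn⟩ := hR (Q Γ w) _ (fun φ o => (cnt φ o : ℤ) - cnt (io3 φ) o)
    (fun o => w o.1.out) (fun o => o.2) (fun φ => by
      rw [← cl_out φ, io3_cl]
      simp only [Int.cast_sub, Int.cast_natCast, sub_mul, Finset.sum_sub_distrib]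
      rw [hc, hc, (hb _).2, sub_self])
  have card : ∀ φ, Nat.card {a : (Σ o : Q Γ w, Fin (n o)) × Fin 4 // fc a.1.1 a.2 = φ} =
      ∑ o, cnt φ o * n o := by
    intro φ
    rw [Nat.card_eq_fintype_card, Fintype.card_subtype, Finset.card_filter, Fintype.sum_prod_type,
      Fintype.sum_sigma]
    refine Finset.sum_congr rfl fun o _ => ?_
    change ∑ _x : Fin (n o), cnt φ o = _
    rw [Finset.sum_const, Finset.card_univ, Fintype.card_fin, smul_eq_mul, mul_comm]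
  obtain ⟨nb, hnb⟩ := hI ((Σ o : Q Γ w, Fin (n o)) × Fin 4) _ (fun a => fc a.1.1 a.2) io3 io3_io3
    (fun φ => by
      rw [card, card]
      have := hn φ
      simp only [sub_mul, Finset.sum_sub_distrib, sub_eq_zero] at this
      exact_mod_cast this)
  have hg : ∀ a : (Σ o : Q Γ w, Fin (n o)) × Fin 4, ∃ g : Γ,
      g • (tl (a.1.1.1.out ∘ kl a.2) ∘ sw) = tl ((nb a).1.1.1.out ∘ kl (nb a).2) := fun a =>
    cl_eq.1 ((hnb a).2.trans (io3_cl _))
  choose g hg using hg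
  obtain ⟨γ, h⟩ := out_cl (Γ := Γ) t0
  exact ⟨Σ o : Q Γ w, Fin (n o), inferInstance, fun i => i.1.1.out, nb, g, fun i => i.1.2,
    fun a => (hnb a).1, hg, ⟨⟨cl Γ t0, by rw [wo]; exact ht0⟩, ⟨0, n0 _⟩⟩, γ, h.symm⟩

end Pool.Agent.Lib.BR18
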