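import Pool.Agent.Lib.BR18.Blue

/-! Row ETA: choice of the window, the level and the heights. -/

namespace Pool.Agent.Lib.BR18

open MeasureTheory NumberField Matrix
open scoped MatrixGroups ComplexConjugate

namespace ETA

lemma nsq_nonneg (u : V) : 0 ≤ nsq u :=
  add_nonneg (Complex.normSq_nonneg _) (Complex.normSq_nonneg _)

lemma nsq_pos (u : V) (hu : u ≠ 0) : 0 < nsq u := by
  rcases (nsq_nonneg u).lt_or_eq with h | h
  · exact h
  · exfalso
    apply hu
    have h0 := Complex.normSq_nonneg (u 0)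
    have h1 := Complex.normSq_nonneg (u 1)
    unfold nsq at h
    have a0 : u 0 = 0 := Complex.normSq_eq_zero.mp (by linarith)
    have a1 : u 1 = 0 := Complex.normSq_eq_zero.mp (by linarith)
    funext i
    fin_cases i
    · exact a0
    · exact a1

lemma norm_le (u : V) (b : ℝ) (h : nsq u ≤ b) : ‖u‖ ≤ b + 1 := by
  have hb : 0 ≤ b := (nsq_nonneg u).trans h
  have h0 := Complex.normSq_nonneg (u 0)
  have h1 := Complex.normSq_nonneg (u 1)
  unfold nsq at h
  refine (pi_norm_le_iff_of_nonneg (by linarith)).mpr (fun i => ?_)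
  have hi : Complex.normSq (u i) ≤ b := by
    fin_cases i
    · show Complex.normSq (u 0) ≤ b
      linarith
    · show Complex.normSq (u 1) ≤ b
      linarith
  rw [Complex.normSq_eq_norm_sq] at hi
  nlinarith [norm_nonneg (u i), sq_nonneg (‖u i‖ - 1)]

variable {K : Type} [Field K] [NumberField K]

lemma pe_ne (σ : K →+* ℂ) (a : Lat K) (ha : a ≠ 0) : pe σ a ≠ 0 := by
  intro h
  apply ha
  funext i
  have h1 : σ (a i : K) = 0 := congrFun h i
  have h2 : (a i : K) = 0 := (map_eq_zero σ).mp h1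
  exact RingOfIntegers.coe_eq_zero_iff.mp h2

lemma dO_ne (σ : K →+* ℂ) (a b : Lat K) (h : dt (pe σ a) (pe σ b) ≠ 0) : dO a b ≠ 0 := by
  intro h0
  apply h
  rw [dt_pe, h0]
  simp

lemma eq_of_dO (a b c d : Lat K) (h : dO c d ≠ 0) (h1 : dO a c - dO b c = 0)
    (h2 : dO a d - dO b d = 0) : a = b := by
  unfold dO at h h1 h2
  have e0 : (a 0 - b 0) * (c 0 * d 1 - c 1 * d 0) = 0 := by
    linear_combination c 0 * h2 - d 0 * h1
  have e1 : (a 1 - b 1) * (c 0 * d 1 - c 1 * d 0) = 0 := by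
    linear_combination c 1 * h2 - d 1 * h1
  have a0 := sub_eq_zero.mp ((mul_eq_zero.mp e0).resolve_right h)
  have a1 := sub_eq_zero.mp ((mul_eq_zero.mp e1).resolve_right h)
  funext i
  fin_cases i
  · exact a0
  · exact a1

lemma dvd_dO (n : 𝓞 K) (a b c : Lat K) (h : ∀ i, n ∣ a i - b i) : n ∣ dO a c - dO b c := by
  have e : dO a c - dO b c = (a 0 - b 0) * c 1 - (a 1 - b 1) * c 0 := by
    unfold dO; ring
  rw [e]
  exact dvd_sub ((h 0).mul_right _) ((h 1).mul_right _)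

lemma small {L : Type} (B : Set L) (hB : B.Finite) (f : L → ℝ) (hf : ∀ a ∈ B, 0 < f a) :
    ∃ e : ℝ, 0 < e ∧ ∀ a ∈ B, 4 * e ≤ f a := by
  induction B, hB using Set.Finite.induction_on with
  | empty => exact ⟨1, one_pos, fun a ha => ha.elim⟩
  | @insert a s _ _ ih =>
    obtain ⟨e, he, h⟩ := ih (fun b hb => hf b (Set.mem_insert_of_mem _ hb))
    have ha := hf a (Set.mem_insert _ _)
    refine ⟨min e (f a / 4), by positivity, fun b hb => ?_⟩
    have h1 := min_le_left e (f a / 4)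
    have h2 := min_le_right e (f a / 4)
    rcases hb with rfl | hb
    · linarith
    · have := h b hb
      linarith

end ETA

theorem bETA (hORN : St_ORN) (hPOS : St_POS) (hPERT : St_PERT) (hGEN : St_GEN5)
    (hORB : St_ORB) : St_ETA := by
  classical
  intro K _ _ σ S t0 ht0
  obtain ⟨ρ, hρ, U, hU, hUt, hUB⟩ := S.pos t0
  obtain ⟨C, hC, hMk⟩ := S.mk' ρ hρ
  obtain ⟨δ, hδ, hP⟩ := hPERT _ ht0
  have hdt := hORN.2.2.1
  have hinj : ∀ t : Fin 4 → Lat K, orn (pe σ ∘ t) ≠ 0 → Function.Injective t := by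
    intro t ht i j hij
    by_contra hne
    have h1 := ETA.dO_ne σ _ _ (hdt _ ht i j hne)
    apply h1
    rw [hij]
    unfold dO
    ring
  have ht0ne : ∀ j, t0 j ≠ 0 := by
    intro j hj
    obtain ⟨i, hi⟩ := exists_ne j
    have h1 := ETA.dO_ne σ _ _ (hdt _ ht0 i j hi)
    apply h1
    rw [hj]
    simp [dO]
  obtain ⟨q, hq⟩ : ∃ q : Fin 4 → ℝ, ∀ j, q j = nsq (pe σ (t0 j)) := ⟨_, fun _ => rfl⟩
  have hq0 : ∀ j, 0 < q j := fun j => by
    rw [hq]; exact ETA.nsq_pos _ (ETA.pe_ne σ _ (ht0ne j))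
  obtain ⟨η1, hη1⟩ : ∃ η1 : ℝ, ∀ j, q j + 1 ≤ η1 :=
    ⟨∑ j, q j + 1, fun j => by
      have := Finset.single_le_sum (f := q) (fun i _ => (hq0 i).le) (Finset.mem_univ j)
      linarith⟩
  obtain ⟨B, hBdef⟩ : ∃ B : Set (Lat K),
      B = {a | ‖pe σ a‖ ≤ 2 * η1 + 1 ∧ ∃ x ∈ U, S.n x a ≤ ρ} := ⟨_, rfl⟩
  have hB : B.Finite := by rw [hBdef]; exact hUB _
  obtain ⟨x0, hx0⟩ : U.Nonempty := by
    by_contra h
    rw [Set.not_nonempty_iff_eq_empty] at h
    apply hU
    rw [h]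
    exact measure_empty
  have ht0B : ∀ j, t0 j ∈ B := by
    intro j
    rw [hBdef]
    refine ⟨ETA.norm_le _ _ ?_, x0, hx0, hUt x0 hx0 j⟩
    have := hη1 j
    have := hq0 j
    rw [← hq]
    linarith
  obtain ⟨η0, hη0, hsm⟩ := ETA.small (B \ {0}) (hB.subset Set.sdiff_subset)
    (fun a => nsq (pe σ a)) (fun a ha => ETA.nsq_pos _ (ETA.pe_ne σ a ha.2))
  have hη0q : ∀ j, 4 * η0 ≤ q j := fun j => by
    rw [hq]; exact hsm _ ⟨ht0B j, ht0ne j⟩
  obtain ⟨F, hFdef⟩ : ∃ F : Set (𝓞 K), F = {d : 𝓞 K |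
      ‖σ (d : K)‖ ≤ max ρ (4 * C ^ 2 * η1 / η0) ∧ ∃ x a b, S.n x a ≤ max ρ (4 * C ^ 2 * η1 / η0) ∧
        S.n x b ≤ max ρ (4 * C ^ 2 * η1 / η0) ∧ d = dO a b} := ⟨_, rfl⟩
  have hF : F.Finite := by rw [hFdef]; exact S.lab _
  have hF' : (Set.image2 (fun a b : 𝓞 K => a - b) F F ∪
      ⋃ i : Fin 2, Set.image2 (fun a b : Lat K => a i - b i) B B).Finite :=
    (hF.image2 _ hF).union (Set.finite_iUnion fun i => hB.image2 _ hB)
  obtain ⟨N, hN, hNsep⟩ := (hORB K _ hF').1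
  have hN0 : Ideal.span {(N : 𝓞 K)} ≠ ⊥ := by
    rw [Ne, Ideal.span_singleton_eq_bot]
    exact_mod_cast hN.ne'
  haveI : Finite (𝓞 K ⧸ Ideal.span {(N : 𝓞 K)}) := Ideal.finiteQuotientOfFreeOfNeBot _ hN0
  haveI : Countable (𝓞 K) := Countable.of_equiv _ (RingOfIntegers.basis K).equivFun.toEquiv.symm
  obtain ⟨res, hres⟩ : ∃ res : Lat K → (Fin 2 → 𝓞 K ⧸ Ideal.span {(N : 𝓞 K)}),
      ∀ a b, res a = res b ↔ ∀ i, (N : 𝓞 K) ∣ a i - b i := by
    refine ⟨fun a i => Ideal.Quotient.mk _ (a i), fun a b => ?_⟩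
    rw [funext_iff]
    refine forall_congr' fun i => ?_
    rw [Ideal.Quotient.eq, Ideal.mem_span_singleton]
  have hsepB : ∀ a ∈ B, ∀ b ∈ B, res a = res b → a = b := by
    intro a ha b hb h
    funext i
    refine sub_eq_zero.mp (hNsep _ (Or.inr (Set.mem_iUnion.mpr ⟨i, ?_⟩)) ((hres a b).mp h i))
    exact Set.mem_image2_of_mem ha hb
  obtain ⟨lo, hi, hlh, hl1, hl2⟩ : ∃ lo hi : (Fin 2 → 𝓞 K ⧸ Ideal.span {(N : 𝓞 K)}) → ℝ,
      (∀ r, lo r < hi r) ∧ (∀ j, lo (res (t0 j)) = q j ∧ hi (res (t0 j)) = q j + min δ 1) ∧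
      ∀ r, (¬ ∃ j, r = res (t0 j)) → lo r = η0 ∧ hi r = 2 * η0 := by
    refine ⟨fun r => if h : ∃ j, r = res (t0 j) then q h.choose else η0,
      fun r => if h : ∃ j, r = res (t0 j) then q h.choose + min δ 1 else 2 * η0, ?_, ?_, ?_⟩
    · intro r
      have : 0 < min δ 1 := by positivity
      by_cases h : ∃ j, r = res (t0 j)
      · simp only [dif_pos h]; linarith
      · simp only [dif_neg h]; linarith
    · intro j
      have h : ∃ i, res (t0 j) = res (t0 i) := ⟨j, rfl⟩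
      have e : h.choose = j :=
        (hinj t0 ht0 (hsepB _ (ht0B j) _ (ht0B _) h.choose_spec)).symm
      simp only [dif_pos h, e, and_self]
    · intro r h
      simp only [dif_neg h, and_self]
  obtain ⟨h, hbox, hgen⟩ := hGEN (Lat K) _ (pe σ) res lo hi hlh
  have hm1 := min_le_left δ 1
  have hm2 := min_le_right δ 1
  have hη : ∀ a, η0 ≤ h (res a) ∧ h (res a) ≤ η1 := by
    intro a
    obtain ⟨b1, b2⟩ := hbox (res a)
    by_cases hj : ∃ j, res a = res (t0 j)
    · obtain ⟨j, hj⟩ := hj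
      rw [hj] at b1 b2 ⊢
      rw [(hl1 j).1] at b1
      rw [(hl1 j).2] at b2
      have := hη0q j
      have := hη1 j
      constructor <;> linarith
    · rw [(hl2 _ hj).1] at b1
      rw [(hl2 _ hj).2] at b2
      have := hη0q 0
      have := hη1 0
      constructor <;> linarith
  have hMk' : ∀ x, Mk (pe σ) (S.win ρ x) C := by
    intro x y
    obtain ⟨a, a1, a2, a3⟩ := hMk x y
    exact ⟨a, ⟨a1, a2⟩, a3⟩
  refine ⟨ρ, C, η0, η1, N, fun a => h (res a), hC, hη0, hN, hη, ?_, hMk', ?_, ?_⟩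
  · intro a b hab
    show h (res a) = h (res b)
    rw [(hres a b).mpr hab]
  · intro x l t m hl htW htt hto hmW hmt
    by_contra hne
    push Not at hne
    have hlab := (hPOS (Lat K) (pe σ) (fun a => h (res a)) (S.win ρ x) C η0 η1 hC hη0 hη
      (hMk' x) l hl).2
    have hinF : ∀ a b, a ∈ S.win ρ x → b ∈ S.win ρ x → ev l (pe σ a) = h (res a) →
        ev l (pe σ b) = h (res b) → dO a b ∈ F := by
      intro a b ha hb ta tb
      rw [hFdef]
      refine ⟨?_, x, a, b, ha.2.trans (le_max_left _ _), hb.2.trans (le_max_left _ _), rfl⟩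
      rw [← dt_pe]
      exact (hlab a b ta tb).trans (le_max_right _ _)
    have h01 : dO (t 0) (t 1) ≠ 0 := ETA.dO_ne σ _ _ (hdt _ hto 0 1 (by decide))
    have hsep : ∀ a b, a ∈ S.win ρ x → b ∈ S.win ρ x → ev l (pe σ a) = h (res a) →
        ev l (pe σ b) = h (res b) → res a = res b → a = b := by
      intro a b ha hb ta tb hab
      have key : ∀ j, dO a (t j) - dO b (t j) = 0 := fun j =>
        hNsep _ (Or.inl (Set.mem_image2_of_mem (hinF _ _ ha (htW j) ta (htt j))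
          (hinF _ _ hb (htW j) tb (htt j)))) (ETA.dvd_dO _ _ _ _ ((hres a b).mp hab))
      exact ETA.eq_of_dO a b _ _ h01 (key 0) (key 1)
    have hsW : ∀ i : Fin 5, (Fin.cons m t : Fin 5 → Lat K) i ∈ S.win ρ x :=
      fun i => Fin.cases hmW htW i
    have hsT : ∀ i : Fin 5, ev l (pe σ ((Fin.cons m t : Fin 5 → Lat K) i))
        = h (res ((Fin.cons m t : Fin 5 → Lat K) i)) := fun i => Fin.cases hmt htt i
    have hsI : Function.Injective (Fin.cons m t : Fin 5 → Lat K) := by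
      rw [Fin.cons_injective_iff]
      refine ⟨?_, hinj t hto⟩
      rintro ⟨j, hj⟩
      exact hne j hj.symm
    refine hgen (Fin.cons m t) ?_ l hsT
    intro i j hij
    exact hsI (hsep _ _ (hsW i) (hsW j) (hsT i) (hsT j) hij)
  · obtain ⟨l, l1, l2⟩ := hP (fun j => h (res (t0 j))) (by
      intro j
      obtain ⟨b1, b2⟩ := hbox (res (t0 j))
      rw [(hl1 j).1] at b1
      rw [(hl1 j).2] at b2
      show |h (res (t0 j)) - nsq (pe σ (t0 j))| ≤ δ
      rw [← hq, abs_le]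
      constructor <;> linarith)
    intro h0
    apply hU
    refine measure_mono_null (fun x hx => ?_) h0
    refine ⟨fun j => ⟨ht0ne j, hUt x hx j⟩, l, fun a ha => ?_, l1⟩
    show h (res a) ≤ ev l (pe σ a)
    have c1 := l2 (pe σ a)
    by_cases hbig : 2 * η1 ≤ nsq (pe σ a)
    · have := (hη a).2
      linarith
    · have haB : a ∈ B := by
        rw [hBdef]
        exact ⟨ETA.norm_le _ _ (by linarith), x, hx, ha.2⟩
      by_cases hj : ∃ j, res a = res (t0 j)
      · obtain ⟨j, hj⟩ := hj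
        rw [hsepB _ haB _ (ht0B j) hj]
        exact (l1 j).ge
      · have b2 := (hbox (res a)).2
        rw [(hl2 _ hj).2] at b2
        have c2 : 4 * η0 ≤ nsq (pe σ a) := hsm a ⟨haB, ha.1⟩
        linarith

end Pool.Agent.Lib.BR18
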