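import Pool.Agent.Lib.BR18.Blue

/-! Row FIN: from the pairing over the ring of integers to the final statement. -/

namespace Pool.Agent.Lib.BR18

open NumberField Matrix
open scoped MatrixGroups

namespace FIN

/-- the gluing permutation -/
def gp (j j' : Fin 4) : Equiv.Perm (Fin 4) := kl j' * Equiv.swap 2 3 * kl j

lemma gp_inv (j j' : Fin 4) : gp j' j = (gp j j')⁻¹ := by
  rw [eq_inv_iff_mul_eq_one]
  revert j j'; decide

lemma gp_self (j j' : Fin 4) : gp j j' j = j' := by revert j j'; decide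

lemma gp_sign (j j' : Fin 4) : Equiv.Perm.sign (gp j j') = -1 := by revert j j'; decide

lemma gp_face (j j' i : Fin 4) (h : i ≠ j) :
    ∃ m : Fin 3, i = kl j (sw m).succ ∧ gp j j' i = kl j' m.succ := by
  revert j j' i; decide

lemma kl_ne (j : Fin 4) : kl j 2 ≠ kl j 3 := by revert j; decide

lemma dt_swap (u v : V) : dt u v = -dt v u := by simp only [dt]; ring

/-- restriction of an involution on faces to a connected component -/
lemma component {I : Type} (nb : I × Fin 4 → I × Fin 4) (hnb : ∀ a, nb (nb a) = a) (i0 : I) :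
    ∃ (J : Type) (e : J → I) (nb' : J × Fin 4 → J × Fin 4), Function.Injective e ∧
      (∃ x, e x = i0) ∧ (∀ a, (e (nb' a).1, (nb' a).2) = nb (e a.1, a.2)) ∧
      ∀ i i', Relation.ReflTransGen (fun x y => ∃ j, (nb' (x, j)).1 = y) i i' := by
  let r : I → I → Prop := fun x y => ∃ j, (nb (x, j)).1 = y
  let J : Type := {i // Relation.ReflTransGen r i0 i}
  let nb' : J × Fin 4 → J × Fin 4 := fun a =>
    (⟨(nb (a.1.1, a.2)).1, a.1.2.tail ⟨a.2, rfl⟩⟩, (nb (a.1.1, a.2)).2)
  let r' : J → J → Prop := fun x y => ∃ j, (nb' (x, j)).1 = y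
  have hsym : ∀ x y, r' x y → r' y x := by
    rintro x y ⟨j, rfl⟩
    refine ⟨(nb (x.1, j)).2, Subtype.ext ?_⟩
    change (nb ((nb (x.1, j)).1, (nb (x.1, j)).2)).1 = x.1
    rw [Prod.mk.eta, hnb]
  have h0 : ∀ (i : I) (h : Relation.ReflTransGen r i0 i),
      Relation.ReflTransGen r' ⟨i0, Relation.ReflTransGen.refl⟩ ⟨i, h⟩ := by
    intro i h
    induction h with
    | refl => exact Relation.ReflTransGen.refl
    | tail hb hbc ih =>
      obtain ⟨j, hj⟩ := hbc
      exact ih.tail ⟨j, Subtype.ext hj⟩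
  have hrev : ∀ x y, Relation.ReflTransGen r' x y → Relation.ReflTransGen r' y x := by
    intro x y h
    induction h with
    | refl => exact Relation.ReflTransGen.refl
    | tail _ hbc ih => exact Relation.ReflTransGen.head (hsym _ _ hbc) ih
  refine ⟨J, Subtype.val, nb', Subtype.val_injective, ⟨⟨i0, Relation.ReflTransGen.refl⟩, rfl⟩,
    fun a => rfl, fun i i' => ?_⟩
  exact (hrev _ _ (h0 i.1 i.2)).trans (h0 i'.1 i'.2)

end FIN

open FIN in
theorem bFIN (hORN : St_ORN) (hTOP : St_TOP) : St_FIN := by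
  intro k hk z hz hzi
  obtain ⟨-, -, hne, hsh, hdt, -, -⟩ := hORN
  haveI : NumberField k := NumberField.of_module_finite ℚ k
  let σ : k →+* ℂ := algebraMap k ℂ
  have hσ : ∀ x : k, σ x = (x : ℂ) := fun _ => rfl
  have hnr : ¬ ComplexEmbedding.IsReal σ := by
    intro h
    rw [ComplexEmbedding.isReal_iff] at h
    have h1 : (ComplexEmbedding.conjugate σ) ⟨z, hz⟩ = σ ⟨z, hz⟩ := by rw [h]
    rw [ComplexEmbedding.conjugate_coe_eq, hσ] at h1
    have h2 : z.im = 0 := Complex.conj_eq_iff_im.mp h1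
    linarith
  obtain ⟨a, b, hb, hab⟩ := IsFractionRing.div_surjective (𝓞 k) (⟨z, hz⟩ : k)
  let t0 : Fin 4 → Lat k := ![![1, 0], ![0, 1], ![a, b], ![1, 1]]
  have hz0 : shape (pe σ ∘ t0) = z := by
    have h1 : z = σ (a : k) / σ (b : k) := by
      rw [← map_div₀]
      have : ((a : k) / (b : k)) = ⟨z, hz⟩ := hab
      rw [this]; rfl
    rw [h1]
    simp [shape, dt, pe, t0]
  have ht0 : 0 < orn (pe σ ∘ t0) := by rw [hsh, hz0]; exact hzi
  obtain ⟨I, hI, v, nb, g, hv, hnb, hg, i0, hi0⟩ := hTOP k σ hnr t0 ht0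
  obtain ⟨J, e, nb', he, ⟨x0, hx0⟩, hc, hconn⟩ := component nb hnb i0
  haveI : Finite J := Finite.of_injective e he
  have hc1 : ∀ a, e (nb' a).1 = (nb (e a.1, a.2)).1 := fun a => congrArg Prod.fst (hc a)
  have hc2 : ∀ a, (nb' a).2 = (nb (e a.1, a.2)).2 := fun a => congrArg Prod.snd (hc a)
  have hinv : ∀ a, nb' (nb' a) = a := by
    intro a
    have h := hc (nb' a)
    rw [hc a, hnb] at h
    obtain ⟨h1, h2⟩ := Prod.mk.inj h
    exact Prod.ext (he h1) h2
  refine ⟨J, Fintype.ofFinite J, fun i => pe σ ∘ v (e i), nb', fun a => gp a.2 (nb' a).2,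
    fun a => g (e a.1, a.2), fun a => ⟨hinv a, ?_, ?_, gp_self _ _, gp_sign _ _⟩, hconn, ?_, ?_,
    fun i => (hsh _).mp (hv _), x0, ?_⟩
  · intro h
    have h' : nb (e a.1, a.2) = (e a.1, a.2) := by rw [← hc a, h]
    have g1 := hg (e a.1, a.2) 1
    have g2 := hg (e a.1, a.2) 2
    rw [h'] at g1 g2
    have s1 : (sw 1).succ = 3 := by decide
    have s2 : (sw 2).succ = 2 := by decide
    have s3 : (1 : Fin 3).succ = 2 := by decide
    have s4 : (2 : Fin 3).succ = 3 := by decide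
    rw [s1, s3] at g1
    rw [s2, s4] at g2
    have h3 := hdt (g (e a.1, a.2)) (pe σ (v (e a.1) (kl a.2 3))) (pe σ (v (e a.1) (kl a.2 2)))
    dsimp only at g1 g2
    rw [g1, g2, dt_swap (pe σ (v (e a.1) (kl a.2 3)))] at h3
    have h4 := hne (pe σ ∘ v (e a.1)) (hv _).ne' _ _ (kl_ne a.2)
    apply h4
    simp only [Function.comp_apply]
    linear_combination h3 / 2
  · dsimp only
    rw [hinv a]
    exact gp_inv _ _
  · intro a j hj
    obtain ⟨m, hm1, hm2⟩ := gp_face a.2 (nb' a).2 j hj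
    have h := hg (e a.1, a.2) m
    dsimp only at h ⊢
    rw [Function.comp_apply, Function.comp_apply, hm2, hc1, hc2, ← h, ← hm1]
  · intro i j l
    exact ((v (e i) j l : 𝓞 k) : k).2
  · dsimp only
    rw [hx0, hi0, hz0]

end Pool.Agent.Lib.BR18
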