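import Pool.Agent.Lib.BR18.Blue2

/-! The final row of the second part. -/

namespace Pool.Agent.Lib.BR18

open Matrix
open scoped MatrixGroups

theorem bFIN2 (hORN : St_ORN) (hFIN : St_FIN) (hWALK : St_WALK) (hITF : St_ITF) (hCUSP : St_CUSP)
    (hTRC : St_TRC) (hPRIM : St_PRIM) : St_FIN2 := by
  intro k hk hnr
  refine ⟨hPRIM k hk hnr, fun z hz hzk => ?_⟩
  have hmem : z ∈ k := hzk ▸ IntermediateField.subset_adjoin ℚ {z} rfl
  obtain ⟨I, hI, v, nb, π, g, hP, hC, hG, hV, hS, i0, hi0⟩ := hFIN k hk z hmem hz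
  have hGl : Glue v nb π g := ⟨hP, hG, fun i => (hORN.2.2.2.1 (v i)).2 (hS i)⟩
  have hW := (hWALK I v nb π g hGl).2.2.2
  have hcu := hCUSP I v nb π g hGl
  obtain ⟨hinv, hle⟩ := hITF I v nb π g hGl
  refine ⟨I, hI, v, nb, π, g, hP, fun i i' => hW i i' (hC i i'), hG, hV, hS, ⟨i0, hi0⟩, hcu, ?_⟩
  intro i
  refine le_antisymm (hle k hV i) ?_
  obtain ⟨γ, hγ⟩ := hW i i0 (hC i i0)
  rw [hinv i i0 γ hγ, ← hzk, IntermediateField.adjoin_le_iff, Set.singleton_subset_iff, ← hi0]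
  choose u hu using hcu i0
  refine hTRC (v i0) u (Subgroup.closure {x | ∃ δ, Walk nb g i0 δ i0 ∧ x = δ ^ 2}) (itf nb g i0)
    (hGl.2.2 i0).ne' (fun j => ⟨(hu j).2.1, (hu j).2.2, Subgroup.subset_closure ⟨u j, (hu j).1, rfl⟩⟩)
    fun δ hδ => IntermediateField.subset_adjoin ℚ _ ⟨δ, hδ, rfl⟩

end Pool.Agent.Lib.BR18
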