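import Pool.Agent.Lib.BR18.Blue

/-! Row GEN5: generic heights in a box. -/

namespace Pool.Agent.Lib.BR18

open MeasureTheory

namespace GEN5

/-- evaluation of forms at five vectors -/
noncomputable def evL (u : Fin 5 → V) : (Fin 4 → ℝ) →ₗ[ℝ] (Fin 5 → ℝ) where
  toFun l := fun i => ev l (u i)
  map_add' l l' := by
    funext i
    simp only [ev, Pi.add_apply, Fin.sum_univ_four]
    ring
  map_smul' c l := by
    funext i
    simp only [ev, Pi.smul_apply, smul_eq_mul, Fin.sum_univ_four, RingHom.id_apply]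
    ring

/-- the heights that five vectors can share with one form -/
noncomputable def bad {R : Type} (u : Fin 5 → V) (e : Fin 5 → R) : Submodule ℝ (R → ℝ) :=
  (LinearMap.range (evL u)).comap (LinearMap.funLeft ℝ ℝ e)

lemma bad_ne_top {R : Type} (u : Fin 5 → V) (e : Fin 5 → R) (he : Function.Injective e) :
    bad u e ≠ ⊤ := by
  intro h
  have hs : LinearMap.range (evL u) = ⊤ := by
    rw [eq_top_iff]
    intro y _
    obtain ⟨g, hg⟩ := LinearMap.funLeft_surjective_of_injective ℝ ℝ e he y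
    have hm : g ∈ bad u e := by rw [h]; exact Submodule.mem_top
    rw [bad, Submodule.mem_comap, hg] at hm
    exact hm
  have h1 := LinearMap.finrank_range_le (evL u)
  rw [hs, finrank_top] at h1
  simp at h1

end GEN5

theorem bGEN5 : St_GEN5 := by
  intro L R _ _ p res lo hi hlt
  classical
  have : Fintype R := Fintype.ofFinite R
  have hnull : ∀ s : {s : Fin 5 → L // Function.Injective (res ∘ s)},
      (volume : Measure (R → ℝ)) (GEN5.bad (p ∘ s.1) (res ∘ s.1) : Set (R → ℝ)) = 0 :=
    fun s => Measure.addHaar_submodule volume _ (GEN5.bad_ne_top _ _ s.2)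
  have hU : (volume : Measure (R → ℝ)) (⋃ s : {s : Fin 5 → L // Function.Injective (res ∘ s)},
      (GEN5.bad (p ∘ s.1) (res ∘ s.1) : Set (R → ℝ))) = 0 := measure_iUnion_null hnull
  have hopen : IsOpen (Set.pi Set.univ fun r => Set.Ioo (lo r) (hi r)) :=
    isOpen_set_pi Set.finite_univ fun r _ => isOpen_Ioo
  have hne : (Set.pi Set.univ fun r => Set.Ioo (lo r) (hi r)).Nonempty :=
    ⟨fun r => (lo r + hi r) / 2, fun r _ => ⟨by linarith [hlt r], by linarith [hlt r]⟩⟩
  have hpos := hopen.measure_ne_zero (volume : Measure (R → ℝ)) hne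
  obtain ⟨h, hbox, hnot⟩ : ∃ h ∈ Set.pi Set.univ fun r => Set.Ioo (lo r) (hi r),
      h ∉ ⋃ s : {s : Fin 5 → L // Function.Injective (res ∘ s)},
        (GEN5.bad (p ∘ s.1) (res ∘ s.1) : Set (R → ℝ)) := by
    by_contra hcon
    refine hpos (measure_mono_null (fun h hh => ?_) hU)
    by_contra hn
    exact hcon ⟨h, hh, hn⟩
  refine ⟨h, fun r => hbox r (Set.mem_univ r), fun s hs l hl => hnot ?_⟩
  refine Set.mem_iUnion.2 ⟨⟨s, hs⟩, ?_⟩
  refine ⟨l, ?_⟩
  funext i
  exact hl i

end Pool.Agent.Lib.BR18
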