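import Pool.Agent.Lib.BR18.Blue

/-! Row HERM: Hermitian forms vanishing on a face. -/

namespace Pool.Agent.Lib.BR18

open scoped ComplexConjugate

namespace HERM

lemma orn_cn (u : V) (f : Fin 3 → V) : orn (cn u f) =
    (dt (f 0) (f 1) * conj (dt (f 0) (f 2)) * (dt u (f 2) * conj (dt u (f 1)))).im := by
  have h : orn (cn u f) =
      (dt u (f 2) * dt (f 0) (f 1) * conj (dt u (f 1) * dt (f 0) (f 2))).im := rfl
  rw [h, map_mul]
  congr 1
  ring

lemma ex_form (A : ℂ) (b c : V) : ∃ ν, ∀ u, ev ν u = (A * (dt u c * conj (dt u b))).im := by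
  refine ⟨![(A * (c 1 * conj (b 1))).im, (A * (c 0 * conj (b 0))).im,
    -(A * (c 1 * conj (b 0))).im - (A * (c 0 * conj (b 1))).im,
    (A * (c 0 * conj (b 1))).re - (A * (c 1 * conj (b 0))).re], fun u => ?_⟩
  simp [ev, pv, dt, Fin.sum_univ_four, Complex.normSq_apply]
  ring

/-- the sesquilinear form of a Hermitian form -/
noncomputable def H (l : Fin 4 → ℝ) (u v : V) : ℂ :=
  l 0 * (u 0 * conj (v 0)) + l 1 * (u 1 * conj (v 1)) +
    (l 2 - l 3 * Complex.I) / 2 * (u 0 * conj (v 1)) +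
    (l 2 + l 3 * Complex.I) / 2 * (u 1 * conj (v 0))

lemma H_self (l : Fin 4 → ℝ) (u : V) : H l u u = ev l u := by
  apply Complex.ext <;> simp [H, ev, pv, Fin.sum_univ_four, Complex.normSq_apply] <;> ring

lemma H_conj (l : Fin 4 → ℝ) (u v : V) : H l v u = conj (H l u v) := by
  simp only [H, map_add, map_sub, map_mul, map_div₀, map_ofNat, Complex.conj_conj,
    Complex.conj_ofReal, Complex.conj_I]
  ring

lemma expand (l : Fin 4 → ℝ) (u b c : V) :
    dt b c * conj (dt b c) * H l u u = dt u c * conj (dt u c) * H l b b +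
      dt u b * conj (dt u b) * H l c c - dt u c * conj (dt u b) * H l b c -
      conj (dt u c) * dt u b * H l c b := by
  simp only [H, dt, map_sub, map_mul]
  ring

lemma ev_of_zero {l : Fin 4 → ℝ} {b c : V} (hb : ev l b = 0) (hc : ev l c = 0) (u : V) :
    Complex.normSq (dt b c) * ev l u = -2 * (dt u c * conj (dt u b) * H l b c).re := by
  have h := expand l u b c
  rw [H_self, H_self, H_self, hb, hc, H_conj l b c, Complex.mul_conj] at h
  have h2 := congrArg Complex.re h
  simp at h2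
  simp
  linarith

end HERM

open HERM in
theorem bHERM (hO : St_ORN) : St_HERM := by
  refine ⟨fun f => ?_, fun t l ht hl => ?_, fun t ht => ?_⟩
  · simp only [orn_cn]
    exact ex_form _ _ _
  · have hd := hO.2.2.1 t ht
    obtain ⟨a, ha⟩ : ∃ a, a = tl t 0 := ⟨_, rfl⟩
    obtain ⟨b, hb⟩ : ∃ b, b = tl t 1 := ⟨_, rfl⟩
    obtain ⟨c, hc⟩ : ∃ c, c = tl t 2 := ⟨_, rfl⟩
    have d1 : dt a b ≠ 0 := by rw [ha, hb]; exact hd 1 2 (by decide)
    have d2 : dt a c ≠ 0 := by rw [ha, hc]; exact hd 1 3 (by decide)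
    have d3 : dt b c ≠ 0 := by rw [hb, hc]; exact hd 2 3 (by decide)
    have e1 : ev l a = 0 := by rw [ha]; exact hl 0
    have e2 : ev l b = 0 := by rw [hb]; exact hl 1
    have e3 : ev l c = 0 := by rw [hc]; exact hl 2
    simp only [orn_cn, ← ha, ← hb, ← hc]
    obtain ⟨A, hA⟩ : ∃ A, A = dt a b * conj (dt a c) := ⟨_, rfl⟩
    have A0 : 0 < Complex.normSq A := by
      rw [hA]
      exact Complex.normSq_pos.2 (mul_ne_zero d1 ((map_ne_zero _).2 d2))
    have D0 : 0 < Complex.normSq (dt b c) := Complex.normSq_pos.2 d3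
    have k1 := ev_of_zero e2 e3 a
    have k2 : dt a c * conj (dt a b) = conj A := by
      rw [hA, map_mul, Complex.conj_conj, mul_comm]
    rw [e1, k2] at k1
    rw [← hA]
    obtain ⟨h, hh⟩ : ∃ h, h = H l b c := ⟨_, rfl⟩
    rw [← hh] at k1
    refine ⟨2 * (conj A * h).im / (Complex.normSq A * Complex.normSq (dt b c)), fun u => ?_⟩
    have k3 := ev_of_zero e2 e3 u
    rw [← hh] at k3
    obtain ⟨X, hX⟩ : ∃ X, X = dt u c * conj (dt u b) := ⟨_, rfl⟩
    rw [← hX] at k3 ⊢
    have k4 : A.re * h.re + A.im * h.im = 0 := by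
      simp at k1
      linarith
    have k5 : Complex.normSq A * (X * h).re = -((conj A * h).im * (A * X).im) := by
      simp [Complex.normSq_apply]
      linear_combination (A.re * X.re - A.im * X.im) * k4
    rw [div_mul_eq_mul_div, eq_div_iff (mul_pos A0 D0).ne']
    linear_combination Complex.normSq A * k3 - 2 * k5
  · have hd := hO.2.2.1 t ht
    have d3 : dt (tl t 1) (tl t 2) ≠ 0 := hd 2 3 (by decide)
    have e : orn t = orn (cn (t 0) (tl t)) := by rw [cn_tl]
    refine ⟨fun i => (dt (t 0) (tl t 2) * tl t 1 i + dt (t 0) (tl t 1) * tl t 2 i) /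
      dt (tl t 1) (tl t 2), ?_⟩
    have f1 : dt (fun i => (dt (t 0) (tl t 2) * tl t 1 i + dt (t 0) (tl t 1) * tl t 2 i) /
        dt (tl t 1) (tl t 2)) (tl t 2) = dt (t 0) (tl t 2) := by
      rw [dt]
      field_simp
      simp only [dt]
      ring
    have f2 : dt (fun i => (dt (t 0) (tl t 2) * tl t 1 i + dt (t 0) (tl t 1) * tl t 2 i) /
        dt (tl t 1) (tl t 2)) (tl t 1) = -dt (t 0) (tl t 1) := by
      rw [dt]
      field_simp
      simp only [dt]
      ring
    rw [orn_cn, f1, f2, map_neg, mul_neg, mul_neg, Complex.neg_im, ← orn_cn, ← e]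
    have := mul_self_pos.2 ht
    linarith

end Pool.Agent.Lib.BR18
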