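import Pool.Agent.Lib.BR18.Blue

/-! Pairing of the fibres of a map along an involution. -/

namespace Pool.Agent.Lib.BR18

theorem bINV : St_INV := by
  intro S Φ _ c ι hι hc
  have e : ∀ φ, {a // c a = φ} ≃ Fin (Nat.card {a // c a = φ}) := fun φ => Finite.equivFin _
  let num : S → ℕ := fun a => (e (c a) ⟨a, rfl⟩).val
  have hnum : ∀ φ (x : {a // c a = φ}), num x.1 = (e φ x).val := by
    rintro φ ⟨a, rfl⟩
    rfl
  have hinj : ∀ a b, c a = c b → num a = num b → a = b := by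
    intro a b h1 h2
    have h3 := hnum (c b) ⟨a, h1⟩
    have h4 := hnum (c b) ⟨b, rfl⟩
    have h5 : e (c b) ⟨a, h1⟩ = e (c b) ⟨b, rfl⟩ := Fin.ext (by rw [← h3, ← h4]; exact h2)
    exact congrArg Subtype.val ((e (c b)).injective h5)
  have hex : ∀ a, ∃ b, c b = ι (c a) ∧ num b = num a := by
    intro a
    have h1 : num a < Nat.card {b // c b = ι (c a)} := by
      rw [← hc]
      exact (e (c a) ⟨a, rfl⟩).isLt
    refine ⟨((e (ι (c a))).symm ⟨num a, h1⟩).1, ((e (ι (c a))).symm ⟨num a, h1⟩).2, ?_⟩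
    rw [hnum, Equiv.apply_symm_apply]
  choose nb h1 h2 using hex
  refine ⟨nb, fun a => ⟨hinj _ _ ?_ ?_, h1 a⟩⟩
  · rw [h1, h1, hι]
  · rw [h2, h2]

end Pool.Agent.Lib.BR18
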