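import Pool.Agent.Lib.BR18.Blue2

/-! The invariant trace field of the holonomy: base point independence, containment. -/

namespace Pool.Agent.Lib.BR18

open Matrix
open scoped MatrixGroups

namespace ITF

/-- matrices with entries in a subfield -/
def sub (k : IntermediateField ℚ ℂ) : Subgroup SL(2, ℂ) where
  carrier := {x | ∀ a b, x.1 a b ∈ k}
  one_mem' := by
    intro a b
    change (1 : Matrix (Fin 2) (Fin 2) ℂ) a b ∈ k
    rw [Matrix.one_apply]
    split_ifs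
    · exact one_mem k
    · exact zero_mem k
  mul_mem' := by
    intro x y hx hy a b
    change (x.1 * y.1) a b ∈ k
    rw [Matrix.mul_apply]
    exact sum_mem fun c _ => mul_mem (hx a c) (hy c b)
  inv_mem' := by
    intro x hx a b
    rw [Matrix.SpecialLinearGroup.SL2_inv_expl]
    fin_cases a <;> fin_cases b
    · exact hx 1 1
    · exact neg_mem (hx 0 1)
    · exact neg_mem (hx 1 0)
    · exact hx 0 0

theorem cramer (k : IntermediateField ℚ ℂ) (x : SL(2, ℂ)) (u w : V) (hd : dt u w ≠ 0)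
    (hu : ∀ l, u l ∈ k) (hw : ∀ l, w l ∈ k) (hu' : ∀ l, (x.1 *ᵥ u) l ∈ k)
    (hw' : ∀ l, (x.1 *ᵥ w) l ∈ k) : x ∈ sub k := by
  have hk : dt u w ∈ k := sub_mem (mul_mem (hu 0) (hw 1)) (mul_mem (hu 1) (hw 0))
  have e : ∀ (z : V) (r : Fin 2), (x.1 *ᵥ z) r = x.1 r 0 * z 0 + x.1 r 1 * z 1 := by
    intro z r
    simp only [Matrix.mulVec, dotProduct, Fin.sum_univ_two]
  intro r b
  have h0 : x.1 r 0 = ((x.1 *ᵥ u) r * w 1 - (x.1 *ᵥ w) r * u 1) / dt u w := by
    rw [eq_div_iff hd, e, e, dt]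
    ring
  have h1 : x.1 r 1 = (u 0 * (x.1 *ᵥ w) r - w 0 * (x.1 *ᵥ u) r) / dt u w := by
    rw [eq_div_iff hd, e, e, dt]
    ring
  fin_cases b
  · change x.1 r 0 ∈ k
    rw [h0]
    exact div_mem (sub_mem (mul_mem (hu' r) (hw 1)) (mul_mem (hw' r) (hu 1))) hk
  · change x.1 r 1 ∈ k
    rw [h1]
    exact div_mem (sub_mem (mul_mem (hu 0) (hw' r)) (mul_mem (hw 0) (hu' r))) hk

theorem two (l : Fin 4) : ∃ j j' : Fin 4, j ≠ l ∧ j' ≠ l ∧ j ≠ j' := by
  revert l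
  decide

theorem trace_conj (γ x : SL(2, ℂ)) : (γ * x * γ⁻¹).1.trace = x.1.trace := by
  have h : (γ⁻¹ * (γ * x)).1.trace = x.1.trace := by rw [inv_mul_cancel_left]
  rw [← h]
  exact Matrix.trace_mul_comm (γ * x).1 (γ⁻¹).1

theorem le_of_walk {I : Type} {nb : I × Fin 4 → I × Fin 4} {g : I × Fin 4 → SL(2, ℂ)}
    (hc : ∀ i i' i'' γ δ, Walk nb g i γ i' → Walk nb g i' δ i'' → Walk nb g i (δ * γ) i'')
    {i i' : I} {γ : SL(2, ℂ)} (h : Walk nb g i γ i') (h' : Walk nb g i' γ⁻¹ i) :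
    itf nb g i ≤ itf nb g i' := by
  refine IntermediateField.adjoin.mono _ _ _ ?_
  rintro t ⟨x, hx, rfl⟩
  refine ⟨γ * x * γ⁻¹, ?_, (trace_conj γ x).symm⟩
  induction hx using Subgroup.closure_induction with
  | mem y hy =>
    obtain ⟨δ, hδ, rfl⟩ := hy
    refine Subgroup.subset_closure ⟨γ * (δ * γ⁻¹), hc _ _ _ _ _ (hc _ _ _ _ _ h' hδ) h, ?_⟩
    rw [pow_two, pow_two]
    group
  | one =>
    rw [mul_one, mul_inv_cancel]
    exact one_mem _
  | mul y z _ _ hy hz =>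
    have e : γ * (y * z) * γ⁻¹ = γ * y * γ⁻¹ * (γ * z * γ⁻¹) := by group
    rw [e]
    exact mul_mem hy hz
  | inv y _ hy =>
    have e : γ * y⁻¹ * γ⁻¹ = (γ * y * γ⁻¹)⁻¹ := by group
    rw [e]
    exact inv_mem hy

end ITF

open ITF in
theorem bITF (hORN : St_ORN) (hWALK : St_WALK) : St_ITF := by
  intro I v nb π g hG
  obtain ⟨hc, -, hi, -⟩ := hWALK I v nb π g hG
  refine ⟨fun i i' γ h => le_antisymm (le_of_walk hc h (hi _ _ _ h))
    (le_of_walk hc (hi _ _ _ h) (by rw [inv_inv]; exact h)), fun k hk i => ?_⟩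
  have hg : ∀ a, g a ∈ sub k := by
    intro a
    obtain ⟨j, j', h1, h2, h3⟩ := two a.2
    refine cramer k (g a) (v a.1 j) (v a.1 j') (hORN.2.2.1 _ (hG.2.2 a.1).ne' j j' h3)
      (hk _ _) (hk _ _) ?_ ?_
    · rw [hG.2.1 a j h1]
      exact hk _ _
    · rw [hG.2.1 a j' h2]
      exact hk _ _
  have hw : ∀ i i' γ, Walk nb g i γ i' → γ ∈ sub k := by
    intro i i' γ h
    induction h with
    | nil => exact one_mem _
    | step j _ ih => exact mul_mem (hg _) ih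
  refine IntermediateField.adjoin_le_iff.2 ?_
  rintro t ⟨x, hx, rfl⟩
  have hle : Subgroup.closure {x | ∃ δ, Walk nb g i δ i ∧ x = δ ^ 2} ≤ sub k := by
    refine (Subgroup.closure_le _).2 ?_
    rintro y ⟨δ, hδ, rfl⟩
    exact pow_mem (hw _ _ _ hδ) 2
  have hxk := hle hx
  rw [Matrix.trace_fin_two]
  exact add_mem (hxk 0 0) (hxk 1 1)

end Pool.Agent.Lib.BR18
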