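import Pool.Agent.Lib.BR18.Blue

/-! Row MEAS: the weights are measurable, finite and invariant. -/

namespace Pool.Agent.Lib.BR18

open MeasureTheory NumberField Matrix
open scoped MatrixGroups ComplexConjugate

namespace MEAS

lemma ev_uniq (hH : St_HERM) (t : Fin 4 → V) (ht : orn t ≠ 0) (l l' : Fin 4 → ℝ)
    (h : ∀ j, ev l (t j) = ev l' (t j)) (u : V) : ev l u = ev l' u := by
  have e : ∀ v, ev (l + (-1 : ℝ) • l') v = ev l v - ev l' v := fun v => by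
    rw [ev_add_smul]; ring
  obtain ⟨s, hs⟩ := hH.2.1 t (l + (-1 : ℝ) • l') ht (fun j => by rw [e, h, sub_self])
  have h0 := hs (t 0)
  rw [e, h, sub_self, cn_tl] at h0
  have hs0 : s = 0 := by
    rcases mul_eq_zero.mp h0.symm with h1 | h1
    · exact h1
    · exact absurd h1 ht
  have h1 := hs u
  rw [e, hs0, zero_mul] at h1
  linarith

variable {K : Type} [Field K] [NumberField K]

lemma lat_countable : Countable (Lat K) := by
  have h1 : Countable K := Finsupp.Countable.of_moduleFinite (R := ℚ)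
  have h2 : Countable (𝓞 K) := (RingOfIntegers.coe_injective (K := K)).countable
  infer_instance

lemma meas_del (hH : St_HERM) (σ : K →+* ℂ) (S : Sys σ) (ρ : ℝ) (η : Lat K → ℝ)
    (t : Fin 4 → Lat K) (ht : orn (pe σ ∘ t) ≠ 0) :
    @MeasurableSet _ S.mX {x | Del (pe σ) η (S.win ρ x) t} := by
  letI := S.mX
  haveI : Countable (Lat K) := lat_countable
  have hw : ∀ a : Lat K, MeasurableSet {x | a ∈ S.win ρ x} := fun a =>
    (MeasurableSet.const (a ≠ 0)).inter (measurableSet_le (S.meas a) measurable_const)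
  by_cases hl : ∃ l0, ∀ j, ev l0 (pe σ (t j)) = η (t j)
  · obtain ⟨l0, hl0⟩ := hl
    have e : {x | Del (pe σ) η (S.win ρ x) t} =
        (⋂ j, {x | t j ∈ S.win ρ x}) ∩
          ⋂ a : Lat K, ({x | a ∈ S.win ρ x}ᶜ ∪ {_x | η a ≤ ev l0 (pe σ a)}) := by
      ext x
      simp only [Set.mem_setOf_eq, Set.mem_inter_iff, Set.mem_iInter, Set.mem_union,
        Set.mem_compl_iff]
      constructor
      · rintro ⟨h1, l, hf, hl⟩
        refine ⟨h1, fun a => ?_⟩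
        by_cases ha : a ∈ S.win ρ x
        · right
          rw [ev_uniq hH (pe σ ∘ t) ht l0 l (fun j => (hl0 j).trans (hl j).symm)]
          exact hf a ha
        · exact Or.inl ha
      · rintro ⟨h1, h2⟩
        exact ⟨h1, l0, fun a ha => (h2 a).resolve_left (fun h => h ha), hl0⟩
    rw [e]
    exact (MeasurableSet.iInter fun j => hw _).inter
      (MeasurableSet.iInter fun a => (hw a).compl.union (MeasurableSet.const _))
  · have e : {x | Del (pe σ) η (S.win ρ x) t} = ∅ := by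
      ext x
      simp only [Set.mem_setOf_eq, Set.mem_empty_iff_false, iff_false]
      rintro ⟨_, l, _, h⟩
      exact hl ⟨l, h⟩
    rw [e]
    exact MeasurableSet.empty

/-- the image of an integral matrix under the embedding -/
noncomputable def gm (σ : K →+* ℂ) (γ : SL(2, 𝓞 K)) : SL(2, ℂ) :=
  Matrix.SpecialLinearGroup.map (σ.comp (algebraMap (𝓞 K) K)) γ

lemma pe_mul (σ : K →+* ℂ) (γ : SL(2, 𝓞 K)) (a : Lat K) :
    pe σ (γ.1 *ᵥ a) = (gm σ γ).1 *ᵥ pe σ a := by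
  funext i
  simp [pe, gm, Matrix.mulVec, dotProduct, Fin.sum_univ_two]

lemma mul_inv_vec {R : Type} [CommRing R] (γ : SL(2, R)) (b : Fin 2 → R) :
    γ.1 *ᵥ ((γ⁻¹).1 *ᵥ b) = b := by
  rw [Matrix.mulVec_mulVec, ← Matrix.SpecialLinearGroup.coe_mul, mul_inv_cancel,
    Matrix.SpecialLinearGroup.coe_one, Matrix.one_mulVec]

lemma inv_mul_vec {R : Type} [CommRing R] (γ : SL(2, R)) (b : Fin 2 → R) :
    (γ⁻¹).1 *ᵥ (γ.1 *ᵥ b) = b := by
  rw [Matrix.mulVec_mulVec, ← Matrix.SpecialLinearGroup.coe_mul, inv_mul_cancel,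
    Matrix.SpecialLinearGroup.coe_one, Matrix.one_mulVec]

lemma del_iff (hO : St_ORN) (σ : K →+* ℂ) (η : Lat K → ℝ) (γ : SL(2, 𝓞 K))
    (hη : ∀ a, η (γ.1 *ᵥ a) = η a) (W W' : Set (Lat K)) (hW : ∀ a, γ.1 *ᵥ a ∈ W' ↔ a ∈ W)
    (t : Fin 4 → Lat K) :
    Del (pe σ) η W' (fun j => γ.1 *ᵥ t j) ↔ Del (pe σ) η W t := by
  constructor
  · rintro ⟨h1, l', hf, hl⟩
    obtain ⟨l, hl2⟩ := hO.2.2.2.2.2.1 (gm σ γ)⁻¹ l'
    have key : ∀ a, ev l (pe σ a) = ev l' (pe σ (γ.1 *ᵥ a)) := fun a => by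
      rw [pe_mul, ← hl2, inv_mul_vec]
    refine ⟨fun j => (hW _).mp (h1 j), l, fun a ha => ?_, fun j => ?_⟩
    · rw [key, ← hη]; exact hf _ ((hW a).mpr ha)
    · rw [key, ← hη]; exact hl j
  · rintro ⟨h1, l, hf, hl⟩
    obtain ⟨l', hl2⟩ := hO.2.2.2.2.2.1 (gm σ γ) l
    have key : ∀ a, ev l' (pe σ (γ.1 *ᵥ a)) = ev l (pe σ a) := fun a => by
      rw [pe_mul, hl2]
    refine ⟨fun j => (hW _).mpr (h1 j), l', fun b hb => ?_, fun j => ?_⟩
    · rw [← mul_inv_vec γ b] at hb ⊢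
      rw [key, hη]; exact hf _ ((hW _).mp hb)
    · rw [key, hη]; exact hl j

end MEAS

theorem bMEAS (hO : St_ORN) (hH : St_HERM) : St_MEAS := by
  intro K _ _ σ S ρ N η hη t ht
  letI := S.mX
  refine ⟨MEAS.meas_del hH σ S ρ η t ht, ?_, fun γ hγ => ?_⟩
  · have h01 : dO (t 0) (t 1) ≠ 0 := by
      intro h
      have h2 := hO.2.2.1 (pe σ ∘ t) ht 0 1 (by decide)
      apply h2
      show dt (pe σ (t 0)) (pe σ (t 1)) = 0
      rw [dt_pe, h]; simp
    refine ne_top_of_le_ne_top (S.fin ρ _ _ h01) (measure_mono ?_)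
    rintro x ⟨h1, _⟩
    exact ⟨(h1 0).2, (h1 1).2⟩
  · have ho : orn (pe σ ∘ fun j => γ.1 *ᵥ t j) = orn (pe σ ∘ t) := by
      simp only [orn, Function.comp_apply, MEAS.pe_mul, hO.2.2.2.2.1]
    refine ⟨ho, ?_⟩
    obtain ⟨T, hT, hn⟩ := S.inv γ
    have hm := MEAS.meas_del hH σ S ρ η (fun j => γ.1 *ᵥ t j) (ho ▸ ht)
    rw [← hT.measure_preimage hm.nullMeasurableSet]
    congr 1
    ext x
    refine MEAS.del_iff hO σ η γ (fun a => hη _ _ (hγ a)) _ _ (fun a => ?_) t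
    show (γ.1 *ᵥ a ≠ 0 ∧ S.n (T x) (γ.1 *ᵥ a) ≤ ρ) ↔ (a ≠ 0 ∧ S.n x a ≤ ρ)
    rw [hn]
    refine and_congr_left fun _ => not_congr ⟨fun h => ?_, fun h => ?_⟩
    · rw [← MEAS.inv_mul_vec γ a, h, Matrix.mulVec_zero]
    · rw [h, Matrix.mulVec_zero]

end Pool.Agent.Lib.BR18
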