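import Pool.Agent.Lib.BR18.Blue

/-! Minkowski's theorem, uniformly over the internal group. -/

namespace Pool.Agent.Lib.BR18

open MeasureTheory NumberField Matrix Module
open scoped MatrixGroups ComplexConjugate

namespace MINK

/-- the convex body -/
def body (A : Type) [NormedCommRing A] (ρ C : ℝ) : Set (Fin 2 → A × ℂ) :=
  {v | ∀ i, ‖(v i).1‖ ≤ ρ ∧ ‖(v i).2‖ ≤ C}

variable {A : Type} [NormedCommRing A] [NormedAlgebra ℝ A] [FiniteDimensional ℝ A]

omit [FiniteDimensional ℝ A] in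
theorem body_convex (ρ C : ℝ) : Convex ℝ (body A ρ C) := by
  intro u hu v hv a b ha hb hab i
  have h1 := hu i
  have h2 := hv i
  constructor
  · calc ‖((a • u + b • v) i).1‖ = ‖a • (u i).1 + b • (v i).1‖ := rfl
      _ ≤ a * ‖(u i).1‖ + b * ‖(v i).1‖ := by
        refine (norm_add_le _ _).trans ?_
        rw [norm_smul, norm_smul, Real.norm_of_nonneg ha, Real.norm_of_nonneg hb]
      _ ≤ a * ρ + b * ρ :=
        add_le_add (mul_le_mul_of_nonneg_left h1.1 ha) (mul_le_mul_of_nonneg_left h2.1 hb)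
      _ = ρ := by rw [← add_mul, hab, one_mul]
  · calc ‖((a • u + b • v) i).2‖ = ‖a • (u i).2 + b • (v i).2‖ := rfl
      _ ≤ a * ‖(u i).2‖ + b * ‖(v i).2‖ := by
        refine (norm_add_le _ _).trans ?_
        rw [norm_smul, norm_smul, Real.norm_of_nonneg ha, Real.norm_of_nonneg hb]
      _ ≤ a * C + b * C :=
        add_le_add (mul_le_mul_of_nonneg_left h1.2 ha) (mul_le_mul_of_nonneg_left h2.2 hb)
      _ = C := by rw [← add_mul, hab, one_mul]

omit [NormedAlgebra ℝ A] [FiniteDimensional ℝ A] in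
theorem body_closed (ρ C : ℝ) : IsClosed (body A ρ C) := by
  have : body A ρ C = ⋂ i, ({v | ‖(v i).1‖ ≤ ρ} ∩ {v | ‖(v i).2‖ ≤ C}) := by
    ext v
    simp [body]
  rw [this]
  exact isClosed_iInter fun i =>
    (isClosed_le (by fun_prop) continuous_const).inter (isClosed_le (by fun_prop) continuous_const)

omit [NormedAlgebra ℝ A] [FiniteDimensional ℝ A] in
theorem grow [MeasurableSpace (Fin 2 → A × ℂ)] [BorelSpace (Fin 2 → A × ℂ)]
    (μ : Measure (Fin 2 → A × ℂ)) [μ.IsAddLeftInvariant] (ρ : ℝ) (m : ℕ) :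
    m * μ (body A ρ 1) ≤ μ (body A ρ (3 * m)) := by
  induction m with
  | zero => simp
  | succ m ih =>
    have hm : (0 : ℝ) ≤ m := Nat.cast_nonneg m
    set c : Fin 2 → A × ℂ := fun _ => (0, ((3 * m + 2 : ℝ) : ℂ)) with hc
    have hn : ‖((3 * m + 2 : ℝ) : ℂ)‖ = 3 * m + 2 := by
      rw [Complex.norm_real, Real.norm_of_nonneg (by positivity)]
    have hT : μ ((fun v => c + v) ⁻¹' body A ρ 1) = μ (body A ρ 1) :=
      measure_preimage_add μ c _
    have hd : Disjoint (body A ρ (3 * m)) ((fun v => c + v) ⁻¹' body A ρ 1) := by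
      rw [Set.disjoint_left]
      intro v h1 h2
      have h3 := (h1 0).2
      have h4 : ‖((3 * m + 2 : ℝ) : ℂ) + (v 0).2‖ ≤ 1 := (h2 0).2
      have h5 := norm_sub_le (((3 * m + 2 : ℝ) : ℂ) + (v 0).2) (v 0).2
      rw [add_sub_cancel_right, hn] at h5
      linarith
    have hs : body A ρ (3 * m) ∪ (fun v => c + v) ⁻¹' body A ρ 1 ⊆
        body A ρ (3 * ((m + 1 : ℕ) : ℝ)) := by
      rintro v (h | h) i
      · refine ⟨(h i).1, (h i).2.trans ?_⟩
        push_cast
        linarith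
      · have h1 : ‖(0 : A) + (v i).1‖ ≤ ρ := (h i).1
        have h4 : ‖((3 * m + 2 : ℝ) : ℂ) + (v i).2‖ ≤ 1 := (h i).2
        have h5 := norm_sub_le (((3 * m + 2 : ℝ) : ℂ) + (v i).2) ((3 * m + 2 : ℝ) : ℂ)
        rw [add_sub_cancel_left, hn] at h5
        rw [zero_add] at h1
        refine ⟨h1, ?_⟩
        push_cast
        linarith
    have hmeas : MeasurableSet ((fun v => c + v) ⁻¹' body A ρ 1) :=
      ((body_closed ρ 1).preimage (by fun_prop)).measurableSet
    calc ((m + 1 : ℕ) : ENNReal) * μ (body A ρ 1) = m * μ (body A ρ 1) + μ (body A ρ 1) := by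
          push_cast
          ring
      _ ≤ μ (body A ρ (3 * m)) + μ ((fun v => c + v) ⁻¹' body A ρ 1) := by
          rw [hT]
          exact add_le_add ih le_rfl
      _ = _ := (measure_union hd hmeas).symm
      _ ≤ _ := measure_mono hs

theorem gen {ι : Type} [Fintype ι] (b : Basis ι ℝ (A × ℂ)) (H : AddSubgroup (A × ℂ))
    (hH : ∀ i, b i ∈ H) (ρ : ℝ) (hρ : 0 < ρ) : ∃ C : ℝ, 0 < C ∧
      ∀ (x : SL(2, A)) (y : SL(2, ℂ)), ∃ v : Fin 2 → A × ℂ, v ≠ 0 ∧ (∀ i, v i ∈ H) ∧
        ‖x.1 *ᵥ fun i => (v i).1‖ ≤ ρ ∧ ‖y.1 *ᵥ fun i => (v i).2‖ ≤ C := by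
  classical
  let _ : MeasurableSpace (Fin 2 → A × ℂ) := borel _
  have : BorelSpace (Fin 2 → A × ℂ) := ⟨rfl⟩
  have : ProperSpace (Fin 2 → A × ℂ) := FiniteDimensional.proper_real _
  set B := Pi.basis fun _ : Fin 2 => b with hB
  set μ : Measure (Fin 2 → A × ℂ) := B.addHaar with hμ
  have hF := ZSpan.isAddFundamentalDomain' B μ
  have hFf : μ (ZSpan.fundamentalDomain B) < ⊤ :=
    (ZSpan.fundamentalDomain_isBounded B).measure_lt_top
  have h1 : μ (body A ρ 1) ≠ 0 := by
    have hb : Metric.ball (0 : Fin 2 → A × ℂ) (min ρ 1) ⊆ body A ρ 1 := by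
      intro v hv i
      rw [mem_ball_zero_iff] at hv
      have h2 := (norm_le_pi_norm v i).trans hv.le
      exact ⟨((norm_fst_le _).trans h2).trans (min_le_left _ _),
        ((norm_snd_le _).trans h2).trans (min_le_right _ _)⟩
    exact ((Metric.measure_ball_pos μ _ (lt_min hρ one_pos)).trans_le (measure_mono hb)).ne'
  obtain ⟨m, hm⟩ := ENNReal.exists_nat_mul_gt h1
    (b := μ (ZSpan.fundamentalDomain B) * 2 ^ finrank ℝ (Fin 2 → A × ℂ))
    (ENNReal.mul_ne_top hFf.ne (by finiteness))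
  have hm' := hm.trans_le (grow μ ρ m)
  refine ⟨3 * m + 1, by positivity, fun x y => ?_⟩
  set g : Matrix (Fin 2) (Fin 2) (A × ℂ) := Matrix.of fun i j => (x.1 i j, y.1 i j) with hg
  have hdet : g.det = 1 := by
    have hx := x.2
    have hy := y.2
    rw [Matrix.det_fin_two] at hx hy ⊢
    exact Prod.ext hx hy
  set f : (Fin 2 → A × ℂ) →ₗ[ℝ] (Fin 2 → A × ℂ) := (Matrix.toLin' g).restrictScalars ℝ with hf
  have hfd : LinearMap.det f = 1 := by
    rw [hf, LinearMap.det_restrictScalars, LinearMap.det_toLin', hdet, map_one]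
  have hpre : μ (f ⁻¹' body A ρ (3 * m)) = μ (body A ρ (3 * m)) := by
    rw [Measure.addHaar_preimage_linearMap μ (by rw [hfd]; exact one_ne_zero), hfd]
    simp
  have : Countable (Submodule.span ℤ (Set.range B)).toAddSubgroup :=
    inferInstanceAs (Countable (Submodule.span ℤ (Set.range B)))
  obtain ⟨⟨v, hv⟩, hv0, hvm⟩ := exists_ne_zero_mem_lattice_of_measure_mul_two_pow_lt_measure hF
    (s := f ⁻¹' body A ρ (3 * m))
    (fun u hu i => by
      have := hu i
      simpa [map_neg] using this)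
    ((body_convex ρ _).linear_preimage f) (by rwa [hpre])
  have hv1 : (x.1 *ᵥ fun i => (v i).1) = fun i => (f v i).1 := by
    funext i
    simp [hf, hg, Matrix.mulVec, dotProduct, Fin.sum_univ_two]
  have hv2 : (y.1 *ᵥ fun i => (v i).2) = fun i => (f v i).2 := by
    funext i
    simp [hf, hg, Matrix.mulVec, dotProduct, Fin.sum_univ_two]
  refine ⟨v, fun h => hv0 (Subtype.ext h), ?_, ?_, ?_⟩
  · have hv' : v ∈ Submodule.span ℤ (Set.range B) := hv
    refine Submodule.span_induction (p := fun u _ => ∀ i, u i ∈ H) ?_ ?_ ?_ ?_ hv'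
    · rintro _ ⟨j, rfl⟩ i
      rw [hB, Pi.basis_apply]
      by_cases h : i = j.1
      · rw [h, Pi.single_eq_same]
        exact hH _
      · rw [Pi.single_eq_of_ne h]
        exact H.zero_mem
    · exact fun _ => H.zero_mem
    · exact fun _ _ _ _ h1 h2 i => H.add_mem (h1 i) (h2 i)
    · exact fun n _ _ h1 i => H.zsmul_mem (h1 i) n
  · rw [hv1]
    exact (pi_norm_le_iff_of_nonneg hρ.le).2 fun i => (hvm i).1
  · rw [hv2]
    exact (pi_norm_le_iff_of_nonneg (by positivity)).2 fun i => (hvm i).2.trans (by linarith)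

end MINK

theorem bMINK : St_MINK := by
  intro K _ _ σ hσ ρ hρ
  classical
  have hw : (InfinitePlace.mk σ).IsComplex :=
    InfinitePlace.not_isReal_iff_isComplex.1 (by rwa [InfinitePlace.isReal_mk_iff])
  obtain ⟨τ, hτ⟩ : ∃ τ : ℂ ≃ₗ[ℝ] ℂ, ∀ a : K, τ ((InfinitePlace.mk σ).embedding a) = σ a := by
    rcases InfinitePlace.embedding_mk_eq σ with h | h
    · exact ⟨LinearEquiv.refl ℝ ℂ, fun a => by rw [h]; rfl⟩
    · exact ⟨Complex.conjAe.toLinearEquiv, fun a => by rw [h]; simp⟩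
  let e : mixedEmbedding.mixedSpace K →ₗ[ℝ] Ai σ × ℂ :=
    { toFun := fun u => ((u.1, fun w => u.2 ⟨w.1, w.2.1⟩), τ (u.2 ⟨_, hw⟩))
      map_add' := fun u v => by
        refine Prod.ext rfl ?_
        exact map_add τ _ _
      map_smul' := fun c u => by
        refine Prod.ext rfl ?_
        exact map_smul τ c _ }
  have he : Function.Bijective e := by
    constructor
    · intro u v h
      have h1 : u.1 = v.1 := congrArg (fun z => z.1.1) h
      have h2 := congrArg (fun z => z.1.2) h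
      have h3 : τ (u.2 ⟨_, hw⟩) = τ (v.2 ⟨_, hw⟩) := congrArg (fun z => z.2) h
      refine Prod.ext h1 (funext fun w => ?_)
      by_cases hq : w.1 = InfinitePlace.mk σ
      · have : w = ⟨_, hw⟩ := Subtype.ext hq
        rw [this]
        exact τ.injective h3
      · exact congrFun h2 ⟨w.1, w.2, hq⟩
    · rintro ⟨⟨r, c⟩, z⟩
      refine ⟨(r, fun w => if h : w.1 = InfinitePlace.mk σ then τ.symm z else c ⟨w.1, w.2, h⟩),
        Prod.ext (Prod.ext rfl (funext fun w => ?_)) ?_⟩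
      · exact dif_neg w.2.2
      · change τ (dite _ _ _) = z
        rw [dif_pos rfl, τ.apply_symm_apply]
  have hej : ∀ a : K, e (mixedEmbedding K a) = (io σ a, σ a) := fun a =>
    Prod.ext rfl (hτ a)
  let H : AddSubgroup (Ai σ × ℂ) :=
    ((RingHom.prod (io σ) σ).comp (algebraMap (𝓞 K) K)).toAddMonoidHom.range
  obtain ⟨C, hC, h⟩ := MINK.gen ((mixedEmbedding.latticeBasis K).map (LinearEquiv.ofBijective e he))
    H (fun i => by
      rw [Basis.map_apply, mixedEmbedding.latticeBasis_apply, LinearEquiv.ofBijective_apply, hej,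
        integralBasis_apply]
      exact ⟨_, rfl⟩) ρ hρ
  refine ⟨C, hC, fun x y => ?_⟩
  obtain ⟨v, hv0, hvH, h1, h2⟩ := h x⁻¹ y
  choose a ha using hvH
  have hv : v = fun i => (io σ (a i : K), σ (a i : K)) := funext fun i => (ha i).symm
  refine ⟨a, ?_, ?_, ?_⟩
  · rintro rfl
    apply hv0
    rw [hv]
    funext i
    simp
  · rw [hv] at h1
    exact h1
  · rw [hv] at h2
    exact h2

end Pool.Agent.Lib.BR18
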