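import Pool.Agent.Lib.BR18.Blue

/-! A modulus; finitely many orbits of quadruples with given determinants. -/

namespace Pool.Agent.Lib.BR18

open NumberField Matrix
open scoped MatrixGroups

namespace ORB

lemma core {R : Type} [CommRing R] [IsDomain R] (s t : Fin 4 → Fin 2 → R) (x : R)
    (hd : ∀ i j, t i 0 * t j 1 - t i 1 * t j 0 = s i 0 * s j 1 - s i 1 * s j 0)
    (hne : s 0 0 * s 1 1 - s 0 1 * s 1 0 ≠ 0)
    (h0 : ∀ i, ((s 0 0 * s 1 1 - s 0 1 * s 1 0) * x) ∣ t 0 i - s 0 i)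
    (h1 : ∀ i, ((s 0 0 * s 1 1 - s 0 1 * s 1 0) * x) ∣ t 1 i - s 1 i) :
    ∃ γ : SL(2, R), (∀ (a : Fin 2 → R) (i : Fin 2), x ∣ (γ.1 *ᵥ a) i - a i) ∧
      ∀ j, t j = γ.1 *ᵥ s j := by
  obtain ⟨p, hp⟩ := h0 0
  obtain ⟨r, hr⟩ := h0 1
  obtain ⟨q, hq⟩ := h1 0
  obtain ⟨u, hu⟩ := h1 1
  have e00 : t 0 0 = s 0 0 + (s 0 0 * s 1 1 - s 0 1 * s 1 0) * x * p := by linear_combination hp
  have e01 : t 0 1 = s 0 1 + (s 0 0 * s 1 1 - s 0 1 * s 1 0) * x * r := by linear_combination hr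
  have e10 : t 1 0 = s 1 0 + (s 0 0 * s 1 1 - s 0 1 * s 1 0) * x * q := by linear_combination hq
  have e11 : t 1 1 = s 1 1 + (s 0 0 * s 1 1 - s 0 1 * s 1 0) * x * u := by linear_combination hu
  have h01 := hd 0 1
  have hdet : (1 + x * (p * s 1 1 - q * s 0 1)) * (1 + x * (u * s 0 0 - r * s 1 0)) -
      x * (q * s 0 0 - p * s 1 0) * (x * (r * s 1 1 - u * s 0 1)) = 1 := by
    apply mul_left_cancel₀ hne
    rw [e00, e01, e10, e11] at h01
    linear_combination h01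
  refine ⟨⟨!![1 + x * (p * s 1 1 - q * s 0 1), x * (q * s 0 0 - p * s 1 0);
      x * (r * s 1 1 - u * s 0 1), 1 + x * (u * s 0 0 - r * s 1 0)], ?_⟩, ?_, ?_⟩
  · rw [Matrix.det_fin_two_of]; exact hdet
  · intro a i
    fin_cases i
    · refine ⟨(p * s 1 1 - q * s 0 1) * a 0 + (q * s 0 0 - p * s 1 0) * a 1, ?_⟩
      simp [Matrix.mulVec, dotProduct, Fin.sum_univ_two]; ring
    · refine ⟨(r * s 1 1 - u * s 0 1) * a 0 + (u * s 0 0 - r * s 1 0) * a 1, ?_⟩
      simp [Matrix.mulVec, dotProduct, Fin.sum_univ_two]; ring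
  · intro j
    have a0 := hd j 0
    have a1 := hd j 1
    have k0 : (s 0 0 * s 1 1 - s 0 1 * s 1 0) * t j 0 =
        (s j 0 * s 1 1 - s j 1 * s 1 0) * t 0 0 - (s j 0 * s 0 1 - s j 1 * s 0 0) * t 1 0 := by
      rw [← h01, ← a0, ← a1]; ring
    have k1 : (s 0 0 * s 1 1 - s 0 1 * s 1 0) * t j 1 =
        (s j 0 * s 1 1 - s j 1 * s 1 0) * t 0 1 - (s j 0 * s 0 1 - s j 1 * s 0 0) * t 1 1 := by
      rw [← h01, ← a0, ← a1]; ring
    rw [e00, e10] at k0
    rw [e01, e11] at k1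
    funext i
    fin_cases i
    · have : t j 0 = (1 + x * (p * s 1 1 - q * s 0 1)) * s j 0 +
          x * (q * s 0 0 - p * s 1 0) * s j 1 := by
        apply mul_left_cancel₀ hne
        linear_combination k0
      simpa [Matrix.mulVec, dotProduct, Fin.sum_univ_two] using this
    · have : t j 1 = x * (r * s 1 1 - u * s 0 1) * s j 0 +
          (1 + x * (u * s 0 0 - r * s 1 0)) * s j 1 := by
        apply mul_left_cancel₀ hne
        linear_combination k1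
      simpa [Matrix.mulVec, dotProduct, Fin.sum_univ_two] using this

lemma modulus (K : Type) [Field K] [NumberField K] (F : Set (𝓞 K)) (hF : F.Finite) :
    ∃ N : ℕ, 0 < N ∧ ∀ a ∈ F, (N : 𝓞 K) ∣ a → a = 0 := by
  classical
  let b := RingOfIntegers.basis K
  refine ⟨1 + ∑ a ∈ hF.toFinset, ∑ i, (b.repr a i).natAbs, by omega, ?_⟩
  intro a ha hdv
  set N := 1 + ∑ a ∈ hF.toFinset, ∑ i, (b.repr a i).natAbs with hN
  obtain ⟨c, hc⟩ := hdv
  have hz : ∀ i, b.repr a i = 0 := by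
    intro i
    have h1 : b.repr a i = (N : ℤ) * b.repr c i := by
      have : a = (N : ℤ) • c := by rw [hc]; simp
      rw [this, map_smul]; simp
    have h2 : (b.repr a i).natAbs < N := by
      have h3 : (b.repr a i).natAbs ≤ ∑ i, (b.repr a i).natAbs :=
        Finset.single_le_sum (f := fun i => (b.repr a i).natAbs) (fun _ _ => Nat.zero_le _)
          (Finset.mem_univ i)
      have h4 : ∑ i, (b.repr a i).natAbs ≤ ∑ a ∈ hF.toFinset, ∑ i, (b.repr a i).natAbs :=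
        Finset.single_le_sum (f := fun a => ∑ i, (b.repr a i).natAbs) (fun _ _ => Nat.zero_le _)
          (hF.mem_toFinset.2 ha)
      omega
    exact Int.eq_zero_of_dvd_of_natAbs_lt_natAbs ⟨_, h1⟩ (by simpa using h2)
  apply b.repr.injective
  ext i
  simp [hz i]

end ORB

theorem bORB : St_ORB := by
  classical
  intro K _ _ F hF
  refine ⟨ORB.modulus K F hF, ?_⟩
  intro N hN
  set D : 𝓞 K := (∏ d ∈ hF.toFinset.filter (· ≠ 0), d) * N with hD
  have hD0 : D ≠ 0 := by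
    refine mul_ne_zero (Finset.prod_ne_zero_iff.2 fun d hd => (Finset.mem_filter.1 hd).2) ?_
    exact_mod_cast hN.ne'
  have hI : Ideal.span {D} ≠ ⊥ := by simpa using hD0
  have : Finite (𝓞 K ⧸ Ideal.span {D}) := Ideal.finiteQuotientOfFreeOfNeBot _ hI
  have : Finite F := hF.to_subtype
  let T : Type := {t : Fin 4 → Lat K // (∀ i j, dO (t i) (t j) ∈ F) ∧ dO (t 0) (t 1) ≠ 0}
  let c : T → (Fin 4 → Fin 4 → F) × (Fin 4 → Fin 2 → 𝓞 K ⧸ Ideal.span {D}) := fun t =>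
    (fun i j => ⟨dO (t.1 i) (t.1 j), t.2.1 i j⟩, fun i l => Ideal.Quotient.mk _ (t.1 i l))
  let sec : Set.range c → T := fun y => y.2.choose
  have hsec : ∀ y : Set.range c, c (sec y) = y.1 := fun y => y.2.choose_spec
  refine ⟨Set.range fun y => (sec y).1, Set.finite_range _, ?_⟩
  intro t ht h0
  let t' : T := ⟨t, ht, h0⟩
  let y : Set.range c := ⟨c t', t', rfl⟩
  have hy : c (sec y) = c t' := hsec y
  refine ⟨(sec y).1, ⟨y, rfl⟩, ?_⟩
  have hd : ∀ i j, dO (t i) (t j) = dO ((sec y).1 i) ((sec y).1 j) := fun i j =>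
    (congrArg Subtype.val (congrFun (congrFun (congrArg Prod.fst hy) i) j)).symm
  have hq : ∀ i l, D ∣ t i l - (sec y).1 i l := fun i l => by
    have := (congrFun (congrFun (congrArg Prod.snd hy) i) l).symm
    exact Ideal.mem_span_singleton.1 (Ideal.Quotient.eq.1 this)
  have hdv : dO ((sec y).1 0) ((sec y).1 1) * (N : 𝓞 K) ∣ D :=
    mul_dvd_mul_right (Finset.dvd_prod_of_mem _
      (Finset.mem_filter.2 ⟨hF.mem_toFinset.2 ((sec y).2.1 0 1), (sec y).2.2⟩)) _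
  obtain ⟨γ, h1, h2⟩ := ORB.core (sec y).1 t (N : 𝓞 K) hd (sec y).2.2
    (fun i => hdv.trans (hq 0 i)) (fun i => hdv.trans (hq 1 i))
  exact ⟨γ, h1, h2⟩

end Pool.Agent.Lib.BR18
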