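import Pool.Agent.Lib.BR18.Blue

/-! Row ORN: algebra of the orientation of four vectors. -/

namespace Pool.Agent.Lib.BR18

open Matrix
open scoped MatrixGroups ComplexConjugate

namespace ORN

lemma im_swap (a b : ℂ) : (a * conj b).im = -(b * conj a).im := by
  simp only [Complex.mul_im, Complex.conj_re, Complex.conj_im]; ring

lemma im_self (a : ℂ) : (a * conj a).im = 0 := by
  simp only [Complex.mul_im, Complex.conj_re, Complex.conj_im]; ring

lemma dt_swap (u v : V) : dt u v = -dt v u := by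
  simp only [dt]; ring

lemma dt_self (u : V) : dt u u = 0 := by
  simp only [dt]; ring

lemma orn_eq (t : Fin 4 → V) (a b c d : V) (h0 : t 0 = a) (h1 : t 1 = b) (h2 : t 2 = c)
    (h3 : t 3 = d) : orn t = (dt a d * dt b c * conj (dt a c * dt b d)).im := by
  rw [orn, h0, h1, h2, h3]

lemma orn_cn (m : V) (f : Fin 3 → V) :
    orn (cn m f) = (dt m (f 2) * dt (f 0) (f 1) * conj (dt m (f 1) * dt (f 0) (f 2))).im :=
  orn_eq _ m (f 0) (f 1) (f 2) rfl rfl rfl rfl

lemma klein (t : Fin 4 → V) (j : Fin 4) : orn (t ∘ kl j) = orn t := by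
  have e : ∀ a b c d : Fin 4, kl j 0 = a → kl j 1 = b → kl j 2 = c → kl j 3 = d →
      orn (t ∘ kl j) = (dt (t a) (t d) * dt (t b) (t c) *
        conj (dt (t a) (t c) * dt (t b) (t d))).im := fun a b c d h0 h1 h2 h3 =>
    orn_eq _ _ _ _ _ (congrArg t h0) (congrArg t h1) (congrArg t h2) (congrArg t h3)
  have hj : ∀ k : Fin 4, k = 0 ∨ k = 1 ∨ k = 2 ∨ k = 3 := by decide
  rcases hj j with rfl | rfl | rfl | rfl
  · rw [e 0 1 2 3 (by decide) (by decide) (by decide) (by decide), orn]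
  · rw [e 1 0 3 2 (by decide) (by decide) (by decide) (by decide), orn,
      mul_comm (dt (t 1) (t 2)), mul_comm (dt (t 1) (t 3))]
  · rw [e 2 3 0 1 (by decide) (by decide) (by decide) (by decide), orn,
      dt_swap (t 2) (t 1), dt_swap (t 3) (t 0), dt_swap (t 2) (t 0), dt_swap (t 3) (t 1),
      neg_mul_neg, neg_mul_neg, mul_comm (dt (t 1) (t 2))]
  · rw [e 3 2 1 0 (by decide) (by decide) (by decide) (by decide), orn,
      dt_swap (t 2) (t 1), dt_swap (t 3) (t 0), dt_swap (t 2) (t 0), dt_swap (t 3) (t 1),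
      neg_mul_neg, neg_mul_neg, mul_comm (dt (t 1) (t 3))]

lemma refl_face (m : V) (f : Fin 3 → V) : orn (cn m (f ∘ sw)) = -orn (cn m f) := by
  have h0 : sw 0 = 0 := by decide
  have h1 : sw 1 = 2 := by decide
  have h2 : sw 2 = 1 := by decide
  rw [orn_cn, orn_cn]
  simp only [Function.comp, h0, h1, h2]
  exact im_swap _ _

lemma nondeg (t : Fin 4 → V) (h : orn t ≠ 0) (i j : Fin 4) (hij : i ≠ j) :
    dt (t i) (t j) ≠ 0 := by
  have hA : dt (t 0) (t 3) * dt (t 1) (t 2) ≠ 0 := fun h0 => h (by rw [orn, h0]; simp)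
  have hB : dt (t 0) (t 2) * dt (t 1) (t 3) ≠ 0 := fun h0 => h (by rw [orn, h0]; simp)
  have hD : dt (t 0) (t 1) * dt (t 2) (t 3) ≠ 0 := fun h0 => h (by
    have e : dt (t 0) (t 3) * dt (t 1) (t 2) = dt (t 0) (t 2) * dt (t 1) (t 3) := by
      simp only [dt] at h0 ⊢
      linear_combination -h0
    rw [orn, e]; exact im_self _)
  have a1 := left_ne_zero_of_mul hA
  have a2 := right_ne_zero_of_mul hA
  have b1 := left_ne_zero_of_mul hB
  have b2 := right_ne_zero_of_mul hB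
  have d1 := left_ne_zero_of_mul hD
  have d2 := right_ne_zero_of_mul hD
  have s : ∀ u v : V, dt u v ≠ 0 → dt v u ≠ 0 := fun u v huv => by
    rw [dt_swap]; exact neg_ne_zero.mpr huv
  have hi : ∀ k : Fin 4, k = 0 ∨ k = 1 ∨ k = 2 ∨ k = 3 := by decide
  rcases hi i with rfl | rfl | rfl | rfl <;> rcases hi j with rfl | rfl | rfl | rfl <;>
    first
      | exact absurd rfl hij
      | assumption
      | (apply s; assumption)

lemma pos_iff (a b : ℂ) : 0 < (a * conj b).im ↔ 0 < (a / b).im := by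
  by_cases hb : b = 0
  · subst hb; simp
  · have hn : 0 < Complex.normSq b := Complex.normSq_pos.mpr hb
    have e : (a / b).im = (a * conj b).im / Complex.normSq b := by
      rw [Complex.div_im]
      simp only [Complex.mul_im, Complex.conj_re, Complex.conj_im]
      ring
    rw [e, div_pos_iff_of_pos_right hn]

lemma dt_sl (g : SL(2, ℂ)) (u v : V) : dt (g.1 *ᵥ u) (g.1 *ᵥ v) = dt u v := by
  have h := g.2
  rw [Matrix.det_fin_two] at h
  simp only [dt, Matrix.mulVec, dotProduct, Fin.sum_univ_two]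
  linear_combination (u 0 * v 1 - u 1 * v 0) * h

lemma ev_eq (l : Fin 4 → ℝ) (u : V) : ev l u = l 0 * Complex.normSq (u 0) +
    l 1 * Complex.normSq (u 1) + l 2 * (u 0 * conj (u 1)).re + l 3 * (u 0 * conj (u 1)).im := by
  simp only [ev, Fin.sum_univ_four]
  rfl

lemma pull (h : Matrix (Fin 2) (Fin 2) ℂ) (l : Fin 4 → ℝ) :
    ∃ l', ∀ w, ev l' w = ev l (h *ᵥ w) := by
  refine ⟨![l 0 * Complex.normSq (h 0 0) + l 1 * Complex.normSq (h 1 0) +
      l 2 * (h 0 0 * conj (h 1 0)).re + l 3 * (h 0 0 * conj (h 1 0)).im,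
    l 0 * Complex.normSq (h 0 1) + l 1 * Complex.normSq (h 1 1) +
      l 2 * (h 0 1 * conj (h 1 1)).re + l 3 * (h 0 1 * conj (h 1 1)).im,
    l 0 * (2 * (h 0 0 * conj (h 0 1)).re) + l 1 * (2 * (h 1 0 * conj (h 1 1)).re) +
      l 2 * ((h 0 0 * conj (h 1 1)).re + (h 0 1 * conj (h 1 0)).re) +
      l 3 * ((h 0 0 * conj (h 1 1)).im + (h 0 1 * conj (h 1 0)).im),
    l 0 * (-2 * (h 0 0 * conj (h 0 1)).im) + l 1 * (-2 * (h 1 0 * conj (h 1 1)).im) +
      l 2 * (-(h 0 0 * conj (h 1 1)).im + (h 0 1 * conj (h 1 0)).im) +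
      l 3 * ((h 0 0 * conj (h 1 1)).re - (h 0 1 * conj (h 1 0)).re)], fun w => ?_⟩
  rw [ev_eq, ev_eq]
  have e0 : (h *ᵥ w) 0 = h 0 0 * w 0 + h 0 1 * w 1 := by
    simp only [Matrix.mulVec, dotProduct, Fin.sum_univ_two]
  have e1 : (h *ᵥ w) 1 = h 1 0 * w 0 + h 1 1 * w 1 := by
    simp only [Matrix.mulVec, dotProduct, Fin.sum_univ_two]
  rw [e0, e1]
  simp only [Matrix.cons_val_zero, Matrix.cons_val_one, Matrix.cons_val_two, Matrix.cons_val_three,
    Matrix.head_cons, Matrix.tail_cons, Complex.normSq_apply, map_add, map_mul, Complex.add_re,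
    Complex.add_im, Complex.mul_re, Complex.mul_im, Complex.conj_re, Complex.conj_im]
  ring

lemma push (g : SL(2, ℂ)) (l : Fin 4 → ℝ) : ∃ l', ∀ u, ev l' (g.1 *ᵥ u) = ev l u := by
  obtain ⟨l', hl⟩ := pull (g⁻¹).1 l
  refine ⟨l', fun u => ?_⟩
  have e : (g⁻¹).1 * g.1 = 1 := by
    rw [← Matrix.SpecialLinearGroup.coe_mul, inv_mul_cancel]; rfl
  rw [hl, Matrix.mulVec_mulVec, e, Matrix.one_mulVec]

lemma own (f : Fin 3 → V) (j : Fin 3) : orn (cn (f j) f) = 0 := by
  rw [orn_cn]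
  have hj : ∀ k : Fin 3, k = 0 ∨ k = 1 ∨ k = 2 := by decide
  rcases hj j with rfl | rfl | rfl
  · rw [mul_comm (dt (f 0) (f 2))]; exact im_self _
  · rw [dt_self]; simp
  · rw [dt_self]; simp

end ORN

theorem bORN : St_ORN :=
  ⟨ORN.klein, ORN.refl_face, ORN.nondeg, fun _ => ORN.pos_iff _ _, ORN.dt_sl, ORN.push, ORN.own⟩

end Pool.Agent.Lib.BR18
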