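import Pool.Agent.Lib.BR18.Blue

/-! Row PERT: a form close to the square norm with given values at four vectors. -/

namespace Pool.Agent.Lib.BR18

open Finset
open scoped ComplexConjugate

namespace PERT

lemma nsq_nonneg (u : V) : 0 ≤ nsq u := add_nonneg (Complex.normSq_nonneg _) (Complex.normSq_nonneg _)

lemma pv_le (u : V) (i : Fin 4) : |pv u i| ≤ nsq u := by
  have h0 := Complex.normSq_nonneg (u 0)
  have h1 := Complex.normSq_nonneg (u 1)
  have h2 : ‖u 0 * conj (u 1)‖ ≤ nsq u := by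
    rw [norm_mul, Complex.norm_conj, nsq, Complex.normSq_eq_norm_sq, Complex.normSq_eq_norm_sq]
    nlinarith [sq_nonneg (‖u 0‖ - ‖u 1‖), norm_nonneg (u 0), norm_nonneg (u 1)]
  fin_cases i
  · show |Complex.normSq (u 0)| ≤ nsq u
    rw [abs_of_nonneg h0, nsq]
    linarith
  · show |Complex.normSq (u 1)| ≤ nsq u
    rw [abs_of_nonneg h1, nsq]
    linarith
  · exact (Complex.abs_re_le_norm _).trans h2
  · exact (Complex.abs_im_le_norm _).trans h2

lemma ev_le (ν : Fin 4 → ℝ) (u : V) : |ev ν u| ≤ (∑ i, |ν i|) * nsq u := by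
  rw [ev, sum_mul]
  refine (abs_sum_le_sum_abs _ _).trans (sum_le_sum fun i _ => ?_)
  rw [abs_mul]
  exact mul_le_mul_of_nonneg_left (pv_le u i) (abs_nonneg _)

lemma ev_comb (ν : Fin 4 → Fin 4 → ℝ) (c : Fin 4 → ℝ) (u : V) :
    ev (fun i => (![1, 1, 0, 0] : Fin 4 → ℝ) i + ∑ j, c j * ν j i) u =
      nsq u + ∑ j, c j * ev (ν j) u := by
  simp only [ev, nsq, Fin.sum_univ_four, pv, Matrix.cons_val_zero, Matrix.cons_val_one,
    Matrix.cons_val]
  ring

lemma kl_succ (j i : Fin 4) (h : i ≠ j) : ∃ m : Fin 3, kl j m.succ = i := by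
  revert j i
  decide

end PERT

theorem bPERT (hO : St_ORN) (hH : St_HERM) : St_PERT := by
  intro t ht
  choose ν hν using fun j : Fin 4 => hH.1 (tl (t ∘ kl j))
  have h1 : ∀ j, ev (ν j) (t j) = orn t := fun j => by
    rw [hν, ← hO.1 t j]
    have h := cn_tl (t ∘ kl j)
    rw [Function.comp_apply, kl_zero] at h
    rw [h]
  have h2 : ∀ j i, i ≠ j → ev (ν j) (t i) = 0 := fun j i h => by
    obtain ⟨m, hm⟩ := PERT.kl_succ j i h
    rw [hν, ← hm]
    exact hO.2.2.2.2.2.2 (tl (t ∘ kl j)) m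
  obtain ⟨K, hK⟩ : ∃ K : ℝ, K = ∑ j, ∑ i, |ν j i| + 1 := ⟨_, rfl⟩
  have hK0 : 0 ≤ ∑ j, ∑ i, |ν j i| := sum_nonneg fun j _ => sum_nonneg fun i _ => abs_nonneg _
  have hK1 : 0 < K := by linarith
  have ho : 0 < |orn t| := abs_pos.2 ht
  refine ⟨|orn t| / (2 * K), by positivity, fun e he =>
    ⟨fun i => (![1, 1, 0, 0] : Fin 4 → ℝ) i + ∑ j, (e j - nsq (t j)) / orn t * ν j i,
      fun i => ?_, fun u => ?_⟩⟩
  · rw [PERT.ev_comb, sum_eq_single i (fun j _ h => by rw [h2 j i h.symm, mul_zero])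
      (fun h => (h (mem_univ i)).elim), h1, div_mul_cancel₀ _ ht]
    ring
  · rw [PERT.ev_comb]
    have hn := PERT.nsq_nonneg u
    have h3 : ∀ j, |(e j - nsq (t j)) / orn t| ≤ 1 / (2 * K) := fun j => by
      rw [abs_div, div_le_iff₀ ho]
      refine (he j).trans (le_of_eq ?_)
      ring
    have h4 : |∑ j, (e j - nsq (t j)) / orn t * ev (ν j) u| ≤
        1 / (2 * K) * ((∑ j, ∑ i, |ν j i|) * nsq u) := by
      rw [sum_mul, mul_sum]
      refine (abs_sum_le_sum_abs _ _).trans (sum_le_sum fun j _ => ?_)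
      rw [abs_mul]
      exact mul_le_mul (h3 j) (PERT.ev_le _ _) (abs_nonneg _) (by positivity)
    have h5 : 1 / (2 * K) * ((∑ j, ∑ i, |ν j i|) * nsq u) ≤ 1 / (2 * K) * (K * nsq u) :=
      mul_le_mul_of_nonneg_left (mul_le_mul_of_nonneg_right (by linarith) hn) (by positivity)
    have h6 : 1 / (2 * K) * (K * nsq u) = nsq u / 2 := by
      field_simp
    have h7 := (abs_le.1 h4).1
    linarith

end Pool.Agent.Lib.BR18
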