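import Pool.Agent.Lib.BR18.Blue

/-! Row PIV: the pivot step across a face. -/

namespace Pool.Agent.Lib.BR18

open scoped ComplexConjugate

namespace PIV

lemma pv_le (u : V) (i : Fin 4) : |pv u i| ≤ ‖u‖ ^ 2 := by
  have h0 : ‖u 0‖ ≤ ‖u‖ := norm_le_pi_norm u 0
  have h1 : ‖u 1‖ ≤ ‖u‖ := norm_le_pi_norm u 1
  have h2 : ‖u 0 * conj (u 1)‖ ≤ ‖u‖ ^ 2 := by
    rw [norm_mul, RCLike.norm_conj, sq]
    exact mul_le_mul h0 h1 (norm_nonneg _) (norm_nonneg _)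
  fin_cases i
  · show |Complex.normSq (u 0)| ≤ ‖u‖ ^ 2
    rw [abs_of_nonneg (Complex.normSq_nonneg _), Complex.normSq_eq_norm_sq]
    exact pow_le_pow_left₀ (norm_nonneg _) h0 2
  · show |Complex.normSq (u 1)| ≤ ‖u‖ ^ 2
    rw [abs_of_nonneg (Complex.normSq_nonneg _), Complex.normSq_eq_norm_sq]
    exact pow_le_pow_left₀ (norm_nonneg _) h1 2
  · exact (Complex.abs_re_le_norm _).trans h2
  · exact (Complex.abs_im_le_norm _).trans h2

lemma ev_bound (μ : Fin 4 → ℝ) : ∃ M : ℝ, 0 < M ∧ ∀ u, -ev μ u ≤ M * ‖u‖ ^ 2 := by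
  refine ⟨∑ i, |μ i| + 1, by positivity, fun u => ?_⟩
  have h1 : |ev μ u| ≤ (∑ i, |μ i|) * ‖u‖ ^ 2 := by
    rw [Finset.sum_mul]
    refine (Finset.abs_sum_le_sum_abs _ _).trans (Finset.sum_le_sum fun i _ => ?_)
    rw [abs_mul]
    exact mul_le_mul_of_nonneg_left (pv_le u i) (abs_nonneg _)
  have h2 := neg_abs_le (ev μ u)
  nlinarith [sq_nonneg ‖u‖]

lemma ev_smul (s : ℝ) (ν : Fin 4 → ℝ) (u : V) : ev (s • ν) u = s * ev ν u := by
  simp only [ev, Pi.smul_apply, smul_eq_mul, Fin.sum_univ_four]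
  ring

/-- moving along `μ` as far as the ratios allow keeps the form feasible -/
lemma feas_move {L : Type} (p : L → V) (η : L → ℝ) (W : Set L) (l μ : Fin 4 → ℝ) (s : ℝ)
    (hl : Feas p η W l) (hs : 0 ≤ s)
    (h : ∀ a ∈ W, ev μ (p a) < 0 → s ≤ (ev l (p a) - η a) / -ev μ (p a)) :
    Feas p η W (l + s • μ) := by
  intro a ha
  rw [ev_add_smul]
  rcases lt_or_ge (ev μ (p a)) 0 with h1 | h1
  · have h2 := h a ha h1
    rw [le_div_iff₀ (by linarith)] at h2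
    linarith
  · have h2 := hl a ha
    have h3 := mul_nonneg hs h1
    linarith

/-- the ratio test has a winner -/
lemma ratio {L : Type} (p : L → V) (η : L → ℝ) (W : Set L) (η1 : ℝ) (hη : ∀ a, η a ≤ η1)
    (hpos : ∀ l, Feas p η W l → ∃ κ : ℝ, 0 < κ ∧ ∀ u, κ * ‖u‖ ^ 2 ≤ ev l u)
    (hfin : ∀ B : ℝ, {a | a ∈ W ∧ ‖p a‖ ≤ B}.Finite) (l μ : Fin 4 → ℝ) (hl : Feas p η W l)
    (hu : ∃ u, ev μ u < 0) :
    ∃ m ∈ W, ev μ (p m) < 0 ∧ ∃ s : ℝ, Feas p η W (l + s • μ) ∧ ev (l + s • μ) (p m) = η m := by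
  obtain ⟨u, hu⟩ := hu
  obtain ⟨r, hr⟩ : ∃ r : L → ℝ, ∀ a, r a = (ev l (p a) - η a) / -ev μ (p a) := ⟨_, fun _ => rfl⟩
  have hr0 : ∀ a ∈ W, ev μ (p a) < 0 → 0 ≤ r a := fun a ha h => by
    rw [hr]
    exact div_nonneg (sub_nonneg.2 (hl a ha)) (by linarith)
  have hne : (r '' {a | a ∈ W ∧ ev μ (p a) < 0}).Nonempty := by
    by_contra hcon
    have h1 : ∀ a ∈ W, ¬ ev μ (p a) < 0 := fun a ha h => hcon ⟨_, a, ⟨ha, h⟩, rfl⟩
    have hs : 0 ≤ (|ev l u| + 1) / -ev μ u := div_nonneg (by positivity) (by linarith)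
    obtain ⟨κ, hκ, h2⟩ := hpos _
      (feas_move p η W l μ _ hl hs fun a ha h => absurd h (h1 a ha))
    have h3 := h2 u
    rw [ev_add_smul] at h3
    have h4 : (|ev l u| + 1) / -ev μ u * ev μ u = -(|ev l u| + 1) := by
      have : ev μ u ≠ 0 := hu.ne
      field_simp
    have h5 := le_abs_self (ev l u)
    have h6 : 0 ≤ κ * ‖u‖ ^ 2 := by positivity
    linarith
  have hbd : BddBelow (r '' {a | a ∈ W ∧ ev μ (p a) < 0}) :=
    ⟨0, by rintro _ ⟨a, ha, rfl⟩; exact hr0 a ha.1 ha.2⟩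
  obtain ⟨s, hs⟩ : ∃ s, s = sInf (r '' {a | a ∈ W ∧ ev μ (p a) < 0}) := ⟨_, rfl⟩
  have hs0 : 0 ≤ s := by
    rw [hs]
    exact le_csInf hne (by rintro _ ⟨a, ha, rfl⟩; exact hr0 a ha.1 ha.2)
  have hs1 : ∀ a ∈ W, ev μ (p a) < 0 → s ≤ r a := fun a ha h => by
    rw [hs]
    exact csInf_le hbd ⟨a, ⟨ha, h⟩, rfl⟩
  obtain ⟨κ, hκ, hk⟩ := hpos _
    (feas_move p η W l μ s hl hs0 fun a ha h => hr a ▸ hs1 a ha h)
  obtain ⟨M, hM, hMb⟩ := ev_bound μ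
  have hε : 0 < κ / (2 * M) := by positivity
  have hS : {a | (a ∈ W ∧ ev μ (p a) < 0) ∧ r a < s + κ / (2 * M)}.Finite := by
    refine (hfin (2 * η1 / κ + 1)).subset fun a ha => ⟨ha.1.1, ?_⟩
    have h1 := ha.2
    have h2 : 0 < -ev μ (p a) := by linarith [ha.1.2]
    rw [hr, div_lt_iff₀ h2] at h1
    have h3 := hk (p a)
    rw [ev_add_smul] at h3
    have h4 : κ / (2 * M) * -ev μ (p a) ≤ κ / (2 * M) * (M * ‖p a‖ ^ 2) :=
      mul_le_mul_of_nonneg_left (hMb _) hε.le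
    have h5 : κ / (2 * M) * (M * ‖p a‖ ^ 2) = κ * ‖p a‖ ^ 2 / 2 := by field_simp
    have h6 : κ * ‖p a‖ ^ 2 ≤ 2 * η1 := by nlinarith [hη a]
    have h7 : ‖p a‖ ^ 2 ≤ 2 * η1 / κ := by
      rw [le_div_iff₀ hκ]
      linarith
    nlinarith [sq_nonneg (‖p a‖ - 1), sq_nonneg ‖p a‖]
  have hSne : {a | (a ∈ W ∧ ev μ (p a) < 0) ∧ r a < s + κ / (2 * M)}.Nonempty := by
    obtain ⟨_, ⟨a, ha, rfl⟩, h⟩ := exists_lt_of_csInf_lt hne
      (show sInf (r '' {a | a ∈ W ∧ ev μ (p a) < 0}) < s + κ / (2 * M) by rw [← hs]; linarith)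
    exact ⟨a, ha, h⟩
  obtain ⟨m, hm, hmin⟩ := Set.exists_min_image _ r hS hSne
  refine ⟨m, hm.1.1, hm.1.2, r m, ?_, ?_⟩
  · refine feas_move p η W l μ _ hl (hr0 m hm.1.1 hm.1.2) fun a ha h => ?_
    rw [← hr]
    rcases lt_or_ge (r a) (s + κ / (2 * M)) with h1 | h1
    · exact hmin a ⟨⟨ha, h⟩, h1⟩
    · exact hm.2.le.trans h1
  · rw [ev_add_smul, hr]
    have : ev μ (p m) ≠ 0 := hm.1.2.ne
    field_simp
    ring

end PIV

theorem bPIV (hORN : St_ORN) (hHERM : St_HERM) (hPOS : St_POS) : St_PIV := by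
  intro L p η W C η0 η1 hC h0 hη hMk hfin hGen
  have hz := hORN.2.2.2.2.2.2
  refine ⟨fun m f hD ho => ?_, fun m m' f hD hD' ho => ?_⟩
  · obtain ⟨hW, l, hl, ht⟩ := hD
    obtain ⟨ν, hν⟩ := hHERM.1 (p ∘ f)
    obtain ⟨u, hu⟩ := hHERM.2.2 _ ho
    have hμ : ∀ v, ev (orn (p ∘ cn m f) • ν) v = orn (cn v (p ∘ f)) * orn (p ∘ cn m f) := by
      intro v
      rw [PIV.ev_smul, hν, mul_comm]
    obtain ⟨m', hm', h1, s, h2, h3⟩ := PIV.ratio p η W η1 (fun a => (hη a).2)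
      (fun l hl => (hPOS L p η W C η0 η1 hC h0 hη hMk l hl).1) hfin l (orn (p ∘ cn m f) • ν) hl
      ⟨u, by rw [hμ]; exact hu⟩
    refine ⟨m', ⟨fun j => ?_, _, h2, fun j => ?_⟩, ?_⟩
    · exact Fin.cases hm' (fun i => hW i.succ) j
    · refine Fin.cases h3 (fun i => ?_) j
      have h4 : ev l (p (f i)) = η (f i) := ht i.succ
      have h5 : orn (cn (p (f i)) (p ∘ f)) = 0 := hz (p ∘ f) i
      show ev (l + s • orn (p ∘ cn m f) • ν) (p (f i)) = η (f i)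
      rw [ev_add_smul, hμ, h5, h4]
      ring
    · rw [comp_cn p m' f, ← hμ]
      exact h1
  · obtain ⟨hW, l, hl, ht⟩ := hD
    obtain ⟨hW', l', hl', ht'⟩ := hD'
    have ho1 : orn (p ∘ cn m f) ≠ 0 := fun h => by rw [h, mul_zero] at ho; exact lt_irrefl _ ho
    obtain ⟨s, hs⟩ := hHERM.2.1 (p ∘ cn m f) (l' + (-1 : ℝ) • l) ho1 fun j => by
      have h1 : ev l (p (f j)) = η (f j) := ht j.succ
      have h2 : ev l' (p (f j)) = η (f j) := ht' j.succ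
      show ev (l' + (-1 : ℝ) • l) (p (f j)) = 0
      rw [ev_add_smul, h1, h2]
      ring
    have e1 : ev l' (p m) + -1 * ev l (p m) = s * orn (p ∘ cn m f) := by
      rw [← ev_add_smul, hs, comp_cn p m f]
      rfl
    have e2 : ev l' (p m') + -1 * ev l (p m') = s * orn (p ∘ cn m' f) := by
      rw [← ev_add_smul, hs, comp_cn p m' f]
      rfl
    have e3 : ev l (p m) = η m := ht 0
    have e4 : ev l' (p m') = η m' := ht' 0
    have e5 : η m ≤ ev l' (p m) := hl' m (hW 0)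
    have e6 : η m' ≤ ev l (p m') := hl m' (hW' 0)
    have e7 : 0 ≤ s * orn (p ∘ cn m f) := by linarith
    have e8 : 0 ≤ s * orn (p ∘ cn m' f) := by
      by_contra hcon
      have h1 := mul_pos (neg_pos.2 (not_le.1 hcon)) ho
      nlinarith [mul_nonneg e7 (sq_nonneg (orn (p ∘ cn m' f)))]
    obtain ⟨j, hj⟩ := hGen l (cn m f) m' hl hW ht ho1 (hW' 0) (by linarith)
    revert hj
    refine Fin.cases (fun hj => hj.symm) (fun i hj => ?_) j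
    have h1 : m' = f i := hj
    have h2 : orn (p ∘ cn m' f) = 0 := by
      rw [comp_cn, h1]
      exact hz (p ∘ f) i
    rw [h2, zero_mul] at ho
    exact absurd ho (lt_irrefl _)

end Pool.Agent.Lib.BR18
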