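import Pool.Agent.Lib.BR18.Blue

/-! Row POS: feasible forms are uniformly definite. -/

namespace Pool.Agent.Lib.BR18

open Matrix
open scoped MatrixGroups ComplexConjugate

namespace POS

/-- the shift of the completed square -/
noncomputable def gam (l : Fin 4 → ℝ) : ℂ := ⟨l 2 / (2 * l 0), l 3 / (2 * l 0)⟩

/-- the discriminant -/
noncomputable def dis (l : Fin 4 → ℝ) : ℝ := l 0 * l 1 - (l 2 ^ 2 + l 3 ^ 2) / 4

lemma ev_sq (l : Fin 4 → ℝ) (h : l 0 ≠ 0) (u : V) :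
    ev l u = l 0 * ‖u 0 + gam l * u 1‖ ^ 2 + dis l / l 0 * ‖u 1‖ ^ 2 := by
  rw [← Complex.normSq_eq_norm_sq, ← Complex.normSq_eq_norm_sq]
  simp only [ev, pv, Fin.sum_univ_four, gam, dis, Complex.normSq_apply, Complex.add_re,
    Complex.add_im, Complex.mul_re, Complex.mul_im, Complex.conj_re, Complex.conj_im,
    Matrix.cons_val_zero, Matrix.cons_val_one, Matrix.cons_val]
  field_simp
  ring

/-- the identity form -/
def idf : Fin 4 → ℝ := ![1, 1, 0, 0]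

lemma ev_idf (u : V) : ev idf u = ‖u 0‖ ^ 2 + ‖u 1‖ ^ 2 := by
  rw [← Complex.normSq_eq_norm_sq, ← Complex.normSq_eq_norm_sq]
  simp [ev, pv, idf, Fin.sum_univ_four]

lemma norm_sq_le (u : V) : ‖u‖ ^ 2 ≤ ev idf u := by
  rw [ev_idf]
  have h0 := norm_nonneg (u 0)
  have h1 := norm_nonneg (u 1)
  have h : ‖u‖ ≤ max ‖u 0‖ ‖u 1‖ := by
    refine (pi_norm_le_iff_of_nonneg (le_max_of_le_left h0)).2 fun i => ?_
    fin_cases i
    · exact le_max_left _ _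
    · exact le_max_right _ _
  have h2 : ‖u‖ ^ 2 ≤ (max ‖u 0‖ ‖u 1‖) ^ 2 := pow_le_pow_left₀ (norm_nonneg _) h 2
  rcases le_total ‖u 0‖ ‖u 1‖ with h3 | h3
  · rw [max_eq_right h3] at h2; nlinarith [sq_nonneg ‖u 0‖]
  · rw [max_eq_left h3] at h2; nlinarith [sq_nonneg ‖u 1‖]

lemma low {L : Type} (p : L → V) (W : Set L) (C η0 : ℝ) (hM : Mk p W C)
    (l : Fin 4 → ℝ) (hF : ∀ a ∈ W, η0 ≤ ev l (p a)) (h0 : 0 < l 0) (hD : 0 < dis l) :
    η0 ≤ 2 * Real.sqrt (dis l) * C ^ 2 := by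
  set s := Real.sqrt (dis l) with hs
  have hs0 : 0 < s := Real.sqrt_pos.2 hD
  have hs2 : s ^ 2 = dis l := Real.sq_sqrt hD.le
  set r := Real.sqrt (l 0 / s) with hr
  have hr0 : 0 < r := Real.sqrt_pos.2 (div_pos h0 hs0)
  have hr2 : r ^ 2 = l 0 / s := Real.sq_sqrt (div_pos h0 hs0).le
  have hrc : (r : ℂ) ≠ 0 := Complex.ofReal_ne_zero.2 hr0.ne'
  have hdet : Matrix.det !![(r : ℂ), r * gam l; 0, (r : ℂ)⁻¹] = 1 := by
    rw [Matrix.det_fin_two_of, mul_inv_cancel₀ hrc]; simp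
  obtain ⟨a, ha, hb⟩ := hM ⟨_, hdet⟩
  have e0 : (!![(r : ℂ), r * gam l; 0, (r : ℂ)⁻¹] *ᵥ p a) 0 = r * (p a 0 + gam l * p a 1) := by
    simp [Matrix.mulVec, dotProduct, Fin.sum_univ_two]; ring
  have e1 : (!![(r : ℂ), r * gam l; 0, (r : ℂ)⁻¹] *ᵥ p a) 1 = (r : ℂ)⁻¹ * p a 1 := by
    simp [Matrix.mulVec, dotProduct, Fin.sum_univ_two]
  have b0 : r * ‖p a 0 + gam l * p a 1‖ ≤ C := by
    have := (norm_le_pi_norm _ 0).trans hb
    rw [e0, norm_mul, Complex.norm_real, Real.norm_of_nonneg hr0.le] at this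
    exact this
  have b1 : r⁻¹ * ‖p a 1‖ ≤ C := by
    have := (norm_le_pi_norm _ 1).trans hb
    rw [e1, norm_mul, norm_inv, Complex.norm_real, Real.norm_of_nonneg hr0.le] at this
    exact this
  have c0 : (r * ‖p a 0 + gam l * p a 1‖) ^ 2 ≤ C ^ 2 :=
    pow_le_pow_left₀ (mul_nonneg hr0.le (norm_nonneg _)) b0 2
  have c1 : (r⁻¹ * ‖p a 1‖) ^ 2 ≤ C ^ 2 :=
    pow_le_pow_left₀ (mul_nonneg (inv_pos.2 hr0).le (norm_nonneg _)) b1 2
  have d0 : l 0 * ‖p a 0 + gam l * p a 1‖ ^ 2 = s * (r * ‖p a 0 + gam l * p a 1‖) ^ 2 := by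
    rw [mul_pow, hr2]; field_simp
  have d1 : dis l / l 0 * ‖p a 1‖ ^ 2 = s * (r⁻¹ * ‖p a 1‖) ^ 2 := by
    rw [mul_pow, inv_pow, hr2, ← hs2]; field_simp
  have := hF a ha
  rw [ev_sq l h0.ne', d0, d1] at this
  nlinarith [mul_le_mul_of_nonneg_left c0 hs0.le, mul_le_mul_of_nonneg_left c1 hs0.le]

lemma shift (l : Fin 4 → ℝ) : ∃ lam R : ℝ, 0 ≤ R ∧ ∀ τ : ℝ,
    τ + lam ≤ (l + τ • idf) 0 ∧ dis (l + τ • idf) = (τ + lam) * (τ + lam + 2 * R) := by
  set q := ((l 0 - l 1) / 2) ^ 2 + (l 2 ^ 2 + l 3 ^ 2) / 4 with hq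
  have hq0 : 0 ≤ q := by positivity
  have hR2 : Real.sqrt q ^ 2 = q := Real.sq_sqrt hq0
  have hR : (l 1 - l 0) / 2 ≤ Real.sqrt q := by
    refine Real.le_sqrt_of_sq_le ?_
    rw [hq]; nlinarith [sq_nonneg (l 2), sq_nonneg (l 3)]
  refine ⟨(l 0 + l 1) / 2 - Real.sqrt q, Real.sqrt q, Real.sqrt_nonneg _, fun τ => ⟨?_, ?_⟩⟩
  · simp only [Pi.add_apply, Pi.smul_apply, smul_eq_mul, idf, Matrix.cons_val_zero]
    linarith
  · simp only [dis, Pi.add_apply, Pi.smul_apply, smul_eq_mul, idf, Matrix.cons_val_zero,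
      Matrix.cons_val_one, Matrix.cons_val]
    nlinarith [hR2]

lemma dt_le (l : Fin 4 → ℝ) (h0 : 0 < l 0) (hD : 0 < dis l) (u v : V) :
    dis l * ‖dt u v‖ ^ 2 ≤ ev l u * ev l v := by
  have e : dt u v = (u 0 + gam l * u 1) * v 1 - u 1 * (v 0 + gam l * v 1) := by
    unfold dt; ring
  have hn : ‖dt u v‖ ≤ ‖u 0 + gam l * u 1‖ * ‖v 1‖ + ‖u 1‖ * ‖v 0 + gam l * v 1‖ := by
    rw [e, ← norm_mul, ← norm_mul]; exact norm_sub_le _ _
  have h2 := pow_le_pow_left₀ (norm_nonneg _) hn 2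
  rw [ev_sq l h0.ne' u, ev_sq l h0.ne' v]
  set x := ‖u 0 + gam l * u 1‖
  set y := ‖u 1‖
  set z := ‖v 0 + gam l * v 1‖
  set w := ‖v 1‖
  set m := dis l / l 0 with hm
  have hd : dis l = l 0 * m := by rw [hm]; field_simp
  have h3 := mul_le_mul_of_nonneg_left h2 hD.le
  refine h3.trans ?_
  rw [hd]
  nlinarith [sq_nonneg (l 0 * x * z - m * y * w)]

end POS

open POS in
theorem bPOS : St_POS := by
  intro L p η W C η0 η1 hC h0 hη hM l hF
  have hF0 : ∀ a ∈ W, η0 ≤ ev l (p a) := fun a ha => (hη a).1.trans (hF a ha)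
  obtain ⟨lam, R, hR, hs⟩ := shift l
  set ε := η0 / (2 * C ^ 2) with hε
  have hε0 : 0 < ε := by positivity
  have key : ∀ l' : Fin 4 → ℝ, (∀ a ∈ W, η0 ≤ ev l' (p a)) → 0 < l' 0 → 0 < dis l' →
      ε ^ 2 ≤ dis l' := by
    intro l' h1 h2 h3
    have h4 := low p W C η0 hM l' h1 h2 h3
    have h5 : ε ≤ Real.sqrt (dis l') := by
      rw [hε, div_le_iff₀ (by positivity)]; linarith
    calc ε ^ 2 ≤ Real.sqrt (dis l') ^ 2 := pow_le_pow_left₀ hε0.le h5 2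
      _ = dis l' := Real.sq_sqrt h3.le
  have hlam : 0 < lam := by
    by_contra hn
    have hn' : lam ≤ 0 := not_lt.1 hn
    set δ := ε ^ 2 / (2 * ε + 2 * R) with hδ
    have hden : 0 < 2 * ε + 2 * R := by linarith
    have hδ0 : 0 < δ := by positivity
    have hδ1 : δ * (2 * ε + 2 * R) = ε ^ 2 := by rw [hδ]; field_simp
    have hδ2 : δ < 2 * ε := by
      by_contra h
      have h' : 2 * ε ≤ δ := not_lt.1 h
      nlinarith [mul_nonneg hδ0.le hR, mul_le_mul_of_nonneg_right h' hε0.le, sq_pos_of_pos hε0]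
    obtain ⟨h1, h2⟩ := hs (δ - lam)
    have e : δ - lam + lam = δ := by ring
    rw [e] at h1 h2
    have h3 := key (l + (δ - lam) • idf) (fun a ha => by
      rw [ev_add_smul]
      have h5 : 0 ≤ ev idf (p a) := (sq_nonneg _).trans (norm_sq_le _)
      have h6 : 0 ≤ δ - lam := by linarith
      have := hF0 a ha
      nlinarith [mul_nonneg h6 h5]) (hδ0.trans_le h1) (by rw [h2]; positivity)
    rw [h2] at h3
    nlinarith [mul_lt_mul_of_pos_left hδ2 hδ0]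
  obtain ⟨z1, z2⟩ := hs 0
  rw [zero_smul, add_zero, zero_add] at z1 z2
  have hl0 : 0 < l 0 := hlam.trans_le z1
  have hD : 0 < dis l := by rw [z2]; positivity
  refine ⟨⟨lam / 2, by positivity, fun u => ?_⟩, fun a b ha hb => ?_⟩
  · obtain ⟨h1, h2⟩ := hs (-(lam / 2))
    have e : -(lam / 2) + lam = lam / 2 := by ring
    rw [e] at h1 h2
    have h3 : 0 < (l + (-(lam / 2)) • idf) 0 := (half_pos hlam).trans_le h1
    have h4 : 0 < dis (l + (-(lam / 2)) • idf) := by rw [h2]; positivity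
    have h5 : 0 ≤ ev (l + (-(lam / 2)) • idf) u := by
      rw [ev_sq _ h3.ne']; positivity
    rw [ev_add_smul] at h5
    have h6 := mul_le_mul_of_nonneg_left (norm_sq_le u) (half_pos hlam).le
    linarith
  · have h1 := dt_le l hl0 hD (p a) (p b)
    rw [ha, hb] at h1
    have h2 := key l hF0 hl0 hD
    have hη1 : 0 < η1 := h0.trans_le ((hη a).1.trans (hη a).2)
    have h3 : η a * η b ≤ η1 * η1 :=
      mul_le_mul (hη a).2 (hη b).2 (h0.le.trans (hη b).1) hη1.le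
    have h4 : (ε * ‖dt (p a) (p b)‖) ^ 2 ≤ η1 ^ 2 := by
      rw [mul_pow]
      nlinarith [mul_le_mul_of_nonneg_right h2 (sq_nonneg ‖dt (p a) (p b)‖)]
    have h5 : ε * ‖dt (p a) (p b)‖ ≤ η1 := (pow_le_pow_iff_left₀ (by positivity) hη1.le two_ne_zero).1 h4
    have h6 : ‖dt (p a) (p b)‖ ≤ η1 / ε := by rw [le_div_iff₀ hε0]; linarith
    refine h6.trans ?_
    have e : η1 / ε = 2 * C ^ 2 * η1 / η0 := by rw [hε]; field_simp
    rw [e]
    have : 0 ≤ C ^ 2 * η1 := by positivity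
    gcongr
    norm_num

end Pool.Agent.Lib.BR18
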