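import Pool.Agent.Lib.BR18.Blue2

/-! Row PRIM: a primitive element in the upper half plane. -/

namespace Pool.Agent.Lib.BR18

namespace PRIM

/-- the real numbers as a subfield of the complex numbers -/
noncomputable def reals : IntermediateField ℚ ℂ where
  carrier := {w | w.im = 0}
  mul_mem' := fun {a b} (ha : a.im = 0) (hb : b.im = 0) => by
    change (a * b).im = 0
    rw [Complex.mul_im, ha, hb, mul_zero, zero_mul, add_zero]
  add_mem' := fun {a b} (ha : a.im = 0) (hb : b.im = 0) => by
    change (a + b).im = 0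
    rw [Complex.add_im, ha, hb, add_zero]
  algebraMap_mem' := fun r => Complex.ratCast_im r
  inv_mem' := fun a (ha : a.im = 0) => by
    change (a⁻¹).im = 0
    rw [Complex.inv_im, ha, neg_zero, zero_div]

lemma adjoin_neg (z : ℂ) : IntermediateField.adjoin ℚ {-z} = IntermediateField.adjoin ℚ {z} := by
  refine le_antisymm ?_ ?_
  · rw [IntermediateField.adjoin_simple_le_iff]
    exact neg_mem (IntermediateField.mem_adjoin_simple_self ℚ z)
  · rw [IntermediateField.adjoin_simple_le_iff]
    exact neg_mem_iff.1 (IntermediateField.mem_adjoin_simple_self ℚ (-z))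

lemma prim (F E : Type) [Field F] [Field E] [Algebra F E] [CharZero F] (k : IntermediateField F E)
    (hk : FiniteDimensional F k) : ∃ α : E, IntermediateField.adjoin F {α} = k := by
  obtain ⟨α, hα⟩ := Field.exists_primitive_element F k
  exact ⟨α, by
    rw [← IntermediateField.lift_adjoin_simple, hα, IntermediateField.lift_top]⟩

end PRIM

theorem bPRIM : St_PRIM := by
  rintro k hk ⟨w, hw, hw0⟩
  obtain ⟨α, h1⟩ := PRIM.prim ℚ ℂ k hk
  have h0 : α.im ≠ 0 := by
    intro h
    have h3 : k ≤ PRIM.reals := by
      rw [← h1, IntermediateField.adjoin_simple_le_iff]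
      exact h
    exact hw0 (h3 hw)
  rcases lt_or_gt_of_ne h0 with h | h
  · refine ⟨-α, ?_, (PRIM.adjoin_neg _).trans h1⟩
    rw [Complex.neg_im]
    exact neg_pos.2 h
  · exact ⟨α, h, h1⟩

end Pool.Agent.Lib.BR18
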