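import Pool.Agent.Lib.BR18.Blue

/-! A positive real solution of an integer homogeneous system gives a positive integer one. -/

namespace Pool.Agent.Lib.BR18

namespace RAT

theorem ex_fun (Q : Type) [Fintype Q] (w : Q → ℝ) (hw : ∀ q, 0 < w q) :
    ∃ f : ℝ →ₗ[ℚ] ℚ, ∀ q, 0 < f (w q) := by
  classical
  let b := Module.Basis.ofVectorSpace ℚ ℝ
  let G : Q → (Module.Basis.ofVectorSpaceIndex ℚ ℝ → ℝ) → ℝ := fun q y =>
    ∑ i ∈ (b.repr (w q)).support, ((b.repr (w q) i : ℚ) : ℝ) * y i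
  have hG : ∀ q, Continuous (G q) := fun q =>
    continuous_finsetSum _ fun i _ => continuous_const.mul (continuous_apply i)
  have hO : IsOpen (⋂ q, {y | 0 < G q y}) :=
    isOpen_iInter_of_finite fun q => isOpen_lt continuous_const (hG q)
  have hne : (⋂ q, {y | 0 < G q y}).Nonempty := by
    refine ⟨fun i => b i, Set.mem_iInter.2 fun q => ?_⟩
    have h1 : G q (fun i => b i) = w q := by
      have h2 := b.linearCombination_repr (w q)
      rw [Finsupp.linearCombination_apply, Finsupp.sum] at h2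
      rw [← h2]
      refine Finset.sum_congr rfl fun i _ => ?_
      rw [Rat.smul_def]
    show 0 < G q _
    rw [h1]
    exact hw q
  have hd : DenseRange (Pi.map fun (_ : Module.Basis.ofVectorSpaceIndex ℚ ℝ) (x : ℚ) =>
      (x : ℝ)) := DenseRange.piMap fun _ => Rat.denseRange_cast
  obtain ⟨x, hx⟩ := hd.exists_mem_open hO hne
  refine ⟨b.constr ℚ x, fun q => ?_⟩
  have h3 : 0 < G q _ := Set.mem_iInter.1 hx q
  have h4 : G q (Pi.map (fun (_ : Module.Basis.ofVectorSpaceIndex ℚ ℝ) (x : ℚ) => (x : ℝ)) x)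
      = ((b.constr ℚ x (w q) : ℚ) : ℝ) := by
    rw [Module.Basis.constr_apply, Finsupp.sum, Rat.cast_sum]
    refine Finset.sum_congr rfl fun i _ => ?_
    rw [smul_eq_mul, Rat.cast_mul]
    rfl
  rw [h4] at h3
  exact_mod_cast h3

theorem clear (Q : Type) [Fintype Q] (r : Q → ℚ) (hr : ∀ q, 0 < r q) :
    ∃ (D : ℕ) (n : Q → ℕ), ∀ q, 0 < n q ∧ (n q : ℚ) = D * r q := by
  classical
  have h : ∀ q, ∃ n : ℕ, 0 < n ∧ (n : ℚ) = ((∏ p, (r p).den : ℕ) : ℚ) * r q := by
    intro q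
    obtain ⟨c, hc⟩ : (r q).den ∣ ∏ p, (r p).den := Finset.dvd_prod_of_mem _ (Finset.mem_univ q)
    have hn : 0 < (r q).num := Rat.num_pos.2 (hr q)
    have hD : 0 < ∏ p, (r p).den := Finset.prod_pos fun p _ => (r p).den_pos
    have hc0 : 0 < c := by
      rcases Nat.eq_zero_or_pos c with h0 | h0
      · rw [hc, h0, mul_zero] at hD
        exact absurd hD (lt_irrefl 0)
      · exact h0
    refine ⟨c * (r q).num.toNat, Nat.mul_pos hc0 (by omega), ?_⟩
    have h5 : (((r q).num.toNat : ℕ) : ℚ) = ((r q).num : ℚ) := by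
      have : (((r q).num.toNat : ℕ) : ℤ) = (r q).num := Int.toNat_of_nonneg hn.le
      exact_mod_cast this
    rw [hc, Nat.cast_mul, Nat.cast_mul, h5, ← Rat.mul_den_eq_num]
    ring
  choose n hn using h
  exact ⟨_, n, hn⟩

end RAT

theorem bRAT : St_RAT := by
  intro Q Φ _ B w hw hB
  obtain ⟨f, hf⟩ := RAT.ex_fun Q w hw
  obtain ⟨D, n, hn⟩ := RAT.clear Q (fun q => f (w q)) hf
  refine ⟨n, fun q => (hn q).1, fun φ => ?_⟩
  have h1 : ∑ q, (B φ q : ℚ) * f (w q) = 0 := by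
    have h2 := congrArg f (hB φ)
    rw [map_sum, map_zero] at h2
    rw [← h2]
    refine Finset.sum_congr rfl fun q _ => ?_
    have h3 : (B φ q : ℝ) * w q = (B φ q : ℚ) • w q := by
      rw [Rat.smul_def, Rat.cast_intCast]
    rw [h3, map_smul, smul_eq_mul]
  have h4 : ((∑ q, B φ q * n q : ℤ) : ℚ) = 0 := by
    push_cast
    have h5 : ∑ q, (B φ q : ℚ) * (n q : ℚ) = D * ∑ q, (B φ q : ℚ) * f (w q) := by
      rw [Finset.mul_sum]
      refine Finset.sum_congr rfl fun q _ => ?_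
      rw [(hn q).2]
      ring
    rw [h5, h1, mul_zero]
  exact_mod_cast h4

end Pool.Agent.Lib.BR18
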