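import Pool.Agent.Lib.BR18.Blue2

/-! A closed surface of positive triangles does not develop into the plane. -/

namespace Pool.Agent.Lib.BR18

open scoped ComplexConjugate

namespace SUM

/-- the cyclic successor on `1, 2, 3` -/
def nx : Fin 4 → Fin 4 := ![0, 2, 3, 1]

/-- first end of the side opposite to `l` in the link triangle of `j` -/
def P (j l : Fin 4) : Fin 4 := kl j (nx (kl j l))

/-- second end of the side opposite to `l` in the link triangle of `j` -/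
def Q (j l : Fin 4) : Fin 4 := kl j (nx (nx (kl j l)))

theorem PQ_ne (j l : Fin 4) (h : l ≠ j) : P j l ≠ l ∧ P j l ≠ j ∧ Q j l ≠ l ∧ Q j l ≠ j := by
  revert j l
  decide

theorem PQ_kl (j : Fin 4) : P j (kl j 1) = kl j 2 ∧ Q j (kl j 1) = kl j 3 ∧
    P j (kl j 2) = kl j 3 ∧ Q j (kl j 2) = kl j 1 ∧ P j (kl j 3) = kl j 1 ∧
    Q j (kl j 3) = kl j 2 ∧ kl j 1 ≠ j ∧ kl j 2 ≠ j ∧ kl j 3 ≠ j := by
  revert j
  decide

theorem PQ_odd (σ : Equiv.Perm (Fin 4)) (h : Equiv.Perm.sign σ = -1) (j l : Fin 4) (hl : l ≠ j) :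
    P (σ j) (σ l) = σ (Q j l) ∧ Q (σ j) (σ l) = σ (P j l) := by
  revert σ j l
  decide

theorem im_swap (a b : ℂ) : (b * conj a).im = -(a * conj b).im := by
  simp only [Complex.mul_im, Complex.conj_re, Complex.conj_im]
  ring

end SUM

theorem bSUM : St_SUM := by
  intro I _ nb π C ζ hP hC hpos
  classical
  have := Fintype.ofFinite I
  by_contra hne
  obtain ⟨a0, ha0⟩ := Set.nonempty_iff_ne_empty.2 hne
  let τ : (I × Fin 4) × Fin 4 → (I × Fin 4) × Fin 4 := fun x =>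
    (((nb (x.1.1, x.2)).1, π (x.1.1, x.2) x.1.2), (nb (x.1.1, x.2)).2)
  have hτ : Function.Involutive τ := by
    rintro ⟨⟨i, j⟩, l⟩
    obtain ⟨h1, -, h3, -, -⟩ := hP (i, l)
    show (((nb (nb (i, l))).1, π (nb (i, l)) (π (i, l) j)), (nb (nb (i, l))).2) = ((i, j), l)
    rw [h1, h3, Equiv.Perm.inv_def, Equiv.symm_apply_apply]
  let F : (I × Fin 4) × Fin 4 → ℝ := fun x =>
    (ζ x.1.1 x.1.2 (SUM.P x.1.2 x.2) * conj (ζ x.1.1 x.1.2 (SUM.Q x.1.2 x.2))).im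
  let S : (I × Fin 4) × Fin 4 → Prop := fun x => x.1 ∈ C ∧ x.2 ≠ x.1.2
  have hS : ∀ x, S x → S (τ x) ∧ F (τ x) = -F x := by
    rintro ⟨⟨i, j⟩, l⟩ ⟨h1, h2⟩
    obtain ⟨-, -, -, h4, h5⟩ := hP (i, l)
    obtain ⟨h6, h7⟩ := hC i j l h1 h2
    have h4' : (nb (i, l)).2 = π (i, l) l := h4.symm
    obtain ⟨e1, e2⟩ := SUM.PQ_odd _ h5 j l h2
    obtain ⟨n1, n2, n3, n4⟩ := SUM.PQ_ne j l h2
    refine ⟨⟨h6, ?_⟩, ?_⟩
    · show (nb (i, l)).2 ≠ π (i, l) j
      rw [h4']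
      exact fun h => h2 ((π (i, l)).injective h)
    · show (ζ (nb (i, l)).1 (π (i, l) j) (SUM.P (π (i, l) j) (nb (i, l)).2) *
        conj (ζ (nb (i, l)).1 (π (i, l) j) (SUM.Q (π (i, l) j) (nb (i, l)).2))).im =
        -(ζ i j (SUM.P j l) * conj (ζ i j (SUM.Q j l))).im
      rw [h4', e1, e2, h7 _ n3 n4, h7 _ n1 n2, SUM.im_swap]
  let G : (I × Fin 4) × Fin 4 → ℝ := fun x => if S x then F x else 0
  have hG : ∀ x, G (τ x) = -G x := by
    intro x
    show (if S (τ x) then F (τ x) else 0) = -(if S x then F x else 0)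
    by_cases h : S x
    · rw [if_pos h, if_pos (hS x h).1, (hS x h).2]
    · have h' : ¬ S (τ x) := fun h' => h (hτ x ▸ (hS _ h').1)
      rw [if_neg h, if_neg h', neg_zero]
  have hsum : ∑ x, G x = 0 := by
    have h1 : ∑ x, G (τ x) = ∑ x, G x := Equiv.sum_comp hτ.toPerm G
    rw [Finset.sum_congr rfl fun x _ => hG x, Finset.sum_neg_distrib] at h1
    linarith
  have hin : ∀ a, a ∈ C → 0 < ∑ l, G (a, l) := by
    rintro ⟨i, j⟩ ha
    obtain ⟨p1, q1, p2, q2, p3, q3, n1, n2, n3⟩ := SUM.PQ_kl j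
    have h0 : G ((i, j), kl j 0) = 0 := if_neg fun h => h.2 (kl_zero j)
    have hk : ∀ l, l ≠ j →
        G ((i, j), l) = (ζ i j (SUM.P j l) * conj (ζ i j (SUM.Q j l))).im :=
      fun l hl => if_pos ⟨ha, hl⟩
    rw [← Equiv.sum_comp (kl j) fun l => G ((i, j), l), Fin.sum_univ_four, h0, hk _ n1, hk _ n2,
      hk _ n3, p1, q1, p2, q2, p3, q3]
    have h := hpos i j ha
    unfold ar at h
    linarith
  have hout : ∀ a, 0 ≤ ∑ l, G (a, l) := by
    intro a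
    by_cases ha : a ∈ C
    · exact (hin a ha).le
    · exact (Finset.sum_eq_zero fun l _ => if_neg fun h => ha h.1).ge
  rw [Fintype.sum_prod_type] at hsum
  exact (Finset.sum_pos' (fun a _ => hout a) ⟨a0, Finset.mem_univ _, hin a0 ha0⟩).ne' hsum

end Pool.Agent.Lib.BR18
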