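import Pool.Agent.Lib.BR18.Blue

/-! The internal space with Haar measure. -/

namespace Pool.Agent.Lib.BR18

open MeasureTheory NumberField Matrix
open scoped MatrixGroups
open Classical

namespace SYS

section
variable {A : Type} [NormedCommRing A]

/-- sum of the norms of the entries -/
noncomputable def mb (M : Matrix (Fin 2) (Fin 2) A) : ℝ := ∑ i, ∑ j, ‖M i j‖

theorem mb_nonneg (M : Matrix (Fin 2) (Fin 2) A) : 0 ≤ mb M := by
  unfold mb; positivity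

theorem mulVec_le (M : Matrix (Fin 2) (Fin 2) A) (v : Fin 2 → A) : ‖M *ᵥ v‖ ≤ mb M * ‖v‖ := by
  refine (pi_norm_le_iff_of_nonneg (mul_nonneg (mb_nonneg M) (norm_nonneg _))).2 fun i => ?_
  have h1 : ‖(M *ᵥ v) i‖ ≤ (∑ j, ‖M i j‖) * ‖v‖ := by
    rw [Finset.sum_mul]
    refine (norm_sum_le Finset.univ fun j => M i j * v j).trans
      (Finset.sum_le_sum fun j _ => (norm_mul_le _ _).trans ?_)
    exact mul_le_mul_of_nonneg_left (norm_le_pi_norm v j) (norm_nonneg _)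
  refine h1.trans (mul_le_mul_of_nonneg_right ?_ (norm_nonneg _))
  exact Finset.single_le_sum (f := fun i => ∑ j, ‖M i j‖) (fun _ _ => by positivity)
    (Finset.mem_univ i)

theorem val_mul (x y : SL(2, A)) : x.1 * y.1 = (x * y).1 := rfl

theorem back (x : SL(2, A)) (v : Fin 2 → A) : ‖v‖ ≤ mb x.1 * ‖(x⁻¹).1 *ᵥ v‖ := by
  have : x.1 *ᵥ ((x⁻¹).1 *ᵥ v) = v := by
    rw [mulVec_mulVec, val_mul, mul_inv_cancel]
    exact one_mulVec v
  exact (congrArg norm this).symm.le.trans (mulVec_le _ _)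

theorem det_le (x : SL(2, A)) (u v : Fin 2 → A) {B : ℝ} (hu : ‖x.1 *ᵥ u‖ ≤ B)
    (hv : ‖x.1 *ᵥ v‖ ≤ B) : ‖u 0 * v 1 - u 1 * v 0‖ ≤ 2 * B ^ 2 := by
  have hd := x.2
  rw [det_fin_two] at hd
  have e : u 0 * v 1 - u 1 * v 0 =
      (x.1 *ᵥ u) 0 * (x.1 *ᵥ v) 1 - (x.1 *ᵥ u) 1 * (x.1 *ᵥ v) 0 := by
    simp only [mulVec, dotProduct, Fin.sum_univ_two]
    linear_combination (-(u 0 * v 1 - u 1 * v 0)) * hd
  have B0 : 0 ≤ B := (norm_nonneg _).trans hu
  have k (i j : Fin 2) : ‖(x.1 *ᵥ u) i * (x.1 *ᵥ v) j‖ ≤ B * B :=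
    (norm_mul_le _ _).trans (mul_le_mul ((norm_le_pi_norm _ i).trans hu)
      ((norm_le_pi_norm _ j).trans hv) (norm_nonneg _) B0)
  rw [e]
  have := norm_sub_le ((x.1 *ᵥ u) 0 * (x.1 *ᵥ v) 1) ((x.1 *ᵥ u) 1 * (x.1 *ᵥ v) 0)
  nlinarith [k 0 1, k 1 0]

end

theorem box (hB : St_BND) {K : Type} [Field K] [NumberField K] (σ : K →+* ℂ) (B B' : ℝ) :
    {a : Lat K | ‖pe σ a‖ ≤ B ∧ ‖fun i => io σ (a i : K)‖ ≤ B'}.Finite := by
  refine (Set.Finite.pi' fun _ : Fin 2 => hB K σ (max B B')).subset fun a ha i => ⟨?_, ?_⟩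
  · exact ((norm_le_pi_norm (pe σ a) i).trans ha.1).trans (le_max_left _ _)
  · exact ((norm_le_pi_norm (fun i => io σ (a i : K)) i).trans ha.2).trans (le_max_right _ _)

end SYS

open SYS in
theorem bSYS (hB : St_BND) (hC : St_CPT) (hM : St_MINK) : St_SYS := by
  intro K _ _ σ hσ
  obtain ⟨lc, cont, cpt⟩ := hC K σ
  let _ : MeasurableSpace SL(2, Ai σ) := borel _
  have : BorelSpace SL(2, Ai σ) := ⟨rfl⟩
  refine ⟨⟨SL(2, Ai σ), inferInstance, Measure.haar, nn σ, fun a => (cont a).measurable,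
    fun γ => ?_, fun x B => ?_, hM K σ hσ, fun ρ a b h => (cpt ρ a b h).measure_lt_top.ne,
    fun B => ?_, fun t => ?_⟩⟩
  · set φ : 𝓞 K →+* Ai σ := (io σ).comp (algebraMap (𝓞 K) K) with hφ
    refine ⟨fun x => SpecialLinearGroup.map φ γ * x, measurePreserving_mul_left _ _,
      fun x a => ?_⟩
    have e : (fun i => io σ (((γ.1 *ᵥ a) i : 𝓞 K) : K)) =
        (SpecialLinearGroup.map φ γ).1 *ᵥ fun i => io σ (a i : K) := by
      funext i
      exact RingHom.map_mulVec φ γ.1 a i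
    unfold nn
    rw [e, mulVec_mulVec, val_mul, _root_.mul_inv_rev, inv_mul_cancel_right]
  · refine (box hB σ B (mb x.1 * B)).subset fun a ha => ⟨ha.2, ?_⟩
    exact (back x _).trans (mul_le_mul_of_nonneg_left ha.1 (mb_nonneg _))
  · refine (hB K σ (max B (2 * B ^ 2))).subset ?_
    rintro d ⟨h1, x, a, b, ha, hb, rfl⟩
    refine ⟨h1.trans (le_max_left _ _), le_trans ?_ (le_max_right _ _)⟩
    have := det_le x⁻¹ (fun i => io σ (a i : K)) (fun i => io σ (b i : K)) ha hb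
    simpa [dO] using this
  · have n0 (x : SL(2, Ai σ)) (a : Lat K) : 0 ≤ nn σ x a := norm_nonneg _
    have s0 : 0 ≤ ∑ j, nn σ 1 (t j) := Finset.sum_nonneg fun j _ => n0 _ _
    refine ⟨∑ j, nn σ 1 (t j) + 1, by linarith,
      {x | mb x.1 < mb (1 : SL(2, Ai σ)).1 + 1} ∩ ⋂ j, {x | nn σ x (t j) < ∑ j, nn σ 1 (t j) + 1},
      IsOpen.measure_ne_zero _ (IsOpen.inter ?_ ?_) ⟨1, ?_, ?_⟩,
      fun x hx j => (Set.mem_iInter.1 hx.2 j).le, fun B => ?_⟩
    · refine isOpen_lt ?_ continuous_const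
      refine continuous_finsetSum _ fun i _ => continuous_finsetSum _ fun j _ => Continuous.norm ?_
      exact continuous_subtype_val.matrix_elem i j
    · exact isOpen_iInter_of_finite fun j => isOpen_lt (cont _) continuous_const
    · exact lt_add_one (mb (1 : SL(2, Ai σ)).1)
    · exact Set.mem_iInter.2 fun j => (Finset.single_le_sum (f := fun j => nn σ 1 (t j))
        (fun j _ => n0 _ _) (Finset.mem_univ j)).trans_lt (lt_add_one _)
    · refine (box hB σ B ((mb (1 : SL(2, Ai σ)).1 + 1) * (∑ j, nn σ 1 (t j) + 1))).subset ?_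
      rintro a ⟨h1, x, hx, h2⟩
      exact ⟨h1, (back x _).trans (mul_le_mul (le_of_lt hx.1) h2 (norm_nonneg _)
        (by linarith [mb_nonneg (1 : SL(2, Ai σ)).1]))⟩

end Pool.Agent.Lib.BR18
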