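import Pool.Agent.Lib.BR18.Blue

/-! The face pairing over the ring of integers. -/

namespace Pool.Agent.Lib.BR18

open MeasureTheory NumberField Matrix
open scoped MatrixGroups

namespace TOP

variable {K : Type} [Field K] [NumberField K]

/-- the principal congruence subgroup -/
def Gam (K : Type) [Field K] [NumberField K] (N : ℕ) : Subgroup SL(2, 𝓞 K) where
  carrier := {γ | Cong N γ}
  one_mem' := by
    intro a i
    have h : (1 : SL(2, 𝓞 K)).1 *ᵥ a = a := one_smul SL(2, 𝓞 K) a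
    rw [h, sub_self]
    exact dvd_zero _
  mul_mem' := by
    intro γ δ hγ hδ a i
    have h : (γ * δ).1 *ᵥ a = γ.1 *ᵥ (δ.1 *ᵥ a) := mul_smul γ δ a
    have := dvd_add (hγ (δ.1 *ᵥ a) i) (hδ a i)
    rwa [sub_add_sub_cancel, ← h] at this
  inv_mem' := by
    intro γ hγ a i
    have h : γ.1 *ᵥ ((γ⁻¹).1 *ᵥ a) = a := smul_inv_smul γ a
    have := hγ ((γ⁻¹).1 *ᵥ a) i
    rw [h] at this
    exact dvd_sub_comm.1 this

theorem fix_one {R : Type} [CommRing R] [IsDomain R] (A : Matrix (Fin 2) (Fin 2) R)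
    (a b : Fin 2 → R) (hd : a 0 * b 1 - a 1 * b 0 ≠ 0) (ha : A *ᵥ a = a) (hb : A *ᵥ b = b) :
    A = 1 := by
  have a0 := congrFun ha 0
  have a1 := congrFun ha 1
  have b0 := congrFun hb 0
  have b1 := congrFun hb 1
  simp only [Matrix.mulVec, dotProduct, Fin.sum_univ_two] at a0 a1 b0 b1
  have e00 : A 0 0 = 1 := mul_right_cancel₀ hd (by linear_combination b 1 * a0 - a 1 * b0)
  have e01 : A 0 1 = 0 := mul_right_cancel₀ hd (by linear_combination a 0 * b0 - b 0 * a0)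
  have e10 : A 1 0 = 0 := mul_right_cancel₀ hd (by linear_combination b 1 * a1 - a 1 * b1)
  have e11 : A 1 1 = 1 := mul_right_cancel₀ hd (by linear_combination a 0 * b1 - b 0 * a1)
  ext i j
  fin_cases i <;> fin_cases j <;> simp [e00, e01, e10, e11]

/-- the image of a matrix under the embedding -/
noncomputable def em (σ : K →+* ℂ) (γ : SL(2, 𝓞 K)) : SL(2, ℂ) :=
  Matrix.SpecialLinearGroup.map (σ.comp (algebraMap (𝓞 K) K)) γ

theorem em_pe (σ : K →+* ℂ) (γ : SL(2, 𝓞 K)) (a : Lat K) :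
    (em σ γ).1 *ᵥ pe σ a = pe σ (γ.1 *ᵥ a) := by
  funext i
  exact (RingHom.map_mulVec (σ.comp (algebraMap (𝓞 K) K)) γ.1 a i).symm

theorem dO_ne (hORN : St_ORN) (σ : K →+* ℂ) (t : Fin 4 → Lat K) (h : 0 < orn (pe σ ∘ t))
    (i j : Fin 4) (hij : i ≠ j) : dO (t i) (t j) ≠ 0 := by
  intro h0
  apply hORN.2.2.1 _ h.ne' i j hij
  change dt (pe σ (t i)) (pe σ (t j)) = 0
  rw [dt_pe, h0]
  simp

end TOP

open TOP

theorem bTOP (hORN : St_ORN) (hSYS : St_SYS) (hETA : St_ETA) (hBAL : St_BAL) (hORB : St_ORB)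
    (hCYC : St_CYC) : St_TOP := by
  intro K _ _ σ hσ t0 ht0
  obtain ⟨S⟩ := hSYS K σ hσ
  obtain ⟨ρ, C, η0, η1, N, η, hC, h0, hN, hη, hper, hMk, hGen, hpos⟩ := hETA K σ S t0 ht0.ne'
  obtain ⟨w, F, hF, w0, wpos, wF, winv, wkl, wbal⟩ :=
    hBAL K σ S ρ C η0 η1 N η hC h0 hη hper hMk hGen
  obtain ⟨S0, hS0, horb⟩ := (hORB K F hF).2 N hN
  have free : ∀ (γ : Gam K N) (t : Fin 4 → Lat K), 0 < w t → γ • tl t = tl t → γ = 1 := by
    intro γ t ht hγ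
    have hd := dO_ne hORN σ t ((wpos t).1 ht).1 1 2 (by decide)
    have e1 : γ.1.1 *ᵥ t 1 = t 1 := congrFun hγ 0
    have e2 : γ.1.1 *ᵥ t 2 = t 2 := congrFun hγ 1
    exact Subtype.ext (Subtype.ext (fix_one _ _ _ hd e1 e2))
  have orb : ∀ t : Fin 4 → Lat K, 0 < w t → ∃ s ∈ S0, ∃ γ : Gam K N, t = γ • s := by
    intro t ht
    obtain ⟨s, hs, γ, hγ, e⟩ := horb t (wF t ht) (dO_ne hORN σ t ((wpos t).1 ht).1 0 1 (by decide))
    exact ⟨s, hs, ⟨γ, hγ⟩, funext e⟩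
  obtain ⟨I, hI, v, nb, g, hv, hnb, hg, i, γ, hi⟩ := hCYC (Gam K N) (Lat K) w w0
    (fun γ t => winv γ.1 γ.2 t) wkl free ⟨S0, hS0, orb⟩ wbal t0 ((wpos t0).2 ⟨ht0, hpos⟩)
  refine ⟨I, hI, v, nb, fun a => em σ (g a).1, fun i => ((wpos _).1 (hv i)).1, hnb,
    fun a j => ?_, i, ?_⟩
  · rw [em_pe]
    exact congrArg (pe σ) (congrFun (hg a) j)
  · have e : ∀ j, (pe σ ∘ v i) j = (em σ γ.1).1 *ᵥ (pe σ ∘ t0) j := fun j => by
      rw [Function.comp_apply, Function.comp_apply, em_pe, hi]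
      rfl
    unfold shape
    simp only [e, hORN.2.2.2.2.1]

end Pool.Agent.Lib.BR18
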