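import Pool.Agent.Lib.BR18.Blue2

/-! Row TRC: the shape of a tetrahedron is a quotient of traces of products of parabolics. -/

namespace Pool.Agent.Lib.BR18

open Matrix
open scoped MatrixGroups ComplexConjugate

namespace TRC

/-- the nilpotent matrix `w ↦ dt t w • t` -/
def nm (t : V) : Matrix (Fin 2) (Fin 2) ℂ :=
  !![-(t 0 * t 1), t 0 * t 0; -(t 1 * t 1), t 0 * t 1]

lemma scal (a b r d x y : ℂ) (h0 : a * x + b * y = x) (h1 : r * x + d * y = y)
    (hd : a * d - b * r = 1) (hn : x ≠ 0 ∨ y ≠ 0) :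
    ∃ c : ℂ, a = 1 - c * (x * y) ∧ b = c * (x * x) ∧ r = -(c * (y * y)) ∧ d = 1 + c * (x * y) := by
  have tx : x * (a + d) = x * 2 := by linear_combination x * hd - (d - 1) * h0 + b * h1
  have ty : y * (a + d) = y * 2 := by linear_combination y * hd - (a - 1) * h1 + r * h0
  rcases hn with hx | hy
  · have htr : a + d = 2 := mul_left_cancel₀ hx tx
    obtain ⟨c, hc⟩ : ∃ c : ℂ, b = c * (x * x) :=
      ⟨b / (x * x), (div_mul_cancel₀ b (mul_ne_zero hx hx)).symm⟩
    have ha : a = 1 - c * (x * y) :=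
      mul_left_cancel₀ hx (by linear_combination h0 - y * hc)
    have hdd : d = 1 + c * (x * y) := by linear_combination htr - ha
    refine ⟨c, ha, hc, ?_, hdd⟩
    exact mul_left_cancel₀ hx (by linear_combination h1 - y * hdd)
  · have htr : a + d = 2 := mul_left_cancel₀ hy ty
    obtain ⟨c, hc⟩ : ∃ c : ℂ, r = -(c * (y * y)) :=
      ⟨-r / (y * y), by rw [div_mul_cancel₀ _ (mul_ne_zero hy hy), neg_neg]⟩
    have hdd : d = 1 + c * (x * y) :=
      mul_left_cancel₀ hy (by linear_combination h1 - x * hc)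
    have ha : a = 1 - c * (x * y) := by linear_combination htr - hdd
    refine ⟨c, ha, ?_, hc, hdd⟩
    exact mul_left_cancel₀ hy (by linear_combination h0 - x * ha)

lemma struct (u : SL(2, ℂ)) (t : V) (hn : t 0 ≠ 0 ∨ t 1 ≠ 0) (hu : u ≠ 1)
    (hf : u.1 *ᵥ t = t) : ∃ c : ℂ, c ≠ 0 ∧ (u ^ 2).1 - 1 = c • nm t := by
  have h0 : u.1 0 0 * t 0 + u.1 0 1 * t 1 = t 0 := by
    have h := congrFun hf 0
    rw [Matrix.mulVec, dotProduct, Fin.sum_univ_two] at h
    exact h
  have h1 : u.1 1 0 * t 0 + u.1 1 1 * t 1 = t 1 := by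
    have h := congrFun hf 1
    rw [Matrix.mulVec, dotProduct, Fin.sum_univ_two] at h
    exact h
  have hd : u.1 0 0 * u.1 1 1 - u.1 0 1 * u.1 1 0 = 1 := by
    have h := u.2
    rw [Matrix.det_fin_two] at h
    exact h
  obtain ⟨c, ha, hb, hr, hdd⟩ := scal _ _ _ _ _ _ h0 h1 hd hn
  have hm : u.1 = !![1 - c * (t 0 * t 1), c * (t 0 * t 0); -(c * (t 1 * t 1)),
      1 + c * (t 0 * t 1)] := by
    rw [Matrix.eta_fin_two u.1, ha, hb, hr, hdd]
  have hc : c ≠ 0 := by
    rintro rfl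
    apply hu
    apply Subtype.ext
    rw [hm, Matrix.SpecialLinearGroup.coe_one, Matrix.one_fin_two]
    simp
  refine ⟨2 * c, mul_ne_zero two_ne_zero hc, ?_⟩
  rw [pow_two, Matrix.SpecialLinearGroup.coe_mul, hm, Matrix.one_fin_two, nm]
  ext i j
  fin_cases i <;> fin_cases j <;> simp <;> ring

lemma tr2 (a b : V) : (nm a * nm b).trace = -(dt a b * dt a b) := by
  simp only [nm, dt, Matrix.mul_fin_two, Matrix.trace_fin_two_of]
  ring

lemma tr4 (a b c d : V) :
    (nm a * (nm b * (nm c * nm d))).trace = dt d a * dt c d * dt b c * dt a b := by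
  simp only [nm, dt, Matrix.mul_fin_two, Matrix.trace_fin_two_of]
  ring

/-- matrices all of whose translates have trace in the field -/
def Good (G : Subgroup SL(2, ℂ)) (F : IntermediateField ℚ ℂ) (M : Matrix (Fin 2) (Fin 2) ℂ) :
    Prop := ∀ γ ∈ G, (γ.1 * M).trace ∈ F

lemma Good.step {G : Subgroup SL(2, ℂ)} {F : IntermediateField ℚ ℂ}
    {M : Matrix (Fin 2) (Fin 2) ℂ} (h : Good G F M) {g : SL(2, ℂ)} (hg : g ∈ G) :
    Good G F ((g.1 - 1) * M) := by
  intro γ hγ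
  have e : γ.1 * ((g.1 - 1) * M) = (γ * g).1 * M - γ.1 * M := by
    rw [Matrix.SpecialLinearGroup.coe_mul, sub_mul, one_mul, mul_sub, mul_assoc]
  rw [e, Matrix.trace_sub]
  exact F.sub_mem (h _ (G.mul_mem hγ hg)) (h _ hγ)

lemma Good.tr {G : Subgroup SL(2, ℂ)} {F : IntermediateField ℚ ℂ}
    {M : Matrix (Fin 2) (Fin 2) ℂ} (h : Good G F M) : M.trace ∈ F := by
  have h1 := h 1 G.one_mem
  rw [Matrix.SpecialLinearGroup.coe_one, one_mul] at h1
  exact h1

lemma ne_of_dt {a b : V} (h : dt a b ≠ 0) : a 0 ≠ 0 ∨ a 1 ≠ 0 := by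
  by_contra hc
  rw [not_or, not_not, not_not] at hc
  exact h (by rw [dt, hc.1, hc.2, zero_mul, zero_mul, sub_zero])

lemma dt_sw (a b : V) : dt a b = -dt b a := by
  rw [dt, dt]; ring

end TRC

theorem bTRC (hORN : St_ORN) : St_TRC := by
  intro t u G F ho hu hG
  have hne := hORN.2.2.1 t ho
  have hn : ∀ j, t j 0 ≠ 0 ∨ t j 1 ≠ 0 := fun j =>
    TRC.ne_of_dt (hne j (kl 1 j) (by revert j; decide))
  choose c hc0 hc using fun j => TRC.struct (u j) (t j) (hn j) (hu j).1 (hu j).2.1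
  have g1 : TRC.Good G F 1 := fun γ hγ => by rw [mul_one]; exact hG γ hγ
  have st : ∀ (j : Fin 4) (M : Matrix (Fin 2) (Fin 2) ℂ), TRC.Good G F M →
      TRC.Good G F ((c j • TRC.nm (t j)) * M) := fun j M hM => by
    rw [← hc j]; exact hM.step (hu j).2.2
  have a02 := (st 0 _ (st 2 _ g1)).tr
  have a13 := (st 1 _ (st 3 _ g1)).tr
  have a4 := (st 0 _ (st 3 _ (st 1 _ (st 2 _ g1)))).tr
  simp only [mul_one, smul_mul_assoc, mul_smul_comm, Matrix.trace_smul, smul_eq_mul, TRC.tr2,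
    TRC.tr4] at a02 a13 a4
  have h02 := hne 0 2 (by decide)
  have h13 := hne 1 3 (by decide)
  have hm := F.div_mem a4 (F.mul_mem a02 a13)
  have k0 := hc0 0
  have k1 := hc0 1
  have k2 := hc0 2
  have k3 := hc0 3
  refine (congrArg (fun z => z ∈ F) ?_).mp hm
  rw [shape, TRC.dt_sw (t 2) (t 0), TRC.dt_sw (t 3) (t 1)]
  field_simp

end Pool.Agent.Lib.BR18
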