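import Pool.Agent.Lib.BR18.Blue2

/-! Row WALK: walks along a face pairing form a groupoid. -/

namespace Pool.Agent.Lib.BR18

open Matrix
open scoped MatrixGroups

namespace WALK

lemma concat {I : Type} {nb : I × Fin 4 → I × Fin 4} {g : I × Fin 4 → SL(2, ℂ)} {i i' i'' : I}
    {γ δ : SL(2, ℂ)} (h1 : Walk nb g i γ i') (h2 : Walk nb g i' δ i'') :
    Walk nb g i (δ * γ) i'' := by
  induction h2 with
  | nil => rw [one_mul]; exact h1
  | step j _ ih => rw [mul_assoc]; exact Walk.step j ih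

lemma fix_two (M : Matrix (Fin 2) (Fin 2) ℂ) (u w : V) (h : dt u w ≠ 0) (hu : M *ᵥ u = u)
    (hw : M *ᵥ w = w) : M = 1 := by
  have u0 := congrFun hu 0
  have u1 := congrFun hu 1
  have w0 := congrFun hw 0
  have w1 := congrFun hw 1
  simp only [Matrix.mulVec, dotProduct, Fin.sum_univ_two] at u0 u1 w0 w1
  have e00 : M 0 0 = 1 := mul_right_cancel₀ h (by
    simp only [dt]; linear_combination w 1 * u0 - u 1 * w0)
  have e01 : M 0 1 = 0 := mul_right_cancel₀ h (by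
    simp only [dt]; linear_combination u 0 * w0 - w 0 * u0)
  have e10 : M 1 0 = 0 := mul_right_cancel₀ h (by
    simp only [dt]; linear_combination w 1 * u1 - u 1 * w1)
  have e11 : M 1 1 = 1 := mul_right_cancel₀ h (by
    simp only [dt]; linear_combination u 0 * w1 - w 0 * u1)
  rw [Matrix.eta_fin_two M, e00, e01, e10, e11, Matrix.one_fin_two]

lemma ginv (hORN : St_ORN) {I : Type} {v : I → Fin 4 → V} {nb : I × Fin 4 → I × Fin 4}
    {π : I × Fin 4 → Equiv.Perm (Fin 4)} {g : I × Fin 4 → SL(2, ℂ)} (hG : Glue v nb π g)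
    (a : I × Fin 4) : g (nb a) = (g a)⁻¹ := by
  obtain ⟨hP, hg, ho⟩ := hG
  obtain ⟨h1, -, h3, h4, -⟩ := hP a
  have hfix : ∀ j, j ≠ a.2 → (g (nb a) * g a).1 *ᵥ v a.1 j = v a.1 j := fun j hj => by
    have hj' : π a j ≠ (nb a).2 := fun h => hj ((π a).injective (h.trans h4.symm))
    rw [Matrix.SpecialLinearGroup.coe_mul, ← Matrix.mulVec_mulVec, hg a j hj, hg (nb a) _ hj', h1,
      h3, Equiv.Perm.inv_def, Equiv.symm_apply_apply]
  have hex : ∀ k : Fin 4, ∃ p q : Fin 4, p ≠ k ∧ q ≠ k ∧ p ≠ q := by decide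
  obtain ⟨p, q, hp, hq, hpq⟩ := hex a.2
  have hd := hORN.2.2.1 (v a.1) (ho a.1).ne' p q hpq
  have h : g (nb a) * g a = 1 := Subtype.ext (fix_two _ _ _ hd (hfix p hp) (hfix q hq))
  exact eq_inv_of_mul_eq_one_left h

lemma back (hORN : St_ORN) {I : Type} {v : I → Fin 4 → V} {nb : I × Fin 4 → I × Fin 4}
    {π : I × Fin 4 → Equiv.Perm (Fin 4)} {g : I × Fin 4 → SL(2, ℂ)} (hG : Glue v nb π g)
    {i i' : I} {γ : SL(2, ℂ)} (h : Walk nb g i γ i') : Walk nb g i' γ⁻¹ i := by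
  induction h with
  | nil => rw [inv_one]; exact Walk.nil _
  | @step i1 γ1 j _ ih =>
    have s : Walk nb g (nb (i1, j)).1 (g (nb (i1, j)) * 1) (nb (nb (i1, j))).1 :=
      Walk.step (nb (i1, j)).2 (Walk.nil _)
    rw [(hG.1 (i1, j)).1, ginv hORN hG, mul_one] at s
    rw [_root_.mul_inv_rev]
    exact concat s ih

end WALK

theorem bWALK (hORN : St_ORN) : St_WALK := by
  intro I v nb π g hG
  refine ⟨fun _ _ _ _ _ h1 h2 => WALK.concat h1 h2, WALK.ginv hORN hG,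
    fun _ _ _ h => WALK.back hORN hG h, fun i i' h => ?_⟩
  induction h with
  | refl => exact ⟨1, Walk.nil _⟩
  | tail _ hs ih =>
    obtain ⟨γ, hγ⟩ := ih
    obtain ⟨j, rfl⟩ := hs
    exact ⟨_, Walk.step j hγ⟩

end Pool.Agent.Lib.BR18
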