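import Pool.Agent.Lib.BR18.Defs

/-! Definitions and rows: a positive cycle of ideal tetrahedra over a number field. -/

namespace Pool.Agent.Lib.BR18

open MeasureTheory NumberField Matrix
open scoped MatrixGroups ComplexConjugate

/-- vectors of `ℂ²` -/
abbrev V : Type := Fin 2 → ℂ

/-- coordinates of the rank one Hermitian matrix of a vector -/
noncomputable def pv (u : V) : Fin 4 → ℝ :=
  ![Complex.normSq (u 0), Complex.normSq (u 1), (u 0 * conj (u 1)).re, (u 0 * conj (u 1)).im]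

/-- value of a Hermitian form -/
noncomputable def ev (l : Fin 4 → ℝ) (u : V) : ℝ := ∑ i, l i * pv u i

/-- Euclidean square norm -/
noncomputable def nsq (u : V) : ℝ := Complex.normSq (u 0) + Complex.normSq (u 1)

/-- orientation of four vectors -/
noncomputable def orn (t : Fin 4 → V) : ℝ :=
  (dt (t 0) (t 3) * dt (t 1) (t 2) * conj (dt (t 0) (t 2) * dt (t 1) (t 3))).im

/-- a vertex and a face -/
def cn {L : Type} (m : L) (f : Fin 3 → L) : Fin 4 → L := Fin.cons m f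

/-- the face opposite to vertex `0` -/
def tl {L : Type} (t : Fin 4 → L) : Fin 3 → L := fun j => t j.succ

/-- the Klein four group: `kl j` sends `0` to `j` -/
def kl : Fin 4 → Equiv.Perm (Fin 4) :=
  ![1, Equiv.swap 0 1 * Equiv.swap 2 3, Equiv.swap 0 2 * Equiv.swap 1 3,
    Equiv.swap 0 3 * Equiv.swap 1 2]

/-- the reflection of a face -/
def sw : Equiv.Perm (Fin 3) := Equiv.swap 1 2

lemma comp_cn {L M : Type} (p : L → M) (m : L) (f : Fin 3 → L) :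
    p ∘ cn m f = cn (p m) (p ∘ f) := by
  funext j; refine Fin.cases rfl (fun _ => rfl) j

lemma cn_tl {L : Type} (t : Fin 4 → L) : cn (t 0) (tl t) = t := by
  funext j; refine Fin.cases rfl (fun _ => rfl) j

lemma tl_cn {L : Type} (m : L) (f : Fin 3 → L) : tl (cn m f) = f := rfl

lemma kl_kl (j i : Fin 4) : kl j (kl j i) = i := by revert j i; decide

lemma kl_zero (j : Fin 4) : kl j 0 = j := by revert j; decide

lemma sw_sw (i : Fin 3) : sw (sw i) = i := by revert i; decide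

lemma ev_add_smul (l ν : Fin 4 → ℝ) (s : ℝ) (u : V) : ev (l + s • ν) u = ev l u + s * ev ν u := by
  simp only [ev, Pi.add_apply, Pi.smul_apply, smul_eq_mul, Fin.sum_univ_four]; ring

section
variable {L : Type} (p : L → V) (η : L → ℝ) (W : Set L)

/-- feasible forms -/
def Feas (l : Fin 4 → ℝ) : Prop := ∀ a ∈ W, η a ≤ ev l (p a)

/-- cells of the hull -/
def Del (t : Fin 4 → L) : Prop :=
  (∀ j, t j ∈ W) ∧ ∃ l, Feas p η W l ∧ ∀ j, ev l (p (t j)) = η (t j)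

/-- the Minkowski property -/
def Mk (C : ℝ) : Prop := ∀ y : SL(2, ℂ), ∃ a ∈ W, ‖y.1 *ᵥ p a‖ ≤ C

/-- at most four tight points -/
def Gen : Prop := ∀ l t m, Feas p η W l → (∀ j, t j ∈ W) → (∀ j, ev l (p (t j)) = η (t j)) →
  orn (p ∘ t) ≠ 0 → m ∈ W → ev l (p m) = η m → ∃ j, m = t j

end

/-- algebra of the orientation -/
def St_ORN : Prop :=
  (∀ (t : Fin 4 → V) (j : Fin 4), orn (t ∘ kl j) = orn t) ∧
  (∀ (m : V) (f : Fin 3 → V), orn (cn m (f ∘ sw)) = -orn (cn m f)) ∧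
  (∀ t : Fin 4 → V, orn t ≠ 0 → ∀ i j, i ≠ j → dt (t i) (t j) ≠ 0) ∧
  (∀ t : Fin 4 → V, 0 < orn t ↔ 0 < (shape t).im) ∧
  (∀ (g : SL(2, ℂ)) (u v : V), dt (g.1 *ᵥ u) (g.1 *ᵥ v) = dt u v) ∧
  (∀ (g : SL(2, ℂ)) (l : Fin 4 → ℝ), ∃ l', ∀ u, ev l' (g.1 *ᵥ u) = ev l u) ∧
  (∀ (f : Fin 3 → V) (j : Fin 3), orn (cn (f j) f) = 0)

/-- forms vanishing on a face -/
def St_HERM : Prop :=
  (∀ f : Fin 3 → V, ∃ ν, ∀ u, ev ν u = orn (cn u f)) ∧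
  (∀ (t : Fin 4 → V) (l : Fin 4 → ℝ), orn t ≠ 0 → (∀ j : Fin 3, ev l (t j.succ) = 0) →
    ∃ s : ℝ, ∀ u, ev l u = s * orn (cn u (tl t))) ∧
  (∀ t : Fin 4 → V, orn t ≠ 0 → ∃ u, orn (cn u (tl t)) * orn t < 0)

/-- feasible forms are uniformly definite; tight points have bounded determinants -/
def St_POS : Prop := ∀ (L : Type) (p : L → V) (η : L → ℝ) (W : Set L) (C η0 η1 : ℝ),
  0 < C → 0 < η0 → (∀ a, η0 ≤ η a ∧ η a ≤ η1) → Mk p W C → ∀ l, Feas p η W l →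
    (∃ κ : ℝ, 0 < κ ∧ ∀ u, κ * ‖u‖ ^ 2 ≤ ev l u) ∧
    ∀ a b, ev l (p a) = η a → ev l (p b) = η b → ‖dt (p a) (p b)‖ ≤ 4 * C ^ 2 * η1 / η0

/-- the pivot step -/
def St_PIV : Prop := ∀ (L : Type) (p : L → V) (η : L → ℝ) (W : Set L) (C η0 η1 : ℝ),
  0 < C → 0 < η0 → (∀ a, η0 ≤ η a ∧ η a ≤ η1) → Mk p W C →
  (∀ B : ℝ, {a | a ∈ W ∧ ‖p a‖ ≤ B}.Finite) → Gen p η W →
    (∀ m f, Del p η W (cn m f) → orn (p ∘ cn m f) ≠ 0 →
      ∃ m', Del p η W (cn m' f) ∧ orn (p ∘ cn m' f) * orn (p ∘ cn m f) < 0) ∧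
    ∀ m m' f, Del p η W (cn m f) → Del p η W (cn m' f) →
      0 < orn (p ∘ cn m' f) * orn (p ∘ cn m f) → m = m'

/-- a form close to the square norm with given values at four vectors -/
def St_PERT : Prop := ∀ t : Fin 4 → V, orn t ≠ 0 → ∃ δ : ℝ, 0 < δ ∧ ∀ e : Fin 4 → ℝ,
  (∀ j, |e j - nsq (t j)| ≤ δ) → ∃ l, (∀ j, ev l (t j) = e j) ∧ ∀ u, nsq u / 2 ≤ ev l u

/-- generic heights in a box -/
def St_GEN5 : Prop := ∀ (L R : Type) [Countable L] [Finite R] (p : L → V) (res : L → R)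
  (lo hi : R → ℝ), (∀ r, lo r < hi r) → ∃ h : R → ℝ, (∀ r, lo r < h r ∧ h r < hi r) ∧
    ∀ s : Fin 5 → L, Function.Injective (res ∘ s) → ∀ l, ¬ ∀ i, ev l (p (s i)) = h (res (s i))

/-- positive integer solutions -/
def St_RAT : Prop := ∀ (Q Φ : Type) [Fintype Q] (B : Φ → Q → ℤ) (w : Q → ℝ), (∀ q, 0 < w q) →
  (∀ φ, ∑ q, (B φ q : ℝ) * w q = 0) → ∃ n : Q → ℕ, (∀ q, 0 < n q) ∧ ∀ φ, ∑ q, B φ q * n q = 0

/-- pairing of the fibres of a map along an involution -/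
def St_INV : Prop := ∀ (S Φ : Type) [Finite S] (c : S → Φ) (ι : Φ → Φ), (∀ φ, ι (ι φ) = φ) →
  (∀ φ, Nat.card {a // c a = φ} = Nat.card {a // c a = ι φ}) →
    ∃ nb : S → S, ∀ a, nb (nb a) = a ∧ c (nb a) = ι (c a)

/-- from balanced weights to a finite face pairing -/
def St_CYC : Prop := ∀ (Γ L : Type) [Group Γ] [MulAction Γ L] (w : (Fin 4 → L) → ℝ),
  (∀ t, 0 ≤ w t) → (∀ (γ : Γ) t, w (γ • t) = w t) → (∀ t j, w (t ∘ kl j) = w t) →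
  (∀ (γ : Γ) t, 0 < w t → γ • tl t = tl t → γ = 1) →
  (∃ S : Set (Fin 4 → L), S.Finite ∧ ∀ t, 0 < w t → ∃ s ∈ S, ∃ γ : Γ, t = γ • s) →
  (∀ f, {m | 0 < w (cn m f)}.Finite ∧ ∑ᶠ m, w (cn m f) = ∑ᶠ m, w (cn m (f ∘ sw))) →
  ∀ t0, 0 < w t0 →
    ∃ (I : Type) (_ : Fintype I) (v : I → Fin 4 → L) (nb : I × Fin 4 → I × Fin 4)
      (g : I × Fin 4 → Γ), (∀ i, 0 < w (v i)) ∧ (∀ a, nb (nb a) = a) ∧
      (∀ a, g a • (tl (v a.1 ∘ kl a.2) ∘ sw) = tl (v (nb a).1 ∘ kl (nb a).2)) ∧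
      ∃ (i : I) (γ : Γ), v i = γ • t0

section
variable (K : Type) [Field K] [NumberField K]

/-- the lattice -/
abbrev Lat : Type := Fin 2 → 𝓞 K

variable {K}

/-- determinant in the lattice -/
def dO (a b : Lat K) : 𝓞 K := a 0 * b 1 - a 1 * b 0

/-- image of a lattice vector under an embedding -/
def pe (σ : K →+* ℂ) (a : Lat K) : V := fun i => σ (a i : K)

lemma dt_pe (σ : K →+* ℂ) (a b : Lat K) : dt (pe σ a) (pe σ b) = σ (dO a b : K) := by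
  simp [dt, pe, dO]

/-- the principal congruence subgroup, as a condition on the action -/
def Cong (N : ℕ) (γ : SL(2, 𝓞 K)) : Prop := ∀ (a : Lat K) (i : Fin 2), (N : 𝓞 K) ∣ (γ.1 *ᵥ a) i - a i

/-- the internal space with its window norm -/
structure Sys (σ : K →+* ℂ) where
  X : Type
  mX : MeasurableSpace X
  μ : Measure X
  n : X → Lat K → ℝ
  meas : ∀ a, Measurable fun x => n x a
  inv : ∀ γ : SL(2, 𝓞 K), ∃ T : X → X, MeasurePreserving T μ μ ∧ ∀ x a, n (T x) (γ.1 *ᵥ a) = n x a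
  lf : ∀ (x : X) (B : ℝ), {a | n x a ≤ B ∧ ‖pe σ a‖ ≤ B}.Finite
  mk' : ∀ ρ : ℝ, 0 < ρ → ∃ C : ℝ, 0 < C ∧ ∀ (x : X) (y : SL(2, ℂ)),
    ∃ a, a ≠ 0 ∧ n x a ≤ ρ ∧ ‖y.1 *ᵥ pe σ a‖ ≤ C
  fin : ∀ (ρ : ℝ) (a b : Lat K), dO a b ≠ 0 → μ {x | n x a ≤ ρ ∧ n x b ≤ ρ} ≠ ⊤
  lab : ∀ B : ℝ, {d : 𝓞 K | ‖σ (d : K)‖ ≤ B ∧ ∃ x a b, n x a ≤ B ∧ n x b ≤ B ∧ d = dO a b}.Finite
  pos : ∀ t : Fin 4 → Lat K, ∃ ρ : ℝ, 0 < ρ ∧ ∃ U : Set X, μ U ≠ 0 ∧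
    (∀ x ∈ U, ∀ j, n x (t j) ≤ ρ) ∧ ∀ B : ℝ, {a | ‖pe σ a‖ ≤ B ∧ ∃ x ∈ U, n x a ≤ ρ}.Finite

/-- the window -/
def Sys.win {σ : K →+* ℂ} (S : Sys σ) (ρ : ℝ) (x : S.X) : Set (Lat K) := {a | a ≠ 0 ∧ S.n x a ≤ ρ}

/-- the product of the completions at the other infinite places -/
abbrev Ai (σ : K →+* ℂ) : Type :=
  ({w : InfinitePlace K // w.IsReal} → ℝ) ×
    ({w : InfinitePlace K // w.IsComplex ∧ w ≠ InfinitePlace.mk σ} → ℂ)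

/-- the embedding into the internal ring -/
noncomputable def io (σ : K →+* ℂ) : K →+* Ai σ :=
  RingHom.prod (RingHom.pi fun w => InfinitePlace.embedding_of_isReal w.2)
    (RingHom.pi fun w => w.1.embedding)

/-- the window norm -/
noncomputable def nn (σ : K →+* ℂ) (x : SL(2, Ai σ)) (a : Lat K) : ℝ :=
  open Classical in ‖(x⁻¹).1 *ᵥ fun i => io σ (a i : K)‖

end

/-- integers bounded at all places -/
def St_BND : Prop := ∀ (K : Type) [Field K] [NumberField K] (σ : K →+* ℂ) (B : ℝ),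
  open Classical in {d : 𝓞 K | ‖σ (d : K)‖ ≤ B ∧ ‖io σ (d : K)‖ ≤ B}.Finite

/-- compactness in the internal group -/
def St_CPT : Prop := ∀ (K : Type) [Field K] [NumberField K] (σ : K →+* ℂ),
  LocallyCompactSpace SL(2, Ai σ) ∧ (∀ a, Continuous fun x => nn σ x a) ∧
  ∀ (ρ : ℝ) (a b : Lat K), dO a b ≠ 0 → IsCompact {x | nn σ x a ≤ ρ ∧ nn σ x b ≤ ρ}

/-- Minkowski's theorem, uniformly -/
def St_MINK : Prop := ∀ (K : Type) [Field K] [NumberField K] (σ : K →+* ℂ),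
  ¬ ComplexEmbedding.IsReal σ → ∀ ρ : ℝ, 0 < ρ → ∃ C : ℝ, 0 < C ∧
    ∀ (x : SL(2, Ai σ)) (y : SL(2, ℂ)), ∃ a, a ≠ 0 ∧ nn σ x a ≤ ρ ∧ ‖y.1 *ᵥ pe σ a‖ ≤ C

/-- the internal space exists -/
def St_SYS : Prop := ∀ (K : Type) [Field K] [NumberField K] (σ : K →+* ℂ),
  ¬ ComplexEmbedding.IsReal σ → Nonempty (Sys σ)

/-- a modulus; finitely many orbits -/
def St_ORB : Prop := ∀ (K : Type) [Field K] [NumberField K] (F : Set (𝓞 K)), F.Finite →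
  (∃ N : ℕ, 0 < N ∧ ∀ a ∈ F, (N : 𝓞 K) ∣ a → a = 0) ∧
  ∀ N : ℕ, 0 < N → ∃ S : Set (Fin 4 → Lat K), S.Finite ∧ ∀ t : Fin 4 → Lat K,
    (∀ i j, dO (t i) (t j) ∈ F) → dO (t 0) (t 1) ≠ 0 →
      ∃ s ∈ S, ∃ γ : SL(2, 𝓞 K), Cong N γ ∧ ∀ j, t j = γ.1 *ᵥ s j

/-- choice of the window, the level and the heights -/
def St_ETA : Prop := ∀ (K : Type) [Field K] [NumberField K] (σ : K →+* ℂ) (S : Sys σ)
  (t0 : Fin 4 → Lat K), orn (pe σ ∘ t0) ≠ 0 →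
    ∃ (ρ C η0 η1 : ℝ) (N : ℕ) (η : Lat K → ℝ), 0 < C ∧ 0 < η0 ∧ 0 < N ∧
      (∀ a, η0 ≤ η a ∧ η a ≤ η1) ∧ (∀ a b : Lat K, (∀ i, (N : 𝓞 K) ∣ a i - b i) → η a = η b) ∧
      (∀ x, Mk (pe σ) (S.win ρ x) C) ∧ (∀ x, Gen (pe σ) η (S.win ρ x)) ∧
      S.μ {x | Del (pe σ) η (S.win ρ x) t0} ≠ 0

/-- measurability, finiteness and invariance of the weights -/
def St_MEAS : Prop := ∀ (K : Type) [Field K] [NumberField K] (σ : K →+* ℂ) (S : Sys σ)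
  (ρ : ℝ) (N : ℕ) (η : Lat K → ℝ), (∀ a b : Lat K, (∀ i, (N : 𝓞 K) ∣ a i - b i) → η a = η b) →
  ∀ t : Fin 4 → Lat K, orn (pe σ ∘ t) ≠ 0 →
    @MeasurableSet _ S.mX {x | Del (pe σ) η (S.win ρ x) t} ∧
    S.μ {x | Del (pe σ) η (S.win ρ x) t} ≠ ⊤ ∧
    ∀ γ : SL(2, 𝓞 K), Cong N γ → orn (pe σ ∘ fun j => γ.1 *ᵥ t j) = orn (pe σ ∘ t) ∧
      S.μ {x | Del (pe σ) η (S.win ρ x) fun j => γ.1 *ᵥ t j} =
        S.μ {x | Del (pe σ) η (S.win ρ x) t}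

/-- balanced weights -/
def St_BAL : Prop := ∀ (K : Type) [Field K] [NumberField K] (σ : K →+* ℂ) (S : Sys σ)
  (ρ C η0 η1 : ℝ) (N : ℕ) (η : Lat K → ℝ), 0 < C → 0 < η0 →
  (∀ a, η0 ≤ η a ∧ η a ≤ η1) → (∀ a b : Lat K, (∀ i, (N : 𝓞 K) ∣ a i - b i) → η a = η b) →
  (∀ x, Mk (pe σ) (S.win ρ x) C) → (∀ x, Gen (pe σ) η (S.win ρ x)) →
    ∃ (w : (Fin 4 → Lat K) → ℝ) (F : Set (𝓞 K)), F.Finite ∧ (∀ t, 0 ≤ w t) ∧
      (∀ t, 0 < w t ↔ 0 < orn (pe σ ∘ t) ∧ S.μ {x | Del (pe σ) η (S.win ρ x) t} ≠ 0) ∧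
      (∀ t, 0 < w t → ∀ i j, dO (t i) (t j) ∈ F) ∧
      (∀ γ : SL(2, 𝓞 K), Cong N γ → ∀ t, w (fun j => γ.1 *ᵥ t j) = w t) ∧
      (∀ t j, w (t ∘ kl j) = w t) ∧
      ∀ f, {m | 0 < w (cn m f)}.Finite ∧ ∑ᶠ m, w (cn m f) = ∑ᶠ m, w (cn m (f ∘ sw))

/-- the face pairing over the ring of integers -/
def St_TOP : Prop := ∀ (K : Type) [Field K] [NumberField K] (σ : K →+* ℂ),
  ¬ ComplexEmbedding.IsReal σ → ∀ t0 : Fin 4 → Lat K, 0 < orn (pe σ ∘ t0) →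
    ∃ (I : Type) (_ : Fintype I) (v : I → Fin 4 → Lat K) (nb : I × Fin 4 → I × Fin 4)
      (g : I × Fin 4 → SL(2, ℂ)), (∀ i, 0 < orn (pe σ ∘ v i)) ∧ (∀ a, nb (nb a) = a) ∧
      (∀ a (j : Fin 3), (g a).1 *ᵥ pe σ (v a.1 (kl a.2 (sw j).succ)) =
        pe σ (v (nb a).1 (kl (nb a).2 j.succ))) ∧
      ∃ i : I, shape (pe σ ∘ v i) = shape (pe σ ∘ t0)

/-- the final statement -/
def St_FIN : Prop := ∀ (k : IntermediateField ℚ ℂ), FiniteDimensional ℚ k → ∀ z ∈ k, 0 < z.im →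
  ∃ (I : Type) (_ : Fintype I) (v : I → Fin 4 → Fin 2 → ℂ) (nb : I × Fin 4 → I × Fin 4)
    (π : I × Fin 4 → Equiv.Perm (Fin 4)) (g : I × Fin 4 → Matrix.SpecialLinearGroup (Fin 2) ℂ),
    (∀ a, nb (nb a) = a ∧ nb a ≠ a ∧ π (nb a) = (π a)⁻¹ ∧ π a a.2 = (nb a).2 ∧
      Equiv.Perm.sign (π a) = -1) ∧
    (∀ i i', Relation.ReflTransGen (fun x y => ∃ j, (nb (x, j)).1 = y) i i') ∧
    (∀ a j, j ≠ a.2 → (g a).1.mulVec (v a.1 j) = v (nb a).1 (π a j)) ∧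
    (∀ i j l, v i j l ∈ k) ∧ (∀ i, 0 < (shape (v i)).im) ∧ ∃ i, shape (v i) = z

end Pool.Agent.Lib.BR18
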