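import Pool.Agent.Lib.BR18.Defs

/-! Holonomy of a face pairing and its invariant trace field. -/

namespace Pool.Agent.Lib.BR18

/-- `Walk nb g i γ i'`: `γ` is the product of the gluing matrices along a chain of paired faces
from tetrahedron `i` to tetrahedron `i'` -/
inductive Walk {I : Type} (nb : I × Fin 4 → I × Fin 4)
    (g : I × Fin 4 → Matrix.SpecialLinearGroup (Fin 2) ℂ) :
    I → Matrix.SpecialLinearGroup (Fin 2) ℂ → I → Prop
  | nil (i : I) : Walk nb g i 1 i
  | step {i i' : I} {γ : Matrix.SpecialLinearGroup (Fin 2) ℂ} (j : Fin 4) :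
      Walk nb g i γ i' → Walk nb g i (g (i', j) * γ) (nb (i', j)).1

/-- the invariant trace field of the holonomy group at tetrahedron `i` -/
noncomputable def itf {I : Type} (nb : I × Fin 4 → I × Fin 4)
    (g : I × Fin 4 → Matrix.SpecialLinearGroup (Fin 2) ℂ) (i : I) : IntermediateField ℚ ℂ :=
  IntermediateField.adjoin ℚ
    {t | ∃ γ ∈ Subgroup.closure {x | ∃ δ, Walk nb g i δ i ∧ x = δ ^ 2}, t = γ.1.trace}

end Pool.Agent.Lib.BR18
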