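import Pool.Agent.Lib.BR18.Blue
import Pool.Agent.Lib.BR18.Defs2

/-! Rows: the invariant trace field of the holonomy of a positive face pairing. -/

namespace Pool.Agent.Lib.BR18

open Matrix
open scoped MatrixGroups ComplexConjugate

/-- the combinatorial part of a face pairing -/
def Pair {I : Type} (nb : I × Fin 4 → I × Fin 4) (π : I × Fin 4 → Equiv.Perm (Fin 4)) : Prop :=
  ∀ a, nb (nb a) = a ∧ nb a ≠ a ∧ π (nb a) = (π a)⁻¹ ∧ π a a.2 = (nb a).2 ∧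
    Equiv.Perm.sign (π a) = -1

/-- a positively oriented face pairing -/
def Glue {I : Type} (v : I → Fin 4 → V) (nb : I × Fin 4 → I × Fin 4)
    (π : I × Fin 4 → Equiv.Perm (Fin 4)) (g : I × Fin 4 → SL(2, ℂ)) : Prop :=
  Pair nb π ∧ (∀ a j, j ≠ a.2 → (g a).1 *ᵥ v a.1 j = v (nb a).1 (π a j)) ∧ ∀ i, 0 < orn (v i)

/-- twice the signed area of a triangle -/
def ar (a b c : ℂ) : ℝ := (a * conj b).im + (b * conj c).im + (c * conj a).im

/-- walks form a groupoid -/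
def St_WALK : Prop := ∀ (I : Type) (v : I → Fin 4 → V) (nb : I × Fin 4 → I × Fin 4)
  (π : I × Fin 4 → Equiv.Perm (Fin 4)) (g : I × Fin 4 → SL(2, ℂ)), Glue v nb π g →
    (∀ i i' i'' γ δ, Walk nb g i γ i' → Walk nb g i' δ i'' → Walk nb g i (δ * γ) i'') ∧
    (∀ a, g (nb a) = (g a)⁻¹) ∧
    (∀ i i' γ, Walk nb g i γ i' → Walk nb g i' γ⁻¹ i) ∧
    ∀ i i', Relation.ReflTransGen (fun x y => ∃ j, (nb (x, j)).1 = y) i i' →
      ∃ γ, Walk nb g i γ i'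

/-- the invariant trace field: independent of the base point, inside the field of the vectors -/
def St_ITF : Prop := ∀ (I : Type) (v : I → Fin 4 → V) (nb : I × Fin 4 → I × Fin 4)
  (π : I × Fin 4 → Equiv.Perm (Fin 4)) (g : I × Fin 4 → SL(2, ℂ)), Glue v nb π g →
    (∀ i i' γ, Walk nb g i γ i' → itf nb g i = itf nb g i') ∧
    ∀ k : IntermediateField ℚ ℂ, (∀ i j l, v i j l ∈ k) → ∀ i, itf nb g i ≤ k

/-- a closed surface of positive triangles does not develop into the plane -/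
def St_SUM : Prop := ∀ (I : Type) [Finite I] (nb : I × Fin 4 → I × Fin 4)
  (π : I × Fin 4 → Equiv.Perm (Fin 4)) (C : Set (I × Fin 4)) (ζ : I → Fin 4 → Fin 4 → ℂ),
  Pair nb π →
  (∀ i j l, (i, j) ∈ C → l ≠ j → ((nb (i, l)).1, π (i, l) j) ∈ C ∧
    ∀ p, p ≠ l → p ≠ j → ζ (nb (i, l)).1 (π (i, l) j) (π (i, l) p) = ζ i j p) →
  (∀ i j, (i, j) ∈ C → 0 < ar (ζ i j (kl j 1)) (ζ i j (kl j 2)) (ζ i j (kl j 3))) → C = ∅

/-- signed area of the link triangle -/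
def St_AREA : Prop := ∀ (m : V) (t : Fin 4 → V), 0 < orn t → dt (t 0) m ≠ 0 →
  0 < ar (dt (t 1) m / dt (t 0) (t 1)) (dt (t 2) m / dt (t 0) (t 2)) (dt (t 3) m / dt (t 0) (t 3))

/-- every vertex vector is fixed by a nontrivial element of the holonomy group -/
def St_CUSP : Prop := ∀ (I : Type) [Finite I] (v : I → Fin 4 → V) (nb : I × Fin 4 → I × Fin 4)
  (π : I × Fin 4 → Equiv.Perm (Fin 4)) (g : I × Fin 4 → SL(2, ℂ)), Glue v nb π g →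
    ∀ i j, ∃ u, Walk nb g i u i ∧ u ≠ 1 ∧ u.1 *ᵥ v i j = v i j

/-- the shape is a quotient of traces -/
def St_TRC : Prop := ∀ (t : Fin 4 → V) (u : Fin 4 → SL(2, ℂ)) (G : Subgroup SL(2, ℂ))
  (F : IntermediateField ℚ ℂ), orn t ≠ 0 → (∀ j, u j ≠ 1 ∧ (u j).1 *ᵥ t j = t j ∧ u j ^ 2 ∈ G) →
  (∀ γ ∈ G, γ.1.trace ∈ F) → shape t ∈ F

/-- a primitive element in the upper half plane -/
def St_PRIM : Prop := ∀ (k : IntermediateField ℚ ℂ), FiniteDimensional ℚ k →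
  (∃ w ∈ k, w.im ≠ 0) → ∃ z : ℂ, 0 < z.im ∧ IntermediateField.adjoin ℚ {z} = k

/-- the final statement -/
def St_FIN2 : Prop := ∀ (k : IntermediateField ℚ ℂ), FiniteDimensional ℚ k →
  (∃ w ∈ k, w.im ≠ 0) → (∃ z : ℂ, 0 < z.im ∧ IntermediateField.adjoin ℚ {z} = k) ∧
  ∀ z : ℂ, 0 < z.im → IntermediateField.adjoin ℚ {z} = k →
  ∃ (I : Type) (_ : Fintype I) (v : I → Fin 4 → Fin 2 → ℂ) (nb : I × Fin 4 → I × Fin 4)
    (π : I × Fin 4 → Equiv.Perm (Fin 4)) (g : I × Fin 4 → Matrix.SpecialLinearGroup (Fin 2) ℂ),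
    (∀ a, nb (nb a) = a ∧ nb a ≠ a ∧ π (nb a) = (π a)⁻¹ ∧ π a a.2 = (nb a).2 ∧
      Equiv.Perm.sign (π a) = -1) ∧
    (∀ i i', ∃ γ, Walk nb g i γ i') ∧
    (∀ a j, j ≠ a.2 → (g a).1.mulVec (v a.1 j) = v (nb a).1 (π a j)) ∧
    (∀ i j l, v i j l ∈ k) ∧ (∀ i, 0 < (shape (v i)).im) ∧ (∃ i, shape (v i) = z) ∧
    (∀ i j, ∃ u, Walk nb g i u i ∧ u ≠ 1 ∧ u.1.mulVec (v i j) = v i j) ∧
    ∀ i, itf nb g i = k

end Pool.Agent.Lib.BR18
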