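import Mathlib

/-! Determinants and shapes of ideal tetrahedra given by vertex vectors. -/

namespace Pool.Agent.Lib.BR18

/-- the determinant of two vectors of `ℂ²` -/
def dt (u v : Fin 2 → ℂ) : ℂ := u 0 * v 1 - u 1 * v 0

/-- the shape (cross ratio of the four vertices) of an ideal tetrahedron -/
noncomputable def shape (t : Fin 4 → Fin 2 → ℂ) : ℂ :=
  dt (t 0) (t 3) * dt (t 1) (t 2) / (dt (t 0) (t 2) * dt (t 1) (t 3))

end Pool.Agent.Lib.BR18
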