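import Pool.Agent.Lib.BR18.B_ORN
import Pool.Agent.Lib.BR18.B_HERM
import Pool.Agent.Lib.BR18.B_POS
import Pool.Agent.Lib.BR18.B_PIV
import Pool.Agent.Lib.BR18.B_PERT
import Pool.Agent.Lib.BR18.B_GEN5
import Pool.Agent.Lib.BR18.B_RAT
import Pool.Agent.Lib.BR18.B_INV
import Pool.Agent.Lib.BR18.B_CYC
import Pool.Agent.Lib.BR18.B_BND
import Pool.Agent.Lib.BR18.B_CPT
import Pool.Agent.Lib.BR18.B_MINK
import Pool.Agent.Lib.BR18.B_SYS
import Pool.Agent.Lib.BR18.B_ORB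
import Pool.Agent.Lib.BR18.B_ETA
import Pool.Agent.Lib.BR18.B_MEAS
import Pool.Agent.Lib.BR18.B_BAL
import Pool.Agent.Lib.BR18.B_TOP
import Pool.Agent.Lib.BR18.B_FIN

/-! Assembly of the rows. -/

namespace Pool.Agent.Lib.BR18

theorem main : St_FIN :=
  have hH := bHERM bORN
  bFIN bORN (bTOP bORN (bSYS bBND bCPT bMINK) (bETA bORN bPOS (bPERT bORN hH) bGEN5 bORB)
    (bBAL bORN bPOS (bPIV bORN hH bPOS) (bMEAS bORN hH)) bORB (bCYC bRAT bINV))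

end Pool.Agent.Lib.BR18
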