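import Pool.Agent.Lib.BR18.Main
import Pool.Agent.Lib.BR18.B_WALK
import Pool.Agent.Lib.BR18.B_ITF
import Pool.Agent.Lib.BR18.B_SUM
import Pool.Agent.Lib.BR18.B_AREA
import Pool.Agent.Lib.BR18.B_CUSP
import Pool.Agent.Lib.BR18.B_TRC
import Pool.Agent.Lib.BR18.B_PRIM
import Pool.Agent.Lib.BR18.B_FIN2

/-! Assembly of the rows of the second part. -/

namespace Pool.Agent.Lib.BR18

theorem main2 : St_FIN2 :=
  have hW := bWALK bORN
  bFIN2 bORN main hW (bITF bORN hW) (bCUSP bORN hW bSUM (bAREA bORN)) (bTRC bORN) bPRIM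

end Pool.Agent.Lib.BR18
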