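import Pool.Agent.Lib.BR18.Defs

/-! Rotation round an edge of a face pairing; unbranched tetrahedra. -/

namespace Pool.Agent.Lib.BR18

/-- rotation round the edge `(s 0, s 1)` through the face opposite to `s 2` -/
def rot {I : Type} (nb : I × Fin 4 → I × Fin 4) (π : I × Fin 4 → Equiv.Perm (Fin 4))
    (f : I × Equiv.Perm (Fin 4)) : I × Equiv.Perm (Fin 4) :=
  ((nb (f.1, f.2 2)).1, π (f.1, f.2 2) * f.2 * Equiv.swap 2 3)

/-- all edges of tetrahedron `i` have angle sum `2π` -/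
def Unbr {I : Type} (v : I → Fin 4 → Fin 2 → ℂ) (nb : I × Fin 4 → I × Fin 4)
    (π : I × Fin 4 → Equiv.Perm (Fin 4)) (i : I) : Prop :=
  ∀ s : Equiv.Perm (Fin 4), Equiv.Perm.sign s = 1 → ∃ q : ℕ, 0 < q ∧
    (rot nb π)^[q] (i, s) = (i, s) ∧
    ∑ n ∈ Finset.range q, Complex.arg (shape
      (v ((rot nb π)^[n] (i, s)).1 ∘ ((rot nb π)^[n] (i, s)).2)) = 2 * Real.pi

end Pool.Agent.Lib.BR18
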