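import Pool.Agent.Lib.BR18.Blue2
import Pool.Agent.Lib.BR18.B_TOP
import Pool.Agent.Lib.BR18.V3_Defs
import Pool.Agent.Lib.MP_759431_gt.Defs2

/-! Rows: the branching is an arbitrarily small fraction. -/

namespace Pool.Agent.Lib.BR18.V3

open MeasureTheory NumberField Matrix Filter
open Pool.Agent.Lib.MP_759431_gt (moebius hypVol IsFundDomain)
open scoped MatrixGroups ENNReal Pointwise

abbrev F2 : Type := FreeGroup (Fin 2)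
abbrev T (L : Type) : Type := Fin 4 → L
abbrev P4 : Type := Equiv.Perm (Fin 4)
abbrev G : Type := SL(2, ℂ)
abbrev Pat (L : Type) : Type := F2 → Set (T L)

noncomputable instance mG : MeasurableSpace G := borel G
instance bG : BorelSpace G := ⟨rfl⟩

/-- even permutations -/
def Ev (α : P4) : Prop := Equiv.Perm.sign α = 1

/-- the six edge cycles of `t` close up along adjacent hosts, with angle sum `2π` -/
def Star {L H : Type} (θ : T L → ℝ) (col : H → Set (T L)) (Adj : H → H → Prop) (h : H)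
    (t : T L) : Prop :=
  ∀ α, Ev α → ∃ (q : ℕ) (m : ℕ → L) (hs : ℕ → H), 0 < q ∧ hs 0 = h ∧ hs q = h ∧
    m 0 = t (α 2) ∧ m 1 = t (α 3) ∧ m q = m 0 ∧ m (q + 1) = m 1 ∧
    (∀ n < q, ![t (α 0), t (α 1), m n, m (n + 1)] ∈ col (hs n) ∧ Adj (hs n) (hs (n + 1))) ∧
    ∑ n ∈ Finset.range q, θ ![t (α 0), t (α 1), m n, m (n + 1)] = 2 * Real.pi

/-- the dihedral angle at the edge `0 1` -/
noncomputable def ang {L : Type} (p : L → V) (u : T L) : ℝ := Complex.arg (shape (p ∘ u))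

def St_SECT : Prop := ∀ (L : Type) (p : L → V) (η : L → ℝ) (W : Set L), Gen p η W →
  ∀ a b c d m m' : L, Del p η W ![a, b, c, d] → 0 < orn (p ∘ ![a, b, c, d]) →
    Del p η W ![a, b, m, m'] → 0 < orn (p ∘ ![a, b, m, m']) → ∀ x y : ℝ, 0 ≤ x → 0 < y →
    dt (p a) (p m) / dt (p b) (p m) =
      x * (dt (p a) (p c) / dt (p b) (p c)) + y * (dt (p a) (p d) / dt (p b) (p d)) → m = d

def St_EDGE : Prop := ∀ (L : Type) (p : L → V) (η : L → ℝ) (W : Set L) (C η0 η1 : ℝ),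
  0 < C → 0 < η0 → (∀ a, η0 ≤ η a ∧ η a ≤ η1) → Mk p W C →
  (∀ B : ℝ, {a | a ∈ W ∧ ‖p a‖ ≤ B}.Finite) → Gen p η W → ∀ t, Del p η W t → 0 < orn (p ∘ t) →
    Star (ang p) (fun _ : Unit => {u | Del p η W u ∧ 0 < orn (p ∘ u)}) (fun _ _ => True) () t

/-- a free-by-cyclic structure -/
structure Fib (Λ : Type) [Group Λ] where
  ι : F2 →* Λ
  τ : Λ
  inj : ∀ u u' (j j' : ℤ), ι u * τ ^ j = ι u' * τ ^ j' → u = u' ∧ j = j'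
  dec : ∀ l, ∃ d : ℤ, ∀ j : ℤ, ∃ u, τ ^ j * l = ι u * τ ^ (j + d)

def St_FIG : Prop := ∃ (Λ : Type) (_ : Group Λ) (_ : Fib Λ) (ρ : Λ →* G) (F : Set (ℂ × ℝ)),
  IsFundDomain ρ F ∧ hypVol F ≠ ⊤

def St_UNI : Prop := ∃ ν : Measure G, ν.IsHaarMeasure ∧ ν.IsMulRightInvariant

def St_MOEB : Prop :=
  (∀ (g : G) (p : ℂ × ℝ), 0 < p.2 → 0 < (moebius g p).2) ∧
  (∀ p : ℂ × ℝ, 0 < p.2 → moebius 1 p = p) ∧
  (∀ (g h : G) (p : ℂ × ℝ), 0 < p.2 → moebius (g * h) p = moebius g (moebius h p)) ∧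
  (∀ p : ℂ × ℝ, 0 < p.2 → ∃ g : G, moebius g (0, 1) = p) ∧
  Measurable (fun x : G × (ℂ × ℝ) => moebius x.1 x.2) ∧
  Continuous (fun g : G => moebius g (0, 1)) ∧
  (∀ (g : G) (A : Set (ℂ × ℝ)), MeasurableSet A → (∀ p ∈ A, 0 < p.2) →
    hypVol {p | 0 < p.2 ∧ moebius g p ∈ A} = hypVol A) ∧
  ∃ K : Set (ℂ × ℝ), IsOpen K ∧ (0, 1) ∈ K ∧ (∀ p ∈ K, 0 < p.2) ∧ hypVol K ≠ 0 ∧ hypVol K ≠ ⊤ ∧
    ∃ C : Set G, IsCompact C ∧ ∀ g : G, moebius g (0, 1) ∈ K → g ∈ C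

def St_HAAR : Prop := ∀ ν : Measure G, ν.IsHaarMeasure → ν.IsMulRightInvariant →
  ∃ c : ℝ≥0∞, c ≠ 0 ∧ c ≠ ⊤ ∧ ∀ A : Set (ℂ × ℝ), MeasurableSet A → (∀ p ∈ A, 0 < p.2) →
    ν {g | moebius g (0, 1) ∈ A} = c * hypVol A

/-- a strict fundamental domain of finite measure -/
def Dom {Λ : Type} [Group Λ] (ρ : Λ →* G) (ν : Measure G) (D : Set G) : Prop :=
  ν.IsHaarMeasure ∧ ν.IsMulRightInvariant ∧ MeasurableSet D ∧ ν D ≠ 0 ∧ ν D ≠ ⊤ ∧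
    (∀ l g, g ∈ D → ρ l * g ∈ D → l = 1) ∧ ν {g | ∀ l, ρ l * g ∉ D} = 0

def St_DOM : Prop := ∃ (Λ : Type) (_ : Group Λ) (_ : Fib Λ) (ρ : Λ →* G) (ν : Measure G)
  (D : Set G), Dom ρ ν D

section
variable (Γ : Type) {L : Type} [Group Γ] [MulAction Γ L]

/-- balanced weights for a torsion-free group -/
def Wt (w : T L → ℝ) : Prop :=
  (∀ (γ : Γ) (n : ℕ), 0 < n → γ ^ n = 1 → γ = 1) ∧ (∀ t, 0 ≤ w t) ∧
  (∀ (γ : Γ) t, w (γ • t) = w t) ∧ (∀ t α, Ev α → w (t ∘ α) = w t) ∧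
  (∀ t, 0 < w t → Function.Injective t) ∧
  (∀ (γ : Γ) t, 0 < w t → γ • tl t = tl t → γ = 1) ∧
  (∃ S : Set (T L), S.Finite ∧ ∀ t, 0 < w t → ∃ s ∈ S, ∃ γ : Γ, t = γ • s) ∧
  ∀ f, {m | 0 < w (cn m f)}.Finite ∧ ∑ᶠ m, w (cn m f) = ∑ᶠ m, w (cn m (f ∘ sw))

variable {Γ}

/-- representatives and frames -/
def Frm (w : T L → ℝ) (φ : T L → Γ) (R : Finset (T L)) : Prop :=
  (∀ s ∈ R, 0 < w s) ∧ (∀ t, 0 < w t → ∃ s ∈ R, ∃ α, Ev α ∧ t = φ t • (s ∘ α)) ∧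
  (∀ (γ : Γ) t, 0 < w t → φ (γ • t) = γ * φ t) ∧ (∀ t α, Ev α → 0 < w t → φ (t ∘ α) = φ t) ∧
  ∀ s ∈ R, ∀ s' ∈ R, ∀ (γ : Γ) α, Ev α → γ • (s ∘ α) = s' → s = s' ∧ γ = 1 ∧ α = 1

end

def St_FRAME : Prop := ∀ (Γ L : Type) [Group Γ] [MulAction Γ L] (w : T L → ℝ), Wt Γ w →
  ∀ t0, 0 < w t0 → ∃ (φ : T L → Γ) (R : Finset (T L)), Frm w φ R ∧ t0 ∈ R

/-- cells of a random leaf, placed in a random copy of the lattice -/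
structure Lam (Γ L Λ : Type) [Group Γ] [MulAction Γ L] [Group Λ] (θ w : T L → ℝ) where
  Z : Type
  mZ : MeasurableSpace Z
  m : Measure Z
  In : Z → T L → Λ → ℕ → Prop
  κ : ℕ → ℝ
  meas : ∀ t l B, MeasurableSet {z | In z t l B}
  mono : ∀ z t l B B', B ≤ B' → In z t l B → In z t l B'
  gam : ∀ γ : Γ, ∃ S : Z → Z, MeasurePreserving S m m ∧
    ∀ z t l B, In (S z) (γ • t) l B ↔ In z t l B
  lam : ∀ l0 : Λ, ∃ S : Z → Z, MeasurePreserving S m m ∧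
    ∀ z t l B, In (S z) t l B ↔ In z t (l0 * l) B
  supp : ∀ z t l B, In z t l B → 0 < w t
  perm : ∀ z t l B α, Ev α → In z t l B → In z (t ∘ α) l B
  uniq : ∀ z a a' f l l' B B', In z (cn a f) l B → In z (cn a' f) l' B' → a = a' ∧ l = l'
  mass : ∀ t B, m {z | In z t 1 B} = ENNReal.ofReal (κ B * w t)
  κnn : ∀ B, 0 ≤ κ B
  κlim : ∃ k : ℝ, 0 < k ∧ (∀ B, κ B ≤ k) ∧ Tendsto κ atTop (nhds k)
  fin : ∀ t l l' B, {u | ∃ z, In z t l B ∧ In z u l' B}.Finite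
  star : ∀ t, ∀ᵐ z ∂m, (∃ B, In z t 1 B) →
    Star θ (fun l => {u | ∃ B, In z u l B}) (fun _ _ => True) 1 t

section
variable {L : Type}

/-- both words lie in the ball of radius `r` -/
def Bl (r : ℕ) (u u' : F2) : Prop := FreeGroup.norm u ≤ r ∧ FreeGroup.norm u' ≤ r

/-- admissible patterns -/
def Ok (w : T L → ℝ) (r : ℕ) (P : Pat L) : Prop :=
  (∃ u t, t ∈ P u) ∧ (∀ u, (P u).Finite) ∧
  (∀ u t, t ∈ P u → FreeGroup.norm u ≤ 2 * r ∧ 0 < w t ∧ ∀ α, Ev α → t ∘ α ∈ P u) ∧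
  ∀ u u' a a' f, cn a f ∈ P u → cn a' f ∈ P u' → a = a' ∧ u = u'

/-- the two overlaps along a generator -/
def lf (r : ℕ) (s : Fin 2) (P : Pat L) : Pat L := fun u =>
  {t | Bl (2 * r) u (FreeGroup.of s * u) ∧ t ∈ P (FreeGroup.of s * u)}

def rt (r : ℕ) (s : Fin 2) (P : Pat L) : Pat L := fun u =>
  {t | Bl (2 * r) u (FreeGroup.of s * u) ∧ t ∈ P u}

noncomputable def tot (W : Pat L → ℝ) (t : T L) : ℝ := ∑ᶠ P ∈ {P : Pat L | t ∈ P 1}, W P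

noncomputable def bad (θ : T L → ℝ) (r : ℕ) (W : Pat L → ℝ) (t : T L) : ℝ :=
  ∑ᶠ P ∈ {P : Pat L | t ∈ P 1 ∧ ¬ Star θ P (Bl r) 1 t}, W P

end

/-- balanced weights on patterns -/
def PW (Γ : Type) {L : Type} [Group Γ] [MulAction Γ L] (θ w : T L → ℝ) (R : Finset (T L))
    (t0 : T L) (M r : ℕ) (W : Pat L → ℝ) : Prop :=
  (∀ P, 0 ≤ W P) ∧ (∀ (γ : Γ) P, W (γ • P) = W P) ∧ (∀ P, 0 < W P → Ok w r P) ∧
  (∀ u t, {P | 0 < W P ∧ t ∈ P u}.Finite) ∧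
  (∀ s (ω : Pat L), (∃ u t, t ∈ ω u) →
    ∑ᶠ P ∈ {P | lf r s P = ω}, W P = ∑ᶠ P ∈ {P | rt r s P = ω}, W P) ∧
  (∀ f, ∑ᶠ m, tot W (cn m f) = ∑ᶠ m, tot W (cn m (f ∘ sw))) ∧
  M * ∑ s ∈ R, bad θ r W s < tot W t0

section
variable {Γ L Λ : Type} [Group Γ] [MulAction Γ L] [Group Λ] {θ w : T L → ℝ}

/-- the pattern at a point -/
def pat (A : Lam Γ L Λ θ w) (Φ : Fib Λ) (B n r : ℕ) (z : A.Z) : Pat L := fun u =>
  {t | FreeGroup.norm u ≤ 2 * r ∧ ∃ j : ℕ, j < n ∧ A.In z t (Φ.ι u * Φ.τ ^ (j : ℤ)) B}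

/-- the weight of a pattern -/
noncomputable def pw (A : Lam Γ L Λ θ w) (Φ : Fib Λ) (B n r : ℕ) (P : Pat L) : ℝ :=
  open Classical in if ∃ u t, t ∈ P u then (A.m {z | pat A Φ B n r z = P}).toReal else 0

end

def St_MEAS3 : Prop := ∀ (Γ L Λ : Type) [Group Γ] [MulAction Γ L] [Group Λ] (θ w : T L → ℝ)
  (A : Lam Γ L Λ θ w) (E : Finset Λ) (B : ℕ) (t : T L) (l0 : Λ) (Q : (Λ → Set (T L)) → Prop),
    @MeasurableSet _ A.mZ {z | A.In z t l0 B ∧ Q fun l => {u | l ∈ E ∧ A.In z u l B}}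

def St_PSUM : Prop := ∀ (Γ L Λ : Type) [Group Γ] [MulAction Γ L] [Group Λ] (θ w : T L → ℝ)
  (A : Lam Γ L Λ θ w) (Φ : Fib Λ) (B n r : ℕ),
    (∀ P, 0 < pw A Φ B n r P → Ok w r P) ∧
    (∀ u t, {P | (∃ z, pat A Φ B n r z = P) ∧ t ∈ P u}.Finite) ∧
    ∀ u t (Q : Pat L → Prop),
      @MeasurableSet _ A.mZ {z | t ∈ pat A Φ B n r z u ∧ Q (pat A Φ B n r z)} ∧
      A.m {z | t ∈ pat A Φ B n r z u ∧ Q (pat A Φ B n r z)} ≠ ⊤ ∧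
      ∑ᶠ P ∈ {P : Pat L | t ∈ P u ∧ Q P}, pw A Φ B n r P =
        (A.m {z | t ∈ pat A Φ B n r z u ∧ Q (pat A Φ B n r z)}).toReal

def St_PINV : Prop := ∀ (Γ L Λ : Type) [Group Γ] [MulAction Γ L] [Group Λ] (θ w : T L → ℝ)
  (A : Lam Γ L Λ θ w) (Φ : Fib Λ) (B n r : ℕ), (∀ t, 0 ≤ w t) →
    (∀ (γ : Γ) P, pw A Φ B n r (γ • P) = pw A Φ B n r P) ∧
    (∀ s (ω : Pat L), (∃ u t, t ∈ ω u) → ∑ᶠ P ∈ {P | lf r s P = ω}, pw A Φ B n r P =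
      ∑ᶠ P ∈ {P | rt r s P = ω}, pw A Φ B n r P) ∧
    ∀ t, tot (pw A Φ B n r) t = n * A.κ B * w t

def St_GOOD : Prop := ∀ (Γ L Λ : Type) [Group Γ] [MulAction Γ L] [Group Λ] (θ w : T L → ℝ)
  (A : Lam Γ L Λ θ w) (Φ : Fib Λ) (t : T L) (δ : ℝ), 0 < w t → 0 < δ →
    ∃ (B0 : ℕ) (c : ℝ), 0 ≤ c ∧ ∀ B, B0 ≤ B → ∀ n, ∃ r0, ∀ r, r0 ≤ r →
      A.m {z | t ∈ pat A Φ B n r z 1 ∧ ¬ Star θ (pat A Φ B n r z) (Bl r) 1 t} ≤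
        ENNReal.ofReal (δ * n + c)

def St_PATW : Prop := ∀ (Γ L Λ : Type) [Group Γ] [MulAction Γ L] [Group Λ] (θ w : T L → ℝ)
  (_ : Lam Γ L Λ θ w) (_ : Fib Λ) (R : Finset (T L)) (t0 : T L) (M : ℕ), Wt Γ w →
    (∀ s ∈ R, 0 < w s) → 0 < w t0 → ∃ r W, PW Γ θ w R t0 M r W

def St_RATG : Prop := ∀ (Γ Q Φ : Type) [Group Γ] [MulAction Γ Q] (W : Q → ℝ) (B : Φ → Q → ℤ)
  (C : Q → ℤ), (∀ q, 0 ≤ W q) → (∀ (γ : Γ) q, W (γ • q) = W q) →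
  (∃ S : Set Q, S.Finite ∧ ∀ q, 0 < W q → ∃ s ∈ S, ∃ γ : Γ, q = γ • s) →
  (∀ φ, {q | 0 < W q ∧ B φ q ≠ 0}.Finite ∧ ∑ᶠ q, (B φ q : ℝ) * W q = 0) →
  {q | 0 < W q ∧ C q ≠ 0}.Finite → 0 < ∑ᶠ q, (C q : ℝ) * W q →
    ∃ n : Q → ℕ, (∀ (γ : Γ) q, n (γ • q) = n q) ∧ (∀ q, 0 < n q ↔ 0 < W q) ∧
      (∀ φ, ∑ᶠ q, (B φ q : ℝ) * (n q : ℝ) = 0) ∧ 0 < ∑ᶠ q, (C q : ℝ) * (n q : ℝ)

def St_NUM : Prop := ∀ (Γ L : Type) [Group Γ] [MulAction Γ L] (θ w : T L → ℝ)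
  (R : Finset (T L)) (t0 : T L) (M r : ℕ) (W : Pat L → ℝ), Wt Γ w → PW Γ θ w R t0 M r W →
    ∃ n : Pat L → ℕ, PW Γ θ w R t0 M r fun P => (n P : ℝ)

def St_TREE : Prop := ∀ (Γ E Ω : Type) [Group Γ] [MulAction Γ E] [MulAction Γ Ω] (a b : E → Ω)
  (e : Ω), (∀ (γ : Γ) (x : E), γ • x = x → γ = 1) →
  (∃ S : Set E, S.Finite ∧ ∀ x, ∃ s ∈ S, ∃ γ : Γ, x = γ • s) →
  (∀ (γ : Γ) x, a (γ • x) = γ • a x) → (∀ (γ : Γ) x, b (γ • x) = γ • b x) →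
  (∀ γ : Γ, γ • e = e) → (∀ (γ : Γ) x, a x ≠ e → γ • a x = a x → γ = 1) →
  (∀ (γ : Γ) x, b x ≠ e → γ • b x = b x → γ = 1) →
  (∀ ω, ω ≠ e → {x | a x = ω}.Finite ∧ {x | b x = ω}.Finite ∧
    {x | a x = ω}.ncard = {x | b x = ω}.ncard) →
    ∃ σ : E ≃ E, (∀ (γ : Γ) x, σ (γ • x) = γ • σ x) ∧ ∀ x, b (σ x) = a x

def St_DEV : Prop := ∀ (Γ L : Type) [Group Γ] [MulAction Γ L] (θ w : T L → ℝ)
  (R : Finset (T L)) (t0 : T L) (M r : ℕ) (n : Pat L → ℕ), Wt Γ w →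
  (PW Γ θ w R t0 M r fun P => (n P : ℝ)) →
    ∃ (H : Type) (_ : MulAction Γ H) (c : H → Pat L) (mv : H → F2 → H),
      (∀ (γ : Γ) h, c (γ • h) = γ • c h) ∧ (∀ P, {h | c h = P}.Finite ∧ {h | c h = P}.ncard = n P) ∧
      (∀ h, mv h 1 = h) ∧ (∀ h u u', mv (mv h u) u' = mv h (u * u')) ∧
      (∀ (γ : Γ) h u, mv (γ • h) u = γ • mv h u) ∧
      ∀ h u, FreeGroup.norm u ≤ 2 * r → c h u = c (mv h u) 1

/-- hosts of finitely many cells, with a partial gluing -/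
structure Host (Γ L : Type) [Group Γ] [MulAction Γ L] (θ w : T L → ℝ) (R : Finset (T L))
    (t0 : T L) (M : ℕ) where
  H : Type
  sm : Γ → H → H
  col : H → Set (T L)
  Adj : H → H → Prop
  sm_one : ∀ h, sm 1 h = h
  sm_mul : ∀ γ δ h, sm (γ * δ) h = sm γ (sm δ h)
  supp : ∀ h t, t ∈ col h → 0 < w t
  col_sm : ∀ γ h t, t ∈ col h → γ • t ∈ col (sm γ h)
  col_ev : ∀ h t α, Ev α → t ∈ col h → t ∘ α ∈ col h
  symm : ∀ h h', Adj h h' → Adj h' h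
  adj_sm : ∀ γ h h', Adj h h' → Adj (sm γ h) (sm γ h')
  uniq : ∀ h h1 h2 a1 a2 f, Adj h h1 → Adj h h2 → cn a1 f ∈ col h1 → cn a2 f ∈ col h2 →
    h1 = h2 ∧ a1 = a2
  fin : ∀ t, {h | t ∈ col h}.Finite
  bal : ∀ f, {x : H × L | cn x.2 f ∈ col x.1}.ncard = {x : H × L | cn x.2 (f ∘ sw) ∈ col x.1}.ncard
  cnt : M * ∑ s ∈ R, {h | s ∈ col h ∧ ¬ Star θ col Adj h s}.ncard < {h | t0 ∈ col h}.ncard

def St_HOST : Prop := ∀ (Γ L : Type) [Group Γ] [MulAction Γ L] (θ w : T L → ℝ)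
  (R : Finset (T L)) (t0 : T L) (M r : ℕ) (n : Pat L → ℕ), Wt Γ w →
  (PW Γ θ w R t0 M r fun P => (n P : ℝ)) → Nonempty (Host Γ L θ w R t0 M)

def St_INV2 : Prop := ∀ (S Φ : Type) [Finite S] (c : S → Φ) (ι : Φ → Φ) (Rl : S → S → Prop),
  (∀ φ, ι (ι φ) = φ) → (∀ φ, Nat.card {a // c a = φ} = Nat.card {a // c a = ι φ}) →
  (∀ a b, Rl a b → Rl b a) → (∀ a b b', Rl a b → Rl a b' → b = b') →
  (∀ a b, Rl a b → c b = ι (c a)) →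
    ∃ nb : S → S, ∀ a, nb (nb a) = a ∧ c (nb a) = ι (c a) ∧ ∀ b, Rl a b → nb a = b

/-- the tetrahedra of the finite model -/
def Ix {Γ L : Type} [Group Γ] [MulAction Γ L] {θ w : T L → ℝ} {R : Finset (T L)} {t0 : T L}
    {M : ℕ} (A : Host Γ L θ w R t0 M) : Type := {a : A.H × T L // a.2 ∈ R ∧ a.2 ∈ A.col a.1}

def St_GLUE : Prop := ∀ (Γ L : Type) [Group Γ] [MulAction Γ L] (θ w : T L → ℝ) (φ : T L → Γ)
  (R : Finset (T L)) (t0 : T L) (M : ℕ) (A : Host Γ L θ w R t0 M), Wt Γ w → Frm w φ R →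
    ∃ (nb : Ix A × Fin 4 → Ix A × Fin 4) (π : Ix A × Fin 4 → P4) (g : Ix A × Fin 4 → Γ),
      Pair nb π ∧ (∀ a j, j ≠ a.2 → g a • a.1.1.2 j = (nb a).1.1.2 (π a j)) ∧
      ∀ (i i' : Ix A) (α α' : P4) (γ : Γ), Ev α → Ev α' → A.Adj i.1.1 (A.sm γ i'.1.1) →
        γ • i'.1.2 (α' 0) = i.1.2 (α 0) → γ • i'.1.2 (α' 1) = i.1.2 (α 1) →
        γ • i'.1.2 (α' 2) = i.1.2 (α 3) → rot nb π (i, α) = (i', α')

/-- unbranched, for an abstract angle -/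
def UnbA {I L : Type} (θ : T L → ℝ) (v : I → T L) (nb : I × Fin 4 → I × Fin 4)
    (π : I × Fin 4 → P4) (i : I) : Prop :=
  ∀ s : P4, Equiv.Perm.sign s = 1 → ∃ q : ℕ, 0 < q ∧ (rot nb π)^[q] (i, s) = (i, s) ∧
    ∑ n ∈ Finset.range q, θ (v ((rot nb π)^[n] (i, s)).1 ∘ ((rot nb π)^[n] (i, s)).2) =
      2 * Real.pi

def St_CLOSE : Prop := ∀ (Γ L : Type) [Group Γ] [MulAction Γ L] (θ w : T L → ℝ) (φ : T L → Γ)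
  (R : Finset (T L)) (t0 : T L) (M : ℕ) (_ : Host Γ L θ w R t0 M), Wt Γ w → Frm w φ R → t0 ∈ R →
  (∀ (γ : Γ) t, θ (γ • t) = θ t) →
    ∃ (I : Type) (_ : Fintype I) (v : I → T L) (nb : I × Fin 4 → I × Fin 4) (π : I × Fin 4 → P4)
      (g : I × Fin 4 → Γ), Pair nb π ∧ (∀ a j, j ≠ a.2 → g a • v a.1 j = v (nb a).1 (π a j)) ∧
      (∀ i, 0 < w (v i)) ∧ M * Nat.card {i // ¬ UnbA θ v nb π i} < Nat.card {i // v i = t0}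

def St_TF : Prop := ∀ (K : Type) [Field K] [NumberField K] (N : ℕ) (γ : SL(2, 𝓞 K)) (n : ℕ),
  3 ∣ N → Cong N γ → 0 < n → γ ^ n = 1 → γ = 1

section
variable {K : Type} [Field K] [NumberField K] {σ : K →+* ℂ}

/-- the weight of a cell -/
noncomputable def wC (S : Sys σ) (ρ : ℝ) (η : Lat K → ℝ) (t : T (Lat K)) : ℝ :=
  if 0 < orn (pe σ ∘ t) then (S.μ {x | Del (pe σ) η (S.win ρ x) t}).toReal else 0

/-- the standing hypotheses on the window and the heights -/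
def Hyp (S : Sys σ) (ρ C η0 η1 : ℝ) (N : ℕ) (η : Lat K → ℝ) : Prop :=
  0 < C ∧ 0 < η0 ∧ 0 < N ∧ 3 ∣ N ∧ (∀ a, η0 ≤ η a ∧ η a ≤ η1) ∧
  (∀ a b : Lat K, (∀ i, (N : 𝓞 K) ∣ a i - b i) → η a = η b) ∧
  (∀ x, Mk (pe σ) (S.win ρ x) C) ∧ ∀ x, Gen (pe σ) η (S.win ρ x)

/-- the cell `t` of the leaf `z.1` has position `l` and size at most `B` -/
def InC {Λ : Type} [Group Λ] (S : Sys σ) (ρ : ℝ) (η : Lat K → ℝ) {N : ℕ}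
    (φ : T (Lat K) → TOP.Gam K N) (r : Λ →* G) (D : Set G) (z : S.X × G) (t : T (Lat K)) (l : Λ)
    (B : ℕ) : Prop :=
  0 < wC S ρ η t ∧ Del (pe σ) η (S.win ρ z.1) t ∧ (r l)⁻¹ * z.2 * TOP.em σ (φ t).1 ∈ D ∧
    ∀ i j, ‖((r l)⁻¹ * z.2 * TOP.em σ (φ t).1).1 i j‖ ≤ B

end

def St_WT : Prop := ∀ (K : Type) [Field K] [NumberField K] (σ : K →+* ℂ) (S : Sys σ)
  (ρ C η0 η1 : ℝ) (N : ℕ) (η : Lat K → ℝ), Hyp S ρ C η0 η1 N η → Wt (TOP.Gam K N) (wC S ρ η)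

def St_LAMF : Prop := ∀ (K : Type) [Field K] [NumberField K] (σ : K →+* ℂ) (S : Sys σ)
  (ρ : ℝ) (N : ℕ) (η : Lat K → ℝ) (φ : T (Lat K) → TOP.Gam K N) (R : Finset (T (Lat K)))
  (Λ : Type) [Group Λ] (r : Λ →* G) (D : Set G), Frm (wC S ρ η) φ R → ∀ t l l' B,
    {u | ∃ z, InC S ρ η φ r D z t l B ∧ InC S ρ η φ r D z u l' B}.Finite

def St_LAMS : Prop := ∀ (K : Type) [Field K] [NumberField K] (σ : K →+* ℂ) (S : Sys σ)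
  (ρ C η0 η1 : ℝ) (N : ℕ) (η : Lat K → ℝ) (φ : T (Lat K) → TOP.Gam K N)
  (R : Finset (T (Lat K))) (Λ : Type) [Group Λ] (r : Λ →* G) (ν : Measure G) (D : Set G),
  Hyp S ρ C η0 η1 N η → Frm (wC S ρ η) φ R → Dom r ν D →
    ∃ (X0 : Set S.X) (Y0 : Set G), S.μ X0 = 0 ∧ ν Y0 = 0 ∧ ∀ z : S.X × G, z.1 ∉ X0 → z.2 ∉ Y0 →
      ∀ t, (∃ B, InC S ρ η φ r D z t 1 B) → Star (ang (pe σ))
        (fun l => {u | ∃ B, InC S ρ η φ r D z u l B}) (fun _ _ => True) 1 t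

def St_LAM : Prop := ∀ (K : Type) [Field K] [NumberField K] (σ : K →+* ℂ) (S : Sys σ)
  (ρ C η0 η1 : ℝ) (N : ℕ) (η : Lat K → ℝ) (φ : T (Lat K) → TOP.Gam K N)
  (R : Finset (T (Lat K))) (Λ : Type) [Group Λ] (r : Λ →* G) (ν : Measure G) (D : Set G),
  Hyp S ρ C η0 η1 N η → Frm (wC S ρ η) φ R → Dom r ν D →
    Nonempty (Lam (TOP.Gam K N) (Lat K) Λ (ang (pe σ)) (wC S ρ η))

def St_TOP3 : Prop := ∀ (K : Type) [Field K] [NumberField K] (σ : K →+* ℂ),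
  ¬ ComplexEmbedding.IsReal σ → ∀ t0 : T (Lat K), 0 < orn (pe σ ∘ t0) → ∀ M : ℕ,
    ∃ (I : Type) (_ : Fintype I) (v : I → T (Lat K)) (nb : I × Fin 4 → I × Fin 4)
      (π : I × Fin 4 → P4) (g : I × Fin 4 → G), Glue (fun i => pe σ ∘ v i) nb π g ∧
      M * Nat.card {i // ¬ Unbr (fun i => pe σ ∘ v i) nb π i} < Nat.card {i // v i = t0}

def St_COMP : Prop := ∀ (I : Type) [Fintype I] (v : I → Fin 4 → V) (nb : I × Fin 4 → I × Fin 4)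
  (π : I × Fin 4 → P4) (g : I × Fin 4 → G) (z : ℂ) (M : ℕ), Glue v nb π g →
  M * Nat.card {i // ¬ Unbr v nb π i} < Nat.card {i // shape (v i) = z} →
    ∃ (J : Type) (_ : Fintype J) (v' : J → Fin 4 → V) (nb' : J × Fin 4 → J × Fin 4)
      (π' : J × Fin 4 → P4) (g' : J × Fin 4 → G), Glue v' nb' π' g' ∧ (∀ j, ∃ i, v' j = v i) ∧
      (∀ i i', Relation.ReflTransGen (fun x y => ∃ j, (nb' (x, j)).1 = y) i i') ∧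
      M * Nat.card {i // ¬ Unbr v' nb' π' i} < Nat.card {i // shape (v' i) = z}

def St_FIN3 : Prop := ∀ (k : IntermediateField ℚ ℂ), FiniteDimensional ℚ k →
  (∃ w ∈ k, w.im ≠ 0) → (∃ z : ℂ, 0 < z.im ∧ IntermediateField.adjoin ℚ {z} = k) ∧
  ∀ z : ℂ, 0 < z.im → IntermediateField.adjoin ℚ {z} = k → ∀ M : ℕ,
  ∃ (I : Type) (_ : Fintype I) (v : I → Fin 4 → Fin 2 → ℂ) (nb : I × Fin 4 → I × Fin 4)
    (π : I × Fin 4 → Equiv.Perm (Fin 4)) (g : I × Fin 4 → Matrix.SpecialLinearGroup (Fin 2) ℂ),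
    (∀ a, nb (nb a) = a ∧ nb a ≠ a ∧ π (nb a) = (π a)⁻¹ ∧ π a a.2 = (nb a).2 ∧
      Equiv.Perm.sign (π a) = -1) ∧
    (∀ i i', ∃ γ, Walk nb g i γ i') ∧
    (∀ a j, j ≠ a.2 → (g a).1.mulVec (v a.1 j) = v (nb a).1 (π a j)) ∧
    (∀ i j l, v i j l ∈ k) ∧ (∀ i, 0 < (shape (v i)).im) ∧
    (∀ i j, ∃ u, Walk nb g i u i ∧ u ≠ 1 ∧ u.1.mulVec (v i j) = v i j) ∧
    (∀ i, itf nb g i = k) ∧
    M * Nat.card {i // ¬ Unbr v nb π i} < Nat.card {i // shape (v i) = z}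

end Pool.Agent.Lib.BR18.V3
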